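import Pool.Agent.Lib.MP_1bbcfd_lc.PT.Walk
import Pool.Agent.Lib.MP_be0860_lc.Core

/-! A stuck solution of low value gives a small cut that separates mass of the target. -/

namespace Pool.Agent.Lib.MP_1bbcfd_lc.PT

open Finset
open scoped symmDiff

variable {α : Type} [DecidableEq α] [Fintype α]

omit [Fintype α] in
/-- closed walks have no gain when at most `N` elements are counted (`exists_mv`) -/
theorem Two.Stuck.weak {P : Two α} {F B R : Finset α} {g : α → ℝ} {N : ℕ}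
    (st : P.Stuck F g N B R) (hF : F ⊆ B) (hR : R ⊆ B) (hN : 1 ≤ N) : P.WStuck F g N B R := by
  refine ⟨fun e he => ?_, fun e he heR => ?_, fun A hA hAB s l w => not_lt.1 fun hp => ?_⟩
  · have := st B (R.erase e) (Two.Mv.refl P B) hF ((erase_subset _ _).trans hR) (by
      rw [sdiff_eq_empty_iff_subset.2 (erase_subset _ _)]; simp)
    linarith [add_sum_erase R g he]
  · have := st B (insert e R) (Two.Mv.refl P B) hF (insert_subset he hR) (by
      rw [insert_sdiff_of_notMem _ heR, sdiff_self]; simpa using hN)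
    linarith [sum_insert (f := g) heR]
  · obtain ⟨C, hC, hpos, hmv⟩ := P.exists_mv hF _ w hp
    have hd : ∀ v ∈ A, v ∉ B := fun v hv => disjoint_left.1 hAB hv
    have := st (B ∆ C) ((R \ C) ∪ C.filter fun v => v ∈ A ∧ 0 < g v) hmv
      (fun v hv => mem_symmDiff.2 (Or.inl ⟨hF hv, fun h => (hC v h).2 hv⟩)) (fun v hv => by
        rcases mem_union.1 hv with h | h
        · exact mem_symmDiff.2 (Or.inl ⟨hR (mem_sdiff.1 h).1, (mem_sdiff.1 h).2⟩)
        · exact mem_symmDiff.2 (Or.inr ⟨(mem_filter.1 h).1, hd v (mem_filter.1 h).2.1⟩))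
      ((card_le_card fun v hv => by
        obtain ⟨h1, h2⟩ := mem_sdiff.1 hv
        rcases mem_union.1 h1 with h | h
        · exact absurd (mem_sdiff.1 h).1 h2
        · exact (mem_filter.1 h).2.1).trans hA)
    rw [sum_union (disjoint_left.2 fun v h h' => (mem_sdiff.1 h).2 (mem_filter.1 h').1),
      sum_filter] at this
    rw [sum_sub_distrib, sum_ite_mem C R, inter_comm] at hpos
    have e : ∑ v ∈ C, (if v ∈ A ∧ 0 < g v then g v else 0)
        = ∑ v ∈ C, if v ∈ A then max (g v) 0 else 0 := sum_congr rfl fun v _ => by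
      by_cases h1 : v ∈ A
      · by_cases h2 : 0 < g v
        · simp [h1, h2, h2.le]
        · simp [h1, h2, not_lt.1 h2]
      · simp [h1]
    linarith [sum_inter_add_sum_sdiff R C g]

omit [Fintype α] in
theorem mass_image {v : ℕ → α} {c : ℕ} (hi : ∀ a < c, ∀ b < c, v a = v b → a = b) (A : Finset α)
    (m : α → ℝ) (T : Finset ℕ) (hT : ∀ t ∈ T, t < c) :
    ∑ e ∈ A ∩ T.image v, m e = ∑ t ∈ T, if v t ∈ A then m (v t) else 0 := by
  rw [inter_comm, ← sum_ite_mem, sum_image fun a ha b hb h => hi a (hT a ha) b (hT b hb) h]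

/-- A window of an orbit with a large gain gives the cut. -/
theorem Two.cut_window (P : Two α) {F B R Rs : Finset α} {g m : α → ℝ} {N s : ℕ}
    {O δ θ₁ θ₂ : ℝ} (hB : P.CB B) (hF : F ⊆ B) (hR : R ⊆ B)
    (st : P.WStuck F g N B R) (hO : 0 < O) (hm : ∀ e, 0 ≤ m e)
    (hg : ∀ e, g e ≤ O * m e) (hgO : ∑ e ∈ R, g e < O)
    (hcount : ∀ A ⊆ Rs, ∑ e ∈ A, m e ≤ 3 * θ₁ → #A ≤ N)
    (hlight : ∀ e ∈ Rs, e ∉ F → m e ≤ θ₂) (hδ : 0 < δ) (hθ₂ : 0 < θ₂) (h₁ : 5 * θ₂ ≤ θ₁)
    (hs : 1 ≤ ((s : ℝ) + 1) * δ) (u : ℕ → α) (L c : ℕ) (hc : c ≤ L) (hp : ∀ t, u (t + L) = u t)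
    (hi : ∀ a < c, ∀ b < c, u a = u b → a = b) (ha : ∀ t, P.D B F (u t) (u (t + 1)))
    (lo : θ₁ ≤ ∑ t ∈ range c, if u t ∈ Rs \ B then m (u t) else 0)
    (up : ∑ t ∈ range c, (if u t ∈ Rs \ B then m (u t) else 0) ≤ 3 * θ₁)
    (big : O * (δ + 4 * θ₂) < ∑ t ∈ range c,
      ((if u t ∈ Rs \ B then max (g (u t)) 0 else 0) - if u t ∈ R then g (u t) else 0)) :
    ∃ H U X E : Finset α, H ⊆ B ∧ #H ≤ s ∧ P.Closed (F ∪ H) U ∧ X ⊆ Rs ∧ E ⊆ Rs ∧ X ⊆ U ∧
      Disjoint E U ∧ θ₂ ≤ ∑ e ∈ X, m e ∧ θ₂ ≤ ∑ e ∈ E, m e ∧ ∀ x ∈ X, ∀ y ∈ E, P.Rc F x y := by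
  set μ : ℕ → ℝ := fun t => if u t ∈ Rs \ B then m (u t) else 0 with hμ
  set ψ : ℕ → ℝ := fun t =>
    (if u t ∈ Rs \ B then max (g (u t)) 0 else 0) - if u t ∈ R then g (u t) else 0 with hψ
  have μ0 : ∀ t, 0 ≤ μ t := fun t => by
    simp only [hμ]
    split_ifs
    exacts [hm _, le_rfl]
  have μ1 : ∀ t, μ t ≤ θ₂ := fun t => by
    simp only [hμ]
    split_ifs with h
    · exact hlight _ (mem_sdiff.1 h).1 fun h' => (mem_sdiff.1 h).2 (hF h')
    · exact hθ₂.le
  have ψμ : ∀ t, ψ t ≤ O * μ t := fun t => by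
    have h2 : 0 ≤ (if u t ∈ R then g (u t) else 0) := by
      split_ifs with h
      exacts [st.1 _ h, le_rfl]
    have h3 : (if u t ∈ Rs \ B then max (g (u t)) 0 else 0) ≤ O * μ t := by
      simp only [hμ]
      split_ifs
      · exact max_le (hg _) (mul_nonneg hO.le (hm _))
      · simp
    simp only [hψ]
    linarith
  obtain ⟨j₁, hj₁, a₁, b₁⟩ := MP_be0860_lc.exists_prefix (f := μ) hθ₂.le hθ₂.le c
    (fun i _ => μ1 i) (by linarith)
  obtain ⟨j₂, hj₂, a₂, b₂⟩ := MP_be0860_lc.exists_prefix (f := fun t => μ (c - 1 - t)) hθ₂.le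
    hθ₂.le c (fun i _ => μ1 _) (by rw [sum_range_reflect]; linarith)
  have e₂ : ∑ i ∈ range j₂, μ (c - 1 - i) = ∑ t ∈ Ico (c - j₂) c, μ t := by
    rw [sum_Ico_eq_sum_range, show c - (c - j₂) = j₂ by omega, ← sum_range_reflect]
    exact sum_congr rfl fun i hi => by
      have := mem_range.1 hi
      congr 1
      omega
  rw [e₂] at a₂ b₂
  have hj : j₁ ≤ c - j₂ := by
    by_contra h
    have h3 := sum_range_add_sum_Ico μ (Nat.sub_le c j₂)
    have h4 : ∑ t ∈ range (c - j₂), μ t ≤ ∑ t ∈ range j₁, μ t :=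
      sum_le_sum_of_subset_of_nonneg (range_subset_range.2 (by omega)) fun i _ _ => μ0 i
    linarith
  have c0 : ∀ v, 0 ≤ (if v ∈ R then g v else 0) := fun v => by
    split_ifs with h
    exacts [st.1 _ h, le_rfl]
  obtain ⟨U, H, hH, hH0, hU, hXU, hUX⟩ := ball (P.D B F) (fun v => if v ∈ R then g v else 0) c0
    ((Rs \ B) ∩ (Ico (c - j₂) c).image u) (a := 0) (b := δ * O) (by positivity) s (by
      rw [sum_ite_mem, univ_inter, sub_zero, ← mul_assoc]
      nlinarith)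
  have hHB : H ⊆ B := fun v hv => by
    have := hH0 v hv
    split_ifs at this with h
    exacts [hR h, absurd this (lt_irrefl _)]
  refine ⟨H, U, (Rs \ B) ∩ (Ico (c - j₂) c).image u, (Rs \ B) ∩ (range j₁).image u, hHB, hH, ?_,
    inter_subset_left.trans sdiff_subset, inter_subset_left.trans sdiff_subset, ?_, ?_, ?_, ?_, ?_⟩
  · refine P.closed_of_arcs hB (union_subset hF hHB) fun x y h hx => ?_
    refine hU x hx (fun hx' => ?_) y (Two.D.mono subset_union_left h)
    rcases h with h | h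
    · exact h.1.2.1 (hHB hx')
    · exact h.2 (mem_union_right _ hx')
  · exact fun q hq => hXU q hq [] q rfl (by simp)
  · refine disjoint_left.2 fun e he heU => ?_
    obtain ⟨a, ha1, rfl⟩ := mem_image.1 (mem_inter.1 he).2
    obtain ⟨q, hq, l, wl, cl⟩ := hUX _ heU
    obtain ⟨b, hb1, rfl⟩ := mem_image.1 (mem_inter.1 hq).2
    have ha2 := mem_range.1 ha1
    obtain ⟨hb2, hb3⟩ := mem_Ico.1 hb1
    have w1 := wk_seg (D := P.D B F) u a (b - a) fun i _ => ha _
    rw [show a + (b - a) = b by omega] at w1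
    have hA : #((Rs \ B) ∩ (range c).image u) ≤ N := by
      refine hcount _ (inter_subset_left.trans sdiff_subset) ?_
      rw [mass_image hi _ m _ fun t ht => mem_range.1 ht]
      exact up
    have k := st.2.2 _ hA (disjoint_of_subset_left inter_subset_left sdiff_disjoint) _ _
      (wk_append.2 ⟨_, w1, wl⟩)
    rw [List.map_append, List.sum_append, sum_seg] at k
    have k1 : ∑ i ∈ range (b - a), ((if u (a + i) ∈ (Rs \ B) ∩ (range c).image u then
        max (g (u (a + i))) 0 else 0) - if u (a + i) ∈ R then g (u (a + i)) else 0) =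
        ∑ t ∈ Ico a b, ψ t := by
      rw [sum_Ico_eq_sum_range]
      refine sum_congr rfl fun i hi' => ?_
      have h5 := mem_range.1 hi'
      have h6 : u (a + i) ∈ (range c).image u := mem_image_of_mem _ (mem_range.2 (by omega))
      simp only [hψ, mem_inter, h6, and_true]
    have k2 : ∀ l : List α, -(l.map fun v => if v ∈ R then g v else 0).sum ≤
        (l.map fun v => (if v ∈ (Rs \ B) ∩ (range c).image u then max (g v) 0 else 0) -
          if v ∈ R then g v else 0).sum := by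
      intro l
      induction l with
      | nil => simp
      | cons p l ih =>
        have h7 : 0 ≤ (if p ∈ (Rs \ B) ∩ (range c).image u then max (g p) 0 else 0) := by
          split_ifs
          exacts [le_max_right _ _, le_rfl]
        simp only [List.map_cons, List.sum_cons]
        linarith
    have k3 := k2 l
    have s1 := sum_range_add_sum_Ico ψ hb3.le
    have s2 := sum_range_add_sum_Ico ψ (show a ≤ b by omega)
    have s3 : ∑ t ∈ range a, ψ t ≤ O * ∑ t ∈ range j₁, μ t := by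
      rw [mul_sum]
      exact (sum_le_sum fun t _ => ψμ t).trans (sum_le_sum_of_subset_of_nonneg
        (range_subset_range.2 ha2.le) fun t _ _ => mul_nonneg hO.le (μ0 t))
    have s4 : ∑ t ∈ Ico b c, ψ t ≤ O * ∑ t ∈ Ico (c - j₂) c, μ t := by
      rw [mul_sum]
      exact (sum_le_sum fun t _ => ψμ t).trans (sum_le_sum_of_subset_of_nonneg
        (Ico_subset_Ico_left hb2) fun t _ _ => mul_nonneg hO.le (μ0 t))
    have s5 := mul_le_mul_of_nonneg_left b₁ hO.le
    have s6 := mul_le_mul_of_nonneg_left b₂ hO.le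
    rw [k1] at k
    nlinarith
  · rw [mass_image hi _ m _ fun t ht => (mem_Ico.1 ht).2]
    exact a₂
  · rw [mass_image hi _ m _ fun t ht => (mem_range.1 ht).trans_le hj₁]
    exact a₁
  · intro x hx y hy
    obtain ⟨a, ha1, rfl⟩ := mem_image.1 (mem_inter.1 hy).2
    obtain ⟨b, hb1, rfl⟩ := mem_image.1 (mem_inter.1 hx).2
    have hb3 := (mem_Ico.1 hb1).2
    have w1 := wk_seg (D := P.D B F) u b (a + L - b) fun i _ => ha _
    rw [show b + (a + L - b) = a + L by omega, hp] at w1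
    exact P.rc_of_wk hB hF w1

/-- STEP 1 of the paper; `g = w - b`, `O` is the optimum, `m` the mass. -/
theorem Two.cut (P : Two α) {F B R Bs Rs : Finset α} {g m : α → ℝ} {N s : ℕ} {O ε δ θ₁ θ₂ : ℝ}
    (hB : P.CB B) (hBs : P.CB Bs) (hF : F ⊆ B) (hFs : F ⊆ Bs) (hR : R ⊆ B) (hRs : Rs ⊆ Bs)
    (st : P.WStuck F g N B R) (hO : 0 < O) (hm : ∀ e, 0 ≤ m e)
    (hg : ∀ e, g e ≤ O * m e) (hgO : ∑ e ∈ Rs, g e ≤ O) (hm2 : ∑ e ∈ Rs, m e ≤ 2)
    (hcount : ∀ A ⊆ Rs, ∑ e ∈ A, m e ≤ 3 * θ₁ → #A ≤ N)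
    (hlight : ∀ e ∈ Rs, e ∉ F → m e ≤ θ₂) (hδ : 0 < δ) (hθ₂ : 0 < θ₂) (h₁ : 5 * θ₂ ≤ θ₁)
    (h₂ : 2 * (δ + 4 * θ₂) ≤ ε * θ₁) (hs : 1 ≤ ((s : ℝ) + 1) * δ)
    (gap : ∑ e ∈ R, g e + ε * O < ∑ e ∈ Rs, g e) :
    ∃ H U X E : Finset α, H ⊆ B ∧ #H ≤ s ∧ P.Closed (F ∪ H) U ∧ X ⊆ Rs ∧ E ⊆ Rs ∧ X ⊆ U ∧
      Disjoint E U ∧ θ₂ ≤ ∑ e ∈ X, m e ∧ θ₂ ≤ ∑ e ∈ E, m e ∧ ∀ x ∈ X, ∀ y ∈ E, P.Rc F x y := by
  have hθ₁ : 0 < θ₁ := by linarith
  have hε : 0 < ε := by
    by_contra h
    nlinarith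
  obtain ⟨σ, hσ, hσ'⟩ := P.exists_perm hB hBs
  set μ : α → ℝ := fun v => if v ∈ Rs \ B then m v else 0 with hμ
  set ψ : α → ℝ := fun v =>
    (if v ∈ Rs \ B then max (g v) 0 else 0) - if v ∈ R then g v else 0 with hψ
  have μ0 : ∀ v, 0 ≤ μ v := fun v => by
    simp only [hμ]
    split_ifs
    exacts [hm _, le_rfl]
  have t1 : ∑ v, μ v ≤ 2 := by
    simp only [hμ]
    rw [sum_ite_mem, univ_inter]
    exact (sum_le_sum_of_subset_of_nonneg sdiff_subset fun e _ _ => hm e).trans hm2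
  have t2 : ∑ e ∈ Rs, g e - ∑ e ∈ R, g e ≤ ∑ v, if v ∈ B ∆ Bs then ψ v else 0 := by
    have e1 : ∑ e ∈ Rs, g e - ∑ e ∈ R, g e =
        ∑ v, ((if v ∈ Rs then g v else 0) - if v ∈ R then g v else 0) := by
      rw [sum_sub_distrib, sum_ite_mem, sum_ite_mem, univ_inter, univ_inter]
    rw [e1]
    refine sum_le_sum fun v _ => ?_
    have q1 := st.1 v
    have q2 := st.2.1 v
    have q3 := @hR v
    have q4 := @hRs v
    simp only [hψ, mem_symmDiff, mem_sdiff]
    by_cases c1 : v ∈ B <;> by_cases c2 : v ∈ Bs <;> by_cases c3 : v ∈ R <;>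
      by_cases c4 : v ∈ Rs <;> simp_all
  obtain ⟨x, hx⟩ : ∃ x, 0 < ∑ i ∈ range (Function.minimalPeriod σ x),
      ((if σ^[i] x ∈ B ∆ Bs then ψ (σ^[i] x) else 0) - ε * O / 2 * μ (σ^[i] x)) := by
    by_contra h
    have := MP_be0860_lc.sum_nonpos_of_orbits σ
      (fun v => (if v ∈ B ∆ Bs then ψ v else 0) - ε * O / 2 * μ v) fun x =>
        not_lt.1 fun h' => h ⟨x, h'⟩
    rw [sum_sub_distrib, ← mul_sum] at this
    have h3 := mul_le_mul_of_nonneg_left t1 (show 0 ≤ ε * O / 2 by positivity)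
    linarith
  have hxS : x ∈ B ∆ Bs := by
    by_contra h
    refine absurd hx (not_lt.2 (sum_nonpos fun i _ => ?_))
    rw [Function.iterate_fixed (hσ' x h), if_neg h, zero_sub, neg_nonpos]
    exact mul_nonneg (by positivity) (μ0 x)
  have hS : ∀ i, σ^[i] x ∈ B ∆ Bs := fun i => by
    induction i with
    | zero => exact hxS
    | succ i ih =>
      rw [Function.iterate_succ_apply']
      exact (hσ _ ih).1
  set L := Function.minimalPeriod σ x with hL
  set v : ℕ → α := fun i => σ^[i] x with hv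
  have ha : ∀ t, P.D B F (v t) (v (t + 1)) := fun t => by
    simp only [hv]
    rw [Function.iterate_succ_apply']
    exact Two.D.mono (subset_inter hF hFs) (hσ _ (hS t)).2
  have hp : ∀ t, v (t + L) = v t := fun t => by
    simp only [hv, hL]
    rw [Function.iterate_add_minimalPeriod_eq]
  have hi : ∀ a < L, ∀ b < L, v a = v b → a = b := fun a h1 b h2 h =>
    Function.iterate_injOn_Iio_minimalPeriod h1 h2 h
  simp only [hS, if_true] at hx
  rw [sum_sub_distrib, ← mul_sum] at hx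
  change 0 < ∑ i ∈ range L, ψ (v i) - ε * O / 2 * ∑ i ∈ range L, μ (v i) at hx
  have m0 : 0 ≤ ∑ i ∈ range L, μ (v i) := sum_nonneg fun i _ => μ0 _
  have m1 : θ₁ ≤ ∑ i ∈ range L, μ (v i) := by
    by_contra h
    have hA : #((Rs \ B) ∩ (range L).image v) ≤ N := by
      refine hcount _ (inter_subset_left.trans sdiff_subset) ?_
      rw [mass_image hi _ m _ fun t ht => mem_range.1 ht]
      change ∑ i ∈ range L, μ (v i) ≤ _
      linarith
    have w1 := wk_seg (D := P.D B F) v 0 L fun i _ => ha _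
    rw [hp] at w1
    have k := st.2.2 _ hA (disjoint_of_subset_left inter_subset_left sdiff_disjoint) _ _ w1
    rw [sum_seg] at k
    have k1 : ∑ i ∈ range L, ψ (v i) ≤ 0 := by
      refine le_of_eq_of_le (sum_congr rfl fun i hi' => ?_) k
      have h6 : v i ∈ (range L).image v := mem_image_of_mem _ hi'
      simp only [hψ, mem_inter, h6, and_true, zero_add]
    have k2 := mul_nonneg (show 0 ≤ ε * O / 2 by positivity) m0
    linarith
  by_contra hcon
  have W := MP_be0860_lc.windows (f := fun i => μ (v i)) (g := fun i => ψ (v i)) (θ := θ₁)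
    (D := O * (δ + 4 * θ₂)) (L := L) hθ₁ (by positivity) (fun i _ => by
      simp only [hμ]
      split_ifs with h
      · have := hlight _ (mem_sdiff.1 h).1 fun h' => (mem_sdiff.1 h).2 (hF h')
        linarith
      · exact hθ₁.le) (fun i c hic lo up => not_lt.1 fun big => hcon
      (P.cut_window hB hF hR st hO hm hg (by nlinarith) hcount hlight hδ hθ₂ h₁ hs
        (fun t => v (i + t)) L c (by omega) (fun t => by rw [← add_assoc, hp])
        (fun a h1 b h2 h => by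
          have := hi (i + a) (by omega) (i + b) (by omega) h
          omega) (fun t => ha (i + t)) lo up big)) L 0 (by omega) (by simpa using m1)
  simp only [zero_add] at W
  have f1 : O * (δ + 4 * θ₂) ≤ θ₁ * (ε * O / 2) := by nlinarith
  have f2 := mul_le_mul_of_nonneg_right f1 m0
  have f3 := mul_pos hθ₁ hx
  nlinarith

end Pool.Agent.Lib.MP_1bbcfd_lc.PT
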