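import Pool.Agent.Lib.MP_1bbcfd_lc.Defs

/-!
Vocabulary for the approximation scheme: exchange digraph, certified moves, closed sets,
the potential, and functions computed by a bounded number of oracle calls.
-/

namespace Pool.Agent.Lib.MP_1bbcfd_lc.PT

open Finset

variable {α : Type} [DecidableEq α]

/-- `B - x + y` is independent. -/
def Sw (M : Matroid α) (B : Finset α) (y x : α) : Prop :=
  x ∈ B ∧ y ∉ B ∧ M.Indep ((insert y (B.erase x) : Finset α) : Set α)

/-- `B'` is a base of every matroid that has the base `B` and the exchange relation `A`. -/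
def Cert (A : α → α → Prop) (B B' : Finset α) : Prop :=
  ∀ M : Matroid α, M.E = Set.univ → M.IsBase (B : Set α) → (∀ y x, Sw M B y x ↔ A y x) →
    M.IsBase (B' : Set α)

/-- The arcs of the exchange digraph, without the vertices of `F`. -/
def Arc (A₁ A₂ : α → α → Prop) (F : Finset α) (u v : α) : Prop :=
  (A₁ u v ∧ v ∉ F) ∨ (A₂ v u ∧ u ∉ F)

/-- A walk from `s` to `t`; the list holds its vertices without the last one. -/
def Wk {α : Type} (D : α → α → Prop) : α → List α → α → Prop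
  | s, [], t => s = t
  | s, a :: l, t => a = s ∧ ∃ u, D s u ∧ Wk D u l t

/-- Two matroids on the whole type. -/
structure Two (α : Type) where
  M₁ : Matroid α
  M₂ : Matroid α
  e₁ : M₁.E = Set.univ
  e₂ : M₂.E = Set.univ

/-- Common bases. -/
def Two.CB {α : Type} (P : Two α) (B : Finset α) : Prop :=
  P.M₁.IsBase (B : Set α) ∧ P.M₂.IsBase (B : Set α)

/-- The exchange digraph of `B` without `F`. -/
def Two.D (P : Two α) (B F : Finset α) : α → α → Prop := Arc (Sw P.M₁ B) (Sw P.M₂ B) F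

/-- Moves that are certified by the exchange digraph. -/
def Two.Mv (P : Two α) (B B' : Finset α) : Prop :=
  Cert (Sw P.M₁ B) B B' ∧ Cert (Sw P.M₂ B) B B'

/-- Closed sets after the contraction of `F`. -/
def Two.Closed (P : Two α) (F Z : Finset α) : Prop :=
  ∀ B₁ B₂ : Finset α, P.M₁.IsBase (B₁ : Set α) → P.M₂.IsBase (B₂ : Set α) → F ⊆ B₁ → F ⊆ B₂ →
    #(B₁ ∩ Z) ≤ #(B₂ ∩ Z)

/-- Reachability after the contraction of `F`. -/
def Two.Rc (P : Two α) (F : Finset α) (x y : α) : Prop :=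
  ∀ Z, P.Closed F Z → x ∈ Z → y ∈ Z

open Classical in
/-- The potential. -/
noncomputable def Two.Phi (P : Two α) (m : α → ℝ) (F R : Finset α) : ℝ :=
  ∑ x ∈ R, ∑ y ∈ R, if P.Rc F x y then m x * m y else 0

/-- No certified move with at most `N` new counted elements improves the value. -/
def Two.Stuck (P : Two α) (F : Finset α) (g : α → ℝ) (N : ℕ) (B R : Finset α) : Prop :=
  ∀ B' R', P.Mv B B' → F ⊆ B' → R' ⊆ B' → #(R' \ R) ≤ N → ∑ e ∈ R', g e ≤ ∑ e ∈ R, g e

/-- The walk form of being stuck. -/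
def Two.WStuck (P : Two α) (F : Finset α) (g : α → ℝ) (N : ℕ) (B R : Finset α) : Prop :=
  (∀ e ∈ R, 0 ≤ g e) ∧ (∀ e ∈ B, e ∉ R → g e ≤ 0) ∧
    ∀ A : Finset α, #A ≤ N → Disjoint A B → ∀ s l, Wk (P.D B F) s l s →
      (l.map fun v => (if v ∈ A then max (g v) 0 else 0) - if v ∈ R then g v else 0).sum ≤ 0

/-- `f` is computed from the oracle with at most `t` calls. -/
def Comp {Q γ : Type} : ℕ → ((Q → Bool) → γ) → Prop
  | 0, f => ∃ c, ∀ O, f O = c
  | t + 1, f => (∃ c, ∀ O, f O = c) ∨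
      ∃ q f₀ f₁, Comp t f₀ ∧ Comp t f₁ ∧ ∀ O, f O = if O q = true then f₁ O else f₀ O

theorem Two.Mv.cb {P : Two α} {B B' : Finset α} (h : P.Mv B B') (hB : P.CB B) : P.CB B' :=
  ⟨h.1 _ P.e₁ hB.1 fun _ _ => Iff.rfl, h.2 _ P.e₂ hB.2 fun _ _ => Iff.rfl⟩

theorem Two.Mv.refl (P : Two α) (B : Finset α) : P.Mv B B :=
  ⟨fun _ _ h _ => h, fun _ _ h _ => h⟩

theorem Two.D.mono {P : Two α} {B F F' : Finset α} (h : F ⊆ F') {u v : α} (a : P.D B F' u v) :
    P.D B F u v :=
  a.imp (fun a => ⟨a.1, fun b => a.2 (h b)⟩) fun a => ⟨a.1, fun b => a.2 (h b)⟩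

theorem Two.Closed.mono {P : Two α} {F F' Z : Finset α} (h : F ⊆ F') (c : P.Closed F Z) :
    P.Closed F' Z := fun B₁ B₂ a b c₁ c₂ => c B₁ B₂ a b (h.trans c₁) (h.trans c₂)

theorem Two.Rc.mono {P : Two α} {F F' : Finset α} (h : F ⊆ F') {x y : α} (r : P.Rc F' x y) :
    P.Rc F x y := fun Z c => r Z (c.mono h)

omit [DecidableEq α] in
theorem wk_append {D : α → α → Prop} {s t : α} {l m : List α} :
    Wk D s (l ++ m) t ↔ ∃ u, Wk D s l u ∧ Wk D u m t := by
  induction l generalizing s with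
  | nil => simp [Wk]
  | cons p l ih =>
    simp only [List.cons_append, Wk, ih]
    constructor
    · rintro ⟨a, u, b, v, c, d⟩
      exact ⟨v, ⟨a, u, b, c⟩, d⟩
    · rintro ⟨v, ⟨a, u, b, c⟩, d⟩
      exact ⟨a, u, b, v, c, d⟩

omit [DecidableEq α] in
theorem Wk.mono {D D' : α → α → Prop} (h : ∀ u v, D u v → D' u v) {s t : α} {l : List α}
    (w : Wk D s l t) : Wk D' s l t := by
  induction l generalizing s with
  | nil => exact w
  | cons p l ih =>
    obtain ⟨a, u, b, c⟩ := w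
    exact ⟨a, u, h _ _ b, ih c⟩

/-- The vertices `v a, …, v (a + k - 1)`. -/
def seg {α : Type} (v : ℕ → α) (a k : ℕ) : List α := (List.range k).map fun i => v (a + i)

omit [DecidableEq α] in
theorem wk_seg {D : α → α → Prop} (v : ℕ → α) (a k : ℕ)
    (h : ∀ i < k, D (v (a + i)) (v (a + i + 1))) : Wk D (v a) (seg v a k) (v (a + k)) := by
  induction k with
  | zero => rfl
  | succ k ih =>
    rw [seg, List.range_succ, List.map_append]
    exact wk_append.2 ⟨_, ih fun i hi => h i (by omega), rfl, _, h k (by omega), rfl⟩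

omit [DecidableEq α] in
theorem sum_seg (v : ℕ → α) (a k : ℕ) (ψ : α → ℝ) :
    ((seg v a k).map ψ).sum = ∑ i ∈ range k, ψ (v (a + i)) := by
  rw [seg, List.map_map, ← List.sum_toFinset _ List.nodup_range, List.toFinset_range]
  rfl

omit [DecidableEq α] in
theorem mem_seg {v : ℕ → α} {a k : ℕ} {x : α} : x ∈ seg v a k ↔ ∃ i < k, v (a + i) = x := by
  simp [seg]

end Pool.Agent.Lib.MP_1bbcfd_lc.PT
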