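import Mathlib

/-!
Matroid kit for the approximation scheme: swaps, the exchange digraph of a common base, the
bijective exchange property, the ordered unique-matching lemma, and positive closed walks.
-/

namespace Pool.Agent.Lib.MP_1bbcfd_lc.PT.Kit

open Finset

section Graph

variable {α : Type}

/-- `v` is a closed walk of period `L` for the arc relation `A`. -/
def CW (A : α → α → Prop) (v : ℕ → α) (L : ℕ) : Prop :=
  0 < L ∧ (∀ i, v (i + L) = v i) ∧ ∀ i, A (v i) (v (i + 1))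

/-- `C` is the vertex set of a cycle of `A` all of whose chords go up in some order. -/
def Taut [DecidableEq α] (A : α → α → Prop) (C : Finset α) : Prop :=
  ∃ (u : ℕ → α) (L : ℕ) (key : ℕ → ℕ), CW A u L ∧
    (∀ i < L, ∀ j < L, u i = u j → i = j) ∧ C = (range L).image u ∧
    ∀ i < L, ∀ j < L, i ≠ j → A (u i) (u (j + 1)) → key i < key j

theorem CW.sub {A : α → α → Prop} {v : ℕ → α} {L : ℕ} (h : CW A v L) (a s : ℕ)
    (hA : A (v (a + s)) (v a)) : CW A (fun t => v (a + t % (s + 1))) (s + 1) := by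
  refine ⟨Nat.succ_pos s, fun i => by simp, fun i => ?_⟩
  have hlt : i % (s + 1) < s + 1 := Nat.mod_lt _ (Nat.succ_pos s)
  by_cases hi : i % (s + 1) = s
  · have h0 : (i + 1) % (s + 1) = 0 := by
      rw [Nat.add_mod, hi]
      rcases Nat.eq_zero_or_pos s with hs | hs
      · subst hs; simp
      · rw [Nat.mod_eq_of_lt (show 1 < s + 1 by omega)]; simp
    simp only [hi, h0, Nat.add_zero]
    exact hA
  · have h1 : (i + 1) % (s + 1) = i % (s + 1) + 1 := by
      rw [Nat.add_mod, Nat.mod_eq_of_lt (show 1 < s + 1 by omega),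
        Nat.mod_eq_of_lt (show i % (s + 1) + 1 < s + 1 by omega)]
    simp only [h1]
    exact h.2.2 (a + i % (s + 1))

theorem CW.mod {A : α → α → Prop} {v : ℕ → α} {L : ℕ} (h : CW A v L) (i : ℕ) :
    v (i % L) = v i := by
  have key : ∀ q r, v (r + L * q) = v r := by
    intro q r
    induction q with
    | zero => simp
    | succ q ih => rw [show r + L * (q + 1) = r + L * q + L by ring, h.2.1, ih]
  conv_rhs => rw [← Nat.mod_add_div i L]
  exact (key _ _).symm

theorem CW.pred {A : α → α → Prop} {v : ℕ → α} {L : ℕ} (h : CW A v L) (t : ℕ) :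
    ∃ i < L, v (i + 1) = v t := by
  rcases Nat.eq_zero_or_pos (t % L) with h0 | h0
  · refine ⟨L - 1, by have := h.1; omega, ?_⟩
    have h1 := h.2.1 0
    rw [show L - 1 + 1 = 0 + L by have := h.1; omega, h1, ← h.mod t, h0]
  · refine ⟨t % L - 1, by have := Nat.mod_lt t h.1; omega, ?_⟩
    rw [show t % L - 1 + 1 = t % L by omega, h.mod]

theorem CW.succ_inj {A : α → α → Prop} {v : ℕ → α} {L : ℕ} (h : CW A v L)
    (hinj : ∀ i < L, ∀ j < L, v i = v j → i = j) {i j : ℕ} (hi : i < L) (hj : j < L)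
    (he : v (i + 1) = v (j + 1)) : i = j := by
  have h1 := hinj _ (Nat.mod_lt (i + 1) h.1) _ (Nat.mod_lt (j + 1) h.1)
    (by rw [h.mod, h.mod, he])
  rcases Nat.lt_or_ge (i + 1) L with h2 | h2 <;> rcases Nat.lt_or_ge (j + 1) L with h3 | h3
  · rw [Nat.mod_eq_of_lt h2, Nat.mod_eq_of_lt h3] at h1; omega
  · rw [Nat.mod_eq_of_lt h2, show j + 1 = L by omega, Nat.mod_self] at h1; omega
  · rw [Nat.mod_eq_of_lt h3, show i + 1 = L by omega, Nat.mod_self] at h1; omega
  · omega

variable {K : Type} [Field K] [LinearOrder K] [IsStrictOrderedRing K]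

omit [LinearOrder K] [IsStrictOrderedRing K] in
theorem sum_shift {g : ℕ → K} {L : ℕ} (h : ∀ i, g (i + L) = g i) (a : ℕ) :
    ∑ t ∈ range (a + L), g t = ∑ t ∈ range a, g t + ∑ t ∈ range L, g t := by
  induction a with
  | zero => simp
  | succ a ih =>
    rw [show a + 1 + L = (a + L) + 1 by omega, sum_range_succ, ih, sum_range_succ _ a, h a]
    ring

/-- A closed walk of positive weight (weights `g` on the positions) such that no chord closes a
shorter walk of positive weight is a taut cycle. -/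
theorem taut_of_min [DecidableEq α] {A : α → α → Prop} {v : ℕ → α} {L : ℕ} (h : CW A v L)
    (g : ℕ → K) (hg : ∀ i, g (i + L) = g i) (hpos : 0 < ∑ t ∈ range L, g t)
    (hex : ∀ a s, s + 1 < L → A (v (a + s)) (v a) → ∑ t ∈ range (s + 1), g (a + t) ≤ 0) :
    (∀ i < L, ∀ j < L, v i = v j → i = j) ∧ Taut A ((range L).image v) := by
  classical
  set P : ℕ → K := fun n => ∑ t ∈ range n, g t with hP
  have hch : ∀ a s, s + 1 < L → A (v (a + s)) (v a) → P (a + s + 1) ≤ P a := by
    intro a s hs hA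
    have h1 := hex a s hs hA
    have h2 : P (a + (s + 1)) = P a + ∑ t ∈ range (s + 1), g (a + t) :=
      sum_range_add _ a (s + 1)
    rw [show a + s + 1 = a + (s + 1) by omega]
    linarith
  have hsh : ∀ a, P (a + L) = P a + P L := fun a => sum_shift hg a
  have hL : 0 < P L := hpos
  have hinj : ∀ i j, i < j → j < L → v i ≠ v j := by
    intro i j hij hj he
    obtain ⟨s, rfl⟩ : ∃ s, j = i + s + 1 := ⟨j - i - 1, by omega⟩
    obtain ⟨r, hr⟩ : ∃ r, L = s + 1 + r + 1 := ⟨L - s - 2, by omega⟩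
    have h1 := hch i s (by omega) (by rw [he]; exact h.2.2 (i + s))
    have h2 := hch (i + s + 1) r (by omega) (by
      have := h.2.2 (i + s + 1 + r)
      rwa [show i + s + 1 + r + 1 = i + L by omega, h.2.1, he] at this)
    rw [show i + s + 1 + r + 1 = i + L by omega, hsh] at h2
    linarith
  have hinj' : ∀ i < L, ∀ j < L, v i = v j → i = j := by
    intro i hi j hj he
    rcases lt_trichotomy i j with hij | hij | hij
    · exact (hinj i j hij hj he).elim
    · exact hij
    · exact (hinj j i hij hi he.symm).elim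
  let lt : ℕ → ℕ → Prop := fun i j =>
    P (i + 1) < P (j + 1) ∨ (P (i + 1) ≤ P (j + 1) ∧ j < i)
  have hkey : ∀ i < L, ∀ j < L, i ≠ j → A (v i) (v (j + 1)) → lt i j := by
    intro i hi j hj hij hA
    rcases lt_or_gt_of_ne hij with hlt | hlt
    · obtain ⟨s, hs⟩ : ∃ s, j + 1 + s = i + L := ⟨i + L - j - 1, by omega⟩
      have h1 := hch (j + 1) s (by omega) (by rw [hs, h.2.1]; exact hA)
      rw [show j + 1 + s + 1 = (i + 1) + L by omega, hsh] at h1
      exact Or.inl (by linarith)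
    · obtain ⟨s, hs⟩ : ∃ s, j + 1 + s = i := ⟨i - j - 1, by omega⟩
      have h1 := hch (j + 1) s (by omega) (by rw [hs]; exact hA)
      rw [hs] at h1
      exact Or.inr ⟨h1, hlt⟩
  refine ⟨hinj', v, L, fun i => ((range L).filter fun t => lt t i).card, h, hinj',
    rfl, fun i hi j hj hij hA => ?_⟩
  have hl := hkey i hi j hj hij hA
  apply card_lt_card
  refine ⟨fun t ht => ?_, fun hsub => ?_⟩
  · rw [mem_filter] at ht ⊢
    refine ⟨ht.1, ?_⟩
    rcases ht.2 with h1 | ⟨h1, h1'⟩ <;> rcases hl with h2 | ⟨h2, h2'⟩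
    · exact Or.inl (by linarith)
    · exact Or.inl (by linarith)
    · exact Or.inl (by linarith)
    · exact Or.inr ⟨by linarith, by omega⟩
  · have := hsub (mem_filter.2 ⟨mem_range.2 hi, hl⟩)
    rcases (mem_filter.1 this).2 with h1 | ⟨_, h1⟩
    · exact lt_irrefl _ h1
    · exact lt_irrefl _ h1

/-- A closed walk of positive weight contains a taut cycle of positive weight. -/
theorem taut_of_pos [DecidableEq α] {A : α → α → Prop} (ψ : α → K) {v : ℕ → α} {L : ℕ}
    (h : CW A v L) (hpos : 0 < ∑ t ∈ range L, ψ (v t)) :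
    ∃ C : Finset α, Taut A C ∧ (∀ e ∈ C, ∃ i, v i = e) ∧ 0 < ∑ e ∈ C, ψ e := by
  classical
  induction L using Nat.strong_induction_on generalizing v with
  | _ L ih =>
  by_cases hex : ∃ a s, s + 1 < L ∧ A (v (a + s)) (v a) ∧
      0 < ∑ t ∈ range (s + 1), ψ (v (a + t))
  · obtain ⟨a, s, hs, hA, hp⟩ := hex
    have hp' : 0 < ∑ t ∈ range (s + 1), ψ (v (a + t % (s + 1))) := by
      rw [sum_congr rfl fun t ht => by rw [Nat.mod_eq_of_lt (mem_range.1 ht)]]
      exact hp
    obtain ⟨C, hC, hin, hCp⟩ := ih (s + 1) hs (h.sub a s hA) hp'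
    refine ⟨C, hC, fun e he => ?_, hCp⟩
    obtain ⟨i, hi⟩ := hin e he
    exact ⟨_, hi⟩
  · push Not at hex
    obtain ⟨hinj, hT⟩ := taut_of_min h (fun t => ψ (v t)) (fun i => by rw [h.2.1]) hpos hex
    refine ⟨_, hT, fun e he => ?_, ?_⟩
    · obtain ⟨i, _, hi⟩ := mem_image.1 he
      exact ⟨i, hi⟩
    · rw [sum_image fun i hi j hj he => hinj i (mem_range.1 hi) j (mem_range.1 hj) he]
      exact hpos

end Graph

section Mat

variable {α : Type} [DecidableEq α]

/-- `B - x + y` is a base (`x` in `B`, `y` outside). -/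
def Sw (M : Matroid α) (B : Finset α) (x y : α) : Prop :=
  x ∈ B ∧ y ∉ B ∧ M.IsBase ((insert y (B.erase x) : Finset α) : Set α)

/-- The arcs of the exchange digraph of `B` with `F` deleted. -/
def Arc (M₁ M₂ : Matroid α) (B F : Finset α) (u v : α) : Prop :=
  u ∉ F ∧ v ∉ F ∧ (Sw M₁ B v u ∨ Sw M₂ B u v)

omit [DecidableEq α] in
theorem base_of_card {M : Matroid α} {B J : Finset α} (hB : M.IsBase (B : Set α))
    (hJ : M.Indep (J : Set α)) (hc : B.card ≤ J.card) : M.IsBase (J : Set α) := by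
  obtain ⟨B', hB', hJB⟩ := hJ.exists_isBase_superset
  have hfin : B'.Finite := hB.finite_of_finite B.finite_toSet hB'
  have h1 := hB'.ncard_eq_ncard_of_isBase hB
  have h2 : (J : Set α) = B' :=
    Set.eq_of_subset_of_ncard_le hJB (by rw [h1]; simpa using hc) hfin
  rwa [h2]

omit [DecidableEq α] in
theorem card_eq_of_base {M : Matroid α} {B B' : Finset α} (hB : M.IsBase (B : Set α))
    (hB' : M.IsBase (B' : Set α)) : B.card = B'.card := by
  simpa using hB.ncard_eq_ncard_of_isBase hB'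

theorem sw_iff {M : Matroid α} (hE : M.E = Set.univ) {B : Finset α} (hB : M.IsBase (B : Set α))
    {x y : α} (hx : x ∈ B) (hy : y ∉ B) :
    Sw M B x y ↔ y ∉ M.closure ((B : Set α) \ {x}) := by
  have he : ((insert y (B.erase x) : Finset α) : Set α) = insert y ((B : Set α) \ {x}) := by
    simp
  unfold Sw
  rw [he]
  constructor
  · rintro ⟨_, _, h⟩
    exact ((hB.indep.sdiff _).notMem_closure_iff (by simp [hE])).2 ⟨h.indep, fun h' => hy h'.1⟩
  · intro h
    exact ⟨hx, hy, hB.exchange_base_of_notMem_closure hx h (by simp [hE])⟩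

/-- Ordered unique-matching lemma. -/
theorem uniq {M : Matroid α} (hE : M.E = Set.univ) {B : Finset α} (hB : M.IsBase (B : Set α))
    {ι β : Type} [LinearOrder β] (I : Finset ι) (x y : ι → α) (key : ι → β)
    (hy : ∀ i ∈ I, ∀ j ∈ I, y i = y j → i = j)
    (h : ∀ i ∈ I, Sw M B (x i) (y i))
    (hch : ∀ i ∈ I, ∀ j ∈ I, i ≠ j → Sw M B (x i) (y j) → key j < key i) :
    M.IsBase (((B \ I.image x) ∪ I.image y : Finset α) : Set α) := by
  classical
  refine base_of_card hB ?_ ?_
  · by_contra hdep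
    have hd : M.Dep (((B \ I.image x) ∪ I.image y : Finset α) : Set α) :=
      Matroid.dep_of_not_indep hdep (by simp [hE])
    obtain ⟨C, hCsub, hC⟩ := hd.exists_isCircuit_subset
    have hne : (I.filter fun i => y i ∈ C).Nonempty := by
      by_contra hem
      refine hC.dep.not_indep (hB.indep.subset fun e he => ?_)
      have h1 := hCsub he
      rw [mem_coe, mem_union] at h1
      rcases h1 with h1 | h1
      · exact (mem_sdiff.1 h1).1
      · obtain ⟨i, hi, rfl⟩ := mem_image.1 h1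
        exact (hem ⟨i, mem_filter.2 ⟨hi, he⟩⟩).elim
    obtain ⟨i, hi, hmin⟩ := exists_min_image _ key hne
    obtain ⟨hiI, hiC⟩ := mem_filter.1 hi
    have hx := (h i hiI).1
    refine (sw_iff hE hB hx (h i hiI).2.1).1 (h i hiI) ?_
    have hsub : C \ {y i} ⊆ M.closure ((B : Set α) \ {x i}) := by
      rintro e ⟨he, hne⟩
      have h1 := hCsub he
      rw [mem_coe, mem_union] at h1
      rcases h1 with h1 | h1
      · refine M.subset_closure _ (by simp [hE]) ⟨(mem_sdiff.1 h1).1, fun h2 => ?_⟩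
        exact (mem_sdiff.1 h1).2 (mem_image.2 ⟨i, hiI, (Set.mem_singleton_iff.1 h2).symm⟩)
      · obtain ⟨j, hj, rfl⟩ := mem_image.1 h1
        by_contra hcl
        have hij : i ≠ j := fun h2 => hne (by rw [h2]; rfl)
        have := hch i hiI j hj hij ((sw_iff hE hB hx (h j hj).2.1).2 hcl)
        exact absurd (hmin j (mem_filter.2 ⟨hj, he⟩)) (not_le.2 this)
    have := M.closure_subset_closure hsub (hC.mem_closure_sdiff_singleton_of_mem hiC)
    rwa [Matroid.closure_closure] at this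
  · have hdis : Disjoint (B \ I.image x) (I.image y) := by
      rw [disjoint_right]
      intro e he he'
      obtain ⟨j, hj, rfl⟩ := mem_image.1 he
      exact (h j hj).2.1 (mem_sdiff.1 he').1
    rw [card_union_of_disjoint hdis, card_image_of_injOn fun i hi j hj he => hy i hi j hj he]
    have h1 := le_card_sdiff (I.image x) B
    have h2 : (I.image x).card ≤ I.card := card_image_le
    omega

open scoped symmDiff in
/-- Exchanging along a taut cycle of the exchange digraph gives a common base containing `F`. -/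
theorem taut_base {M₁ M₂ : Matroid α} (hE₁ : M₁.E = Set.univ) (hE₂ : M₂.E = Set.univ)
    {B F C : Finset α} (h₁ : M₁.IsBase (B : Set α)) (h₂ : M₂.IsBase (B : Set α))
    (hC : Taut (Arc M₁ M₂ B F) C) :
    M₁.IsBase ((B ∆ C : Finset α) : Set α) ∧ M₂.IsBase ((B ∆ C : Finset α) : Set α) ∧
      Disjoint C F := by
  classical
  obtain ⟨u, L, key, hw, hinj, rfl, hch⟩ := hC
  have hF : ∀ i, u i ∉ F := fun i => (hw.2.2 i).1
  have hout : ∀ i, u i ∉ B → Sw M₁ B (u (i + 1)) (u i) := fun i hi =>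
    (hw.2.2 i).2.2.resolve_right fun h => hi h.1
  have hin : ∀ i, u i ∈ B → Sw M₂ B (u i) (u (i + 1)) := fun i hi =>
    (hw.2.2 i).2.2.resolve_left fun h => h.2.1 hi
  have hmem : ∀ t, u t ∈ (range L).image u := fun t =>
    mem_image.2 ⟨t % L, mem_range.2 (Nat.mod_lt t hw.1), hw.mod t⟩
  refine ⟨?_, ?_, ?_⟩
  · have h := uniq hE₁ h₁ ((range L).filter fun i => u i ∉ B) (fun i => u (i + 1)) u key
      (fun i hi j hj he => hinj i (mem_range.1 (mem_filter.1 hi).1) j
        (mem_range.1 (mem_filter.1 hj).1) he)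
      (fun i hi => hout i (mem_filter.1 hi).2)
      (fun i hi j hj hij hs => hch j (mem_range.1 (mem_filter.1 hj).1) i
        (mem_range.1 (mem_filter.1 hi).1) hij.symm ⟨hF _, hF _, Or.inl hs⟩)
    have he : B ∆ (range L).image u =
        (B \ ((range L).filter fun i => u i ∉ B).image fun i => u (i + 1)) ∪
          ((range L).filter fun i => u i ∉ B).image u := by
      ext e
      rw [mem_symmDiff, mem_union, mem_sdiff]
      constructor
      · rintro (⟨hB, hn⟩ | ⟨hc, hB⟩)
        · refine Or.inl ⟨hB, fun h' => hn ?_⟩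
          obtain ⟨i, _, rfl⟩ := mem_image.1 h'
          exact hmem _
        · obtain ⟨i, hi, rfl⟩ := mem_image.1 hc
          exact Or.inr (mem_image.2 ⟨i, mem_filter.2 ⟨hi, hB⟩, rfl⟩)
      · rintro (⟨hB, hn⟩ | hc)
        · refine Or.inl ⟨hB, fun h' => hn ?_⟩
          obtain ⟨t, _, rfl⟩ := mem_image.1 h'
          obtain ⟨i, hi, hit⟩ := hw.pred t
          refine mem_image.2 ⟨i, mem_filter.2 ⟨mem_range.2 hi, fun hiB => ?_⟩, hit⟩
          exact (hin i hiB).2.1 (hit ▸ hB)
        · obtain ⟨i, hi, rfl⟩ := mem_image.1 hc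
          exact Or.inr ⟨hmem _, (mem_filter.1 hi).2⟩
    rw [he]
    exact h
  · have h := uniq hE₂ h₂ ((range L).filter fun i => u i ∈ B) u (fun i => u (i + 1))
      (fun i => OrderDual.toDual (key i))
      (fun i hi j hj he => hw.succ_inj hinj (mem_range.1 (mem_filter.1 hi).1)
        (mem_range.1 (mem_filter.1 hj).1) he)
      (fun i hi => hin i (mem_filter.1 hi).2)
      (fun i hi j hj hij hs => OrderDual.toDual_lt_toDual.2
        (hch i (mem_range.1 (mem_filter.1 hi).1) j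
        (mem_range.1 (mem_filter.1 hj).1) hij ⟨hF _, hF _, Or.inr hs⟩))
    have he : B ∆ (range L).image u =
        (B \ ((range L).filter fun i => u i ∈ B).image u) ∪
          ((range L).filter fun i => u i ∈ B).image fun i => u (i + 1) := by
      ext e
      rw [mem_symmDiff, mem_union, mem_sdiff]
      constructor
      · rintro (⟨hB, hn⟩ | ⟨hc, hB⟩)
        · refine Or.inl ⟨hB, fun h' => hn ?_⟩
          obtain ⟨i, _, rfl⟩ := mem_image.1 h'
          exact hmem _
        · obtain ⟨t, _, rfl⟩ := mem_image.1 hc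
          obtain ⟨i, hi, hit⟩ := hw.pred t
          refine Or.inr (mem_image.2 ⟨i, mem_filter.2 ⟨mem_range.2 hi, ?_⟩, hit⟩)
          by_contra hiB
          exact hB (hit ▸ (hout i hiB).1)
      · rintro (⟨hB, hn⟩ | hc)
        · refine Or.inl ⟨hB, fun h' => hn ?_⟩
          obtain ⟨t, ht, rfl⟩ := mem_image.1 h'
          exact mem_image.2 ⟨t, mem_filter.2 ⟨ht, hB⟩, rfl⟩
        · obtain ⟨i, hi, rfl⟩ := mem_image.1 hc
          exact Or.inr ⟨hmem _, (hin i (mem_filter.1 hi).2).2.1⟩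
    rw [he]
    exact h
  · rw [disjoint_left]
    intro e he
    obtain ⟨i, _, rfl⟩ := mem_image.1 he
    exact hF i

/-- Bijective exchange: every element of `B' - B` is matched with a swap partner in `B - B'`. -/
theorem brualdi {M : Matroid α} (hE : M.E = Set.univ) {B B' : Finset α}
    (hB : M.IsBase (B : Set α)) (hB' : M.IsBase (B' : Set α)) :
    ∃ f : α → α, Set.BijOn f ((B' \ B : Finset α) : Set α) ((B \ B' : Finset α) : Set α) ∧
      ∀ y ∈ B' \ B, Sw M B (f y) y := by
  classical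
  let t : (B' \ B : Finset α) → Finset α := fun y => (B \ B').filter fun x => Sw M B x y
  have hall : ∀ s : Finset (B' \ B : Finset α), s.card ≤ (s.biUnion t).card := by
    intro s
    set N := s.biUnion t with hN
    set T : Finset α := s.image Subtype.val with hT
    have hTc : T.card = s.card := card_image_of_injective _ Subtype.val_injective
    have hNsub : N ⊆ B \ B' := fun x hx => by
      obtain ⟨y, _, hy⟩ := mem_biUnion.1 hx
      exact (mem_filter.1 hy).1
    have hsubB : (((B ∩ B') ∪ N : Finset α) : Set α) ⊆ B := by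
      intro e he
      rcases mem_union.1 (mem_coe.1 he) with h | h
      · exact (mem_inter.1 h).1
      · exact (mem_sdiff.1 (hNsub h)).1
    have hcl : (((B ∩ B') ∪ T : Finset α) : Set α) ⊆
        M.closure (((B ∩ B') ∪ N : Finset α) : Set α) := by
      intro e he
      rcases mem_union.1 (mem_coe.1 he) with h | h
      · exact M.subset_closure _ (by simp [hE]) (mem_coe.2 (mem_union_left _ h))
      · obtain ⟨y, hy, rfl⟩ := mem_image.1 h
        have hyB : (y : α) ∉ B := (mem_sdiff.1 y.2).2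
        have hyc : (y : α) ∈ M.closure (B : Set α) := by rw [hB.closure_eq, hE]; trivial
        have hC := hB.indep.fundCircuit_isCircuit hyc hyB
        refine M.closure_subset_closure ?_
          (hC.mem_closure_sdiff_singleton_of_mem (M.mem_fundCircuit _ _))
        rintro x ⟨hx, hxy⟩
        have hxB : x ∈ B := (M.fundCircuit_subset_insert _ _ hx).resolve_left hxy
        have hi := (hB.indep.mem_fundCircuit_iff hyc hyB).1 hx
        have hb := hB.exchange_isBase_of_indep' hxB hyB hi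
        have hsw : Sw M B x y := by
          refine ⟨hxB, hyB, ?_⟩
          have he : ((insert (y : α) (B.erase x) : Finset α) : Set α) =
              insert (y : α) (B : Set α) \ {x} := by
            rw [← Set.insert_sdiff_singleton_comm (fun h => hxy (Eq.symm h))]
            simp
          rw [he]
          exact hb
        by_cases hx' : x ∈ B'
        · exact mem_coe.2 (mem_union_left _ (mem_inter.2 ⟨hxB, hx'⟩))
        · exact mem_coe.2 (mem_union_right _
            (mem_biUnion.2 ⟨y, hy, mem_filter.2 ⟨mem_sdiff.2 ⟨hxB, hx'⟩, hsw⟩⟩))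
    have hind : M.Indep (((B ∩ B') ∪ T : Finset α) : Set α) := by
      refine hB'.indep.subset fun e he => ?_
      rcases mem_union.1 (mem_coe.1 he) with h | h
      · exact (mem_inter.1 h).2
      · obtain ⟨y, _, rfl⟩ := mem_image.1 h
        exact (mem_sdiff.1 y.2).1
    have h1 := hind.encard_le_eRk_of_subset hcl
    rw [Matroid.eRk_closure_eq] at h1
    have h2 := h1.trans (M.eRk_le_encard _)
    rw [Set.encard_coe_eq_coe_finsetCard, Set.encard_coe_eq_coe_finsetCard, Nat.cast_le] at h2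
    have hd1 : Disjoint (B ∩ B') T := by
      rw [disjoint_right]
      intro e he he'
      obtain ⟨y, _, rfl⟩ := mem_image.1 he
      exact (mem_sdiff.1 y.2).2 (mem_inter.1 he').1
    rw [card_union_of_disjoint hd1] at h2
    have h3 := card_union_le (B ∩ B') N
    omega
  obtain ⟨g, hg, hgt⟩ := (all_card_le_biUnion_card_iff_exists_injective t).1 hall
  let f : α → α := fun y => if h : y ∈ B' \ B then g ⟨y, h⟩ else y
  have hf : ∀ y (h : y ∈ B' \ B), f y = g ⟨y, h⟩ := fun y h => dif_pos h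
  have hmap : Set.MapsTo f ((B' \ B : Finset α) : Set α) ((B \ B' : Finset α) : Set α) := by
    intro y hy
    rw [hf y hy]
    exact (mem_filter.1 (hgt ⟨y, hy⟩)).1
  have hinj : Set.InjOn f ((B' \ B : Finset α) : Set α) := by
    intro y hy z hz he
    rw [hf y hy, hf z hz] at he
    exact congrArg Subtype.val (hg he)
  refine ⟨f, ⟨hmap, hinj, surjOn_of_injOn_of_card_le f hmap hinj ?_⟩, fun y hy => ?_⟩
  · exact (card_sdiff_comm (card_eq_of_base hB hB')).le
  · rw [hf y hy]
    exact (mem_filter.1 (hgt ⟨y, hy⟩)).2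

open scoped symmDiff in
/-- The symmetric difference of two common bases containing `F` is permuted by arcs. -/
theorem exists_perm [Fintype α] {M₁ M₂ : Matroid α} (hE₁ : M₁.E = Set.univ)
    (hE₂ : M₂.E = Set.univ) {B B' F : Finset α}
    (h₁ : M₁.IsBase (B : Set α)) (h₂ : M₂.IsBase (B : Set α))
    (h₁' : M₁.IsBase (B' : Set α)) (h₂' : M₂.IsBase (B' : Set α))
    (hF : F ⊆ B) (hF' : F ⊆ B') :
    ∃ π : Equiv.Perm α, (∀ v, v ∉ B ∆ B' → π v = v) ∧
      ∀ v ∈ B ∆ B', π v ∈ B ∆ B' ∧ Arc M₁ M₂ B F v (π v) := by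
  classical
  obtain ⟨f₁, hb₁, hs₁⟩ := brualdi hE₁ h₁ h₁'
  obtain ⟨f₂, hb₂, hs₂⟩ := brualdi hE₂ h₂ h₂'
  have hsur : ∀ x : α, ∃ y, x ∈ B \ B' → y ∈ B' \ B ∧ f₂ y = x := by
    intro x
    by_cases hx : x ∈ B \ B'
    · obtain ⟨y, hy, hyx⟩ := hb₂.surjOn (mem_coe.2 hx)
      exact ⟨y, fun _ => ⟨hy, hyx⟩⟩
    · exact ⟨x, fun h => (hx h).elim⟩
  choose g hg using hsur
  let p : α → α := fun v => if v ∈ B' \ B then f₁ v else if v ∈ B \ B' then g v else v
  have hp₁ : ∀ v ∈ B' \ B, p v = f₁ v := fun v hv => if_pos hv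
  have hp₂ : ∀ v ∈ B \ B', p v = g v := fun v hv => by
    have : v ∉ B' \ B := fun h => (mem_sdiff.1 h).2 (mem_sdiff.1 hv).1
    simp only [p, if_neg this, if_pos hv]
  have hp₃ : ∀ v, v ∉ B' \ B → v ∉ B \ B' → p v = v := fun v h h' => by
    simp only [p, if_neg h, if_neg h']
  have hsurj : Function.Surjective p := by
    intro z
    by_cases hz : z ∈ B \ B'
    · obtain ⟨y, hy, hyz⟩ := hb₁.surjOn (mem_coe.2 hz)
      exact ⟨y, (hp₁ y hy).trans hyz⟩
    · by_cases hz' : z ∈ B' \ B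
      · have h1 : f₂ z ∈ B \ B' := hb₂.mapsTo (mem_coe.2 hz')
        refine ⟨f₂ z, (hp₂ _ h1).trans ?_⟩
        exact hb₂.injOn (mem_coe.2 (hg _ h1).1) (mem_coe.2 hz') (hg _ h1).2
      · exact ⟨z, hp₃ z hz' hz⟩
  have hnF : ∀ v, v ∈ B \ B' ∨ v ∈ B' \ B → v ∉ F := by
    rintro v (h | h) hv
    · exact (mem_sdiff.1 h).2 (hF' hv)
    · exact (mem_sdiff.1 h).2 (hF hv)
  have hsd : ∀ v, v ∈ B ∆ B' ↔ v ∈ B \ B' ∨ v ∈ B' \ B := fun v => by
    rw [mem_symmDiff, mem_sdiff, mem_sdiff]
  refine ⟨Equiv.ofBijective p (Finite.surjective_iff_bijective.1 hsurj), fun v hv => ?_,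
    fun v hv => ?_⟩
  · rw [hsd, not_or] at hv
    exact hp₃ v hv.2 hv.1
  · change p v ∈ B ∆ B' ∧ Arc M₁ M₂ B F v (p v)
    rcases (hsd v).1 hv with h | h
    · rw [hp₂ v h]
      refine ⟨(hsd _).2 (Or.inr (hg v h).1), hnF v (Or.inl h), hnF _ (Or.inr (hg v h).1),
        Or.inr ?_⟩
      have := hs₂ _ (hg v h).1
      rwa [(hg v h).2] at this
    · rw [hp₁ v h]
      have h1 : f₁ v ∈ B \ B' := hb₁.mapsTo (mem_coe.2 h)
      exact ⟨(hsd _).2 (Or.inl h1), hnF v (Or.inr h), hnF _ (Or.inl h1), Or.inl (hs₁ v h)⟩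

omit [DecidableEq α] in
/-- The orbit of a point under a permutation that moves along arcs is a simple closed walk. -/
theorem orbit_cw [Fintype α] {A : α → α → Prop} {S : Finset α} (π : Equiv.Perm α)
    (h : ∀ v ∈ S, π v ∈ S ∧ A v (π v)) {x : α} (hx : x ∈ S) :
    CW A (fun i => π^[i] x) (Function.minimalPeriod π x) ∧
      (∀ i < Function.minimalPeriod π x, ∀ j < Function.minimalPeriod π x,
        π^[i] x = π^[j] x → i = j) ∧ ∀ i, π^[i] x ∈ S := by
  have hS : ∀ i, π^[i] x ∈ S := by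
    intro i
    induction i with
    | zero => exact hx
    | succ i ih => rw [Function.iterate_succ_apply']; exact (h _ ih).1
  refine ⟨⟨?_, fun i => ?_, fun i => ?_⟩, fun i hi j hj he => ?_, hS⟩
  · exact Function.minimalPeriod_pos_of_mem_periodicPts
      (π.injective.mem_periodicPts x)
  · exact Function.iterate_add_minimalPeriod_eq
  · simp only [Function.iterate_succ_apply']
    exact (h _ (hS i)).2
  · exact Function.iterate_injOn_Iio_minimalPeriod hi hj he

/-- `Z` is closed for `F`. -/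
def Closed (M₁ M₂ : Matroid α) (F Z : Finset α) : Prop :=
  ∀ B₁ B₂ : Finset α, M₁.IsBase (B₁ : Set α) → M₂.IsBase (B₂ : Set α) → F ⊆ B₁ → F ⊆ B₂ →
    (B₁ ∩ Z).card ≤ (B₂ ∩ Z).card

theorem Closed.mono {M₁ M₂ : Matroid α} {F F' Z : Finset α} (h : Closed M₁ M₂ F Z)
    (hF : F ⊆ F') : Closed M₁ M₂ F' Z :=
  fun B₁ B₂ h₁ h₂ a b => h B₁ B₂ h₁ h₂ (hF.trans a) (hF.trans b)

theorem card_inter_le {B B' Z : Finset α} {f : α → α}
    (hm : Set.MapsTo f ((B' \ B : Finset α) : Set α) ((B \ B' : Finset α) : Set α))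
    (hi : Set.InjOn f ((B' \ B : Finset α) : Set α))
    (hZ : ∀ y ∈ B' \ B, y ∈ Z → f y ∈ Z) : (B' ∩ Z).card ≤ (B ∩ Z).card := by
  have h1 : ((B' \ B) ∩ Z).card ≤ ((B \ B') ∩ Z).card := by
    refine card_le_card_of_injOn f (fun y hy => ?_) (fun y hy z hz he => ?_)
    · have hy' := mem_inter.1 (mem_coe.1 hy)
      exact mem_coe.2 (mem_inter.2 ⟨hm (mem_coe.2 hy'.1), hZ y hy'.1 hy'.2⟩)
    · exact hi (mem_coe.2 (mem_inter.1 (mem_coe.1 hy)).1)
        (mem_coe.2 (mem_inter.1 (mem_coe.1 hz)).1) he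
  have h2 := card_sdiff_add_card_inter (B' ∩ Z) B
  have h3 := card_sdiff_add_card_inter (B ∩ Z) B'
  have e1 : (B' ∩ Z) \ B = (B' \ B) ∩ Z := by ext; simp; tauto
  have e2 : (B ∩ Z) \ B' = (B \ B') ∩ Z := by ext; simp; tauto
  have e3 : B' ∩ Z ∩ B = B ∩ Z ∩ B' := by ext; simp; tauto
  rw [e1, e3] at h2
  rw [e2] at h3
  omega

/-- Seen from a common base containing `F`, closed means that no arc leaves. -/
theorem closed_iff {M₁ M₂ : Matroid α} (hE₁ : M₁.E = Set.univ) (hE₂ : M₂.E = Set.univ)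
    {B F Z : Finset α} (h₁ : M₁.IsBase (B : Set α)) (h₂ : M₂.IsBase (B : Set α)) (hF : F ⊆ B) :
    Closed M₁ M₂ F Z ↔ ∀ u v, Arc M₁ M₂ B F u v → u ∈ Z → v ∈ Z := by
  constructor
  · intro h u v ⟨hu, hv, hs⟩ huZ
    by_contra hvZ
    rcases hs with hs | hs
    · have h1 := h _ B hs.2.2 h₂
        (fun e he => mem_insert_of_mem (mem_erase.2 ⟨fun h' => hv (h' ▸ he), hF he⟩)) hF
      have e1 : insert u (B.erase v) ∩ Z = insert u (B ∩ Z) := by
        ext e
        simp only [mem_inter, mem_insert, mem_erase]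
        constructor
        · rintro ⟨h' | h', h''⟩
          · exact Or.inl h'
          · exact Or.inr ⟨h'.2, h''⟩
        · rintro (h' | h')
          · exact ⟨Or.inl h', h' ▸ huZ⟩
          · exact ⟨Or.inr ⟨fun h'' => hvZ (h'' ▸ h'.2), h'.1⟩, h'.2⟩
      rw [e1, card_insert_of_notMem fun h' => hs.2.1 (mem_inter.1 h').1] at h1
      omega
    · have h1 := h B _ h₁ hs.2.2 hF
        (fun e he => mem_insert_of_mem (mem_erase.2 ⟨fun h' => hu (h' ▸ he), hF he⟩))
      have e1 : insert v (B.erase u) ∩ Z = (B ∩ Z).erase u := by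
        ext e
        simp only [mem_inter, mem_insert, mem_erase]
        constructor
        · rintro ⟨h' | h', h''⟩
          · exact (hvZ (h' ▸ h'')).elim
          · exact ⟨h'.1, h'.2, h''⟩
        · rintro ⟨h', h'', h3⟩
          exact ⟨Or.inr ⟨h', h''⟩, h3⟩
      have h2 := card_erase_lt_of_mem (mem_inter.2 ⟨hs.1, huZ⟩)
      rw [e1] at h1
      omega
  · intro h B₁ B₂ hb₁ hb₂ hF₁ hF₂
    obtain ⟨f₁, hf₁, hs₁⟩ := brualdi hE₁ h₁ hb₁
    obtain ⟨f₂, hf₂, hs₂⟩ := brualdi hE₂ h₂ hb₂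
    have a1 : (B₁ ∩ Z).card ≤ (B ∩ Z).card := by
      refine card_inter_le hf₁.mapsTo hf₁.injOn fun y hy hZ => h y _ ⟨?_, ?_, Or.inl (hs₁ y hy)⟩ hZ
      · exact fun h' => (mem_sdiff.1 hy).2 (hF h')
      · exact fun h' => (mem_sdiff.1 (mem_coe.1 (hf₁.mapsTo (mem_coe.2 hy)))).2 (hF₁ h')
    have hsur : ∀ x : α, ∃ y, x ∈ B \ B₂ → y ∈ B₂ \ B ∧ f₂ y = x := by
      intro x
      by_cases hx : x ∈ B \ B₂
      · obtain ⟨y, hy, hyx⟩ := hf₂.surjOn (mem_coe.2 hx)
        exact ⟨y, fun _ => ⟨hy, hyx⟩⟩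
      · exact ⟨x, fun h => (hx h).elim⟩
    choose g hg using hsur
    have a2 : (B ∩ Z).card ≤ (B₂ ∩ Z).card := by
      refine card_inter_le (f := g) (fun x hx => mem_coe.2 (hg x hx).1)
        (fun x hx z hz he => ?_) fun x hx hZ => h x _ ⟨?_, ?_, Or.inr ?_⟩ hZ
      · rw [← (hg x hx).2, he, (hg z hz).2]
      · exact fun h' => (mem_sdiff.1 hx).2 (hF₂ h')
      · exact fun h' => (mem_sdiff.1 (hg x hx).1).2 (hF h')
      · have := hs₂ _ (hg x hx).1
        rwa [(hg x hx).2] at this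
    exact a1.trans a2

open scoped symmDiff in
/-- L1: a closed walk of positive weight gives a common base containing `F`. -/
theorem L1 {K : Type} [Field K] [LinearOrder K] [IsStrictOrderedRing K]
    {M₁ M₂ : Matroid α} (hE₁ : M₁.E = Set.univ) (hE₂ : M₂.E = Set.univ)
    {B F : Finset α} (h₁ : M₁.IsBase (B : Set α)) (h₂ : M₂.IsBase (B : Set α)) (hF : F ⊆ B)
    (ψ : α → K) {v : ℕ → α} {L : ℕ} (h : CW (Arc M₁ M₂ B F) v L)
    (hpos : 0 < ∑ t ∈ range L, ψ (v t)) :
    ∃ C : Finset α, Taut (Arc M₁ M₂ B F) C ∧ (∀ e ∈ C, ∃ i, v i = e) ∧ 0 < ∑ e ∈ C, ψ e ∧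
      M₁.IsBase ((B ∆ C : Finset α) : Set α) ∧ M₂.IsBase ((B ∆ C : Finset α) : Set α) ∧
      Disjoint C F ∧ F ⊆ B ∆ C := by
  obtain ⟨C, hC, hin, hp⟩ := taut_of_pos ψ h hpos
  obtain ⟨a, b, c⟩ := taut_base hE₁ hE₂ h₁ h₂ hC
  refine ⟨C, hC, hin, hp, a, b, c, fun e he => ?_⟩
  exact mem_symmDiff.2 (Or.inl ⟨hF he, fun h' => disjoint_left.1 c h' he⟩)

end Mat

end Pool.Agent.Lib.MP_1bbcfd_lc.PT.Kit
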