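import Pool.Agent.Lib.MP_1bbcfd_lc.PT.Defs

/-! Closure properties of functions computed by boundedly many oracle calls. -/

namespace Pool.Agent.Lib.MP_1bbcfd_lc.PT

open Finset

variable {Q γ γ' : Type}

theorem Comp.const (t : ℕ) (c : γ) : Comp t (fun _ : Q → Bool => c) := by
  cases t with
  | zero => exact ⟨c, fun _ => rfl⟩
  | succ t => exact Or.inl ⟨c, fun _ => rfl⟩

theorem Comp.succ {s : ℕ} {f : (Q → Bool) → γ} (h : Comp s f) : Comp (s + 1) f := by
  induction s generalizing f with
  | zero => exact Or.inl h
  | succ s ih =>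
    exact h.imp id fun ⟨q, f₀, f₁, h₀, h₁, e⟩ => ⟨q, f₀, f₁, ih h₀, ih h₁, e⟩

theorem Comp.mono {s t : ℕ} {f : (Q → Bool) → γ} (h : Comp s f) (hst : s ≤ t) : Comp t f := by
  induction hst with
  | refl => exact h
  | step _ ih => exact ih.succ

theorem Comp.bind {s t : ℕ} {f : (Q → Bool) → γ} {g : γ → (Q → Bool) → γ'} (hf : Comp s f)
    (hg : ∀ c, Comp t (g c)) : Comp (s + t) (fun O => g (f O) O) := by
  have key : ∀ {s : ℕ} {f : (Q → Bool) → γ} {c : γ}, (∀ O, f O = c) →
      Comp (s + t) (fun O => g (f O) O) := fun {s f c} h => by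
    simp only [h]
    exact (hg c).mono (Nat.le_add_left t s)
  induction s generalizing f with
  | zero => exact key hf.choose_spec
  | succ s ih =>
    rcases hf with ⟨c, h⟩ | ⟨q, f₀, f₁, h₀, h₁, h⟩
    · exact key h
    · rw [Nat.add_right_comm]
      refine Or.inr ⟨q, _, _, ih h₀, ih h₁, fun O => ?_⟩
      simp only [h O]
      split_ifs <;> rfl

theorem Comp.map {s : ℕ} {f : (Q → Bool) → γ} (hf : Comp s f) (g : γ → γ') :
    Comp s (fun O => g (f O)) :=
  hf.bind (t := 0) (g := fun c _ => g c) fun c => Comp.const 0 (g c)

/-- a function that depends only on the answers on `L` -/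
theorem Comp.of_dep (L : Finset Q) (f : (Q → Bool) → γ)
    (h : ∀ O O', (∀ q ∈ L, O q = O' q) → f O = f O') : Comp (#L) f := by
  classical
  induction L using Finset.induction generalizing f with
  | empty => exact ⟨f fun _ => true, fun O => h _ _ (by simp)⟩
  | insert q L hq ih =>
    have key : ∀ b, Comp (#L) fun O => f (Function.update O q b) := fun b =>
      ih _ fun O O' e => h _ _ fun x hx => by
        by_cases hx' : x = q
        · simp [hx']
        · simp [hx', e x ((mem_insert.1 hx).resolve_left hx')]
    rw [card_insert_of_notMem hq]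
    refine Or.inr ⟨q, _, _, key false, key true, fun O => ?_⟩
    split_ifs with e
    · rw [← e, Function.update_eq_self]
    · rw [← Bool.eq_false_iff.2 e, Function.update_eq_self]

theorem Comp.iter {t : ℕ} {st : γ → (Q → Bool) → γ} (h : ∀ c, Comp t (st c)) (c : γ) (n : ℕ) :
    Comp (n * t) (fun O => (fun c => st c O)^[n] c) := by
  induction n with
  | zero => exact Comp.const _ c
  | succ n ih =>
    simp only [Function.iterate_succ_apply', Nat.succ_mul]
    exact ih.bind h

theorem Comp.pi {ι : Type} [Fintype ι] {t : ℕ} {f : ι → (Q → Bool) → γ} (h : ∀ i, Comp t (f i)) :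
    Comp (Fintype.card ι * t) (fun O i => f i O) := by
  classical
  have key : ∀ s : Finset ι,
      Comp (#s * t) (fun O i => if i ∈ s then f i O else f i fun _ => true) := by
    intro s
    induction s using Finset.induction with
    | empty => simpa using Comp.const 0 _
    | insert a s ha ih =>
      have e : (fun O i => if i ∈ insert a s then f i O else f i fun _ => true) = fun O =>
          Function.update (fun i => if i ∈ s then f i O else f i fun _ => true) a (f a O) := by
        funext O i
        by_cases hi : i = a <;> simp [hi]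
      rw [e, card_insert_of_notMem ha, Nat.succ_mul]
      exact ih.bind fun c => (h a).map fun x => Function.update c a x
  simpa using key univ

theorem run_shift {α : Type} {σ τ : Procedure α} (b : Bool) (h : ∀ l, σ (l ++ [b]) = τ l)
    (O : Bool × Finset α → Bool) (t : ℕ) (l : List Bool) :
    run σ O t (l ++ [b]) = run τ O t l := by
  induction t generalizing l with
  | zero => rw [run, run, h]
  | succ t ih =>
    rw [run, run, h]
    cases τ l with
    | inl q => exact ih (O q :: l)
    | inr X => rfl

/-- generalise over the list of earlier answers; `run` from `h` reads `σ` only on lists that end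
with `h` -/
theorem Comp.proc {α : Type} {t : ℕ} {f : (Bool × Finset α → Bool) → Finset α} (h : Comp t f) :
    ∃ σ : Procedure α, ∀ O, run σ O t [] = some (f O) := by
  induction t generalizing f with
  | zero =>
    obtain ⟨c, h⟩ := h
    exact ⟨fun _ => Sum.inr c, fun O => by rw [h]; rfl⟩
  | succ t ih =>
    rcases h with ⟨c, h⟩ | ⟨q, f₀, f₁, h₀, h₁, h⟩
    · exact ⟨fun _ => Sum.inr c, fun O => by rw [h]; rfl⟩
    · obtain ⟨σ₀, e₀⟩ := ih h₀
      obtain ⟨σ₁, e₁⟩ := ih h₁
      refine ⟨fun l => l.getLast?.elim (Sum.inl q) fun b =>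
        if b = true then σ₁ l.dropLast else σ₀ l.dropLast, fun O => ?_⟩
      rw [h O]
      split_ifs with e
      · exact (run_shift (O q) (fun l => by simp [e]) O t []).trans (e₁ O)
      · exact (run_shift (O q) (fun l => by simp [e]) O t []).trans (e₀ O)

end Pool.Agent.Lib.MP_1bbcfd_lc.PT
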