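import Pool.Agent.Lib.MP_1bbcfd_lc.PT.Walk
import Pool.Agent.Lib.MP_1bbcfd_lc.PT.Tree
import Pool.Agent.Lib.MP_be0860_lc.Core

/-! Linear optimisation over common bases and the first common base. -/

namespace Pool.Agent.Lib.MP_1bbcfd_lc.PT

open Finset
open scoped symmDiff

variable {α β : Type} [DecidableEq α] [Fintype α] [DecidableEq β] [Fintype β]

/-- The exchange relation read from the oracle through the translation `τ`. -/
def rd (O : Bool × Finset α → Bool) (τ : Finset β → Finset α) (i : Bool) (B : Finset β)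
    (y x : β) : Prop := x ∈ B ∧ y ∉ B ∧ O (i, τ (insert y (B.erase x))) = true

/-- Moves certified by the answers of the oracle. -/
def MvO (O : Bool × Finset α → Bool) (τ : Finset β → Finset α) (B B' : Finset β) : Prop :=
  Cert (rd O τ true B) B B' ∧ Cert (rd O τ false B) B B'

/-- The oracle answers the independence tests for sets of size `r`. -/
def Ans (O : Bool × Finset α → Bool) (τ : Finset β → Finset α) (P : Two β) (r : ℕ) : Prop :=
  ∀ J : Finset β, #J = r → (O (true, τ J) = true ↔ P.M₁.Indep (J : Set β)) ∧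
    (O (false, τ J) = true ↔ P.M₂.Indep (J : Set β))

omit [DecidableEq α] [Fintype α] [Fintype β] in
theorem mvO_iff {O : Bool × Finset α → Bool} {τ : Finset β → Finset α} {P : Two β}
    {B : Finset β} (h : Ans O τ P #B) (B' : Finset β) : MvO O τ B B' ↔ P.Mv B B' := by
  have key : ∀ y x, x ∈ B → y ∉ B → #(insert y (B.erase x)) = #B := by
    intro y x hx hy
    rw [card_insert_of_notMem fun a => hy (mem_of_mem_erase a), card_erase_add_one hx]
  have e₁ : rd O τ true B = Sw P.M₁ B := by
    funext y x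
    exact propext (and_congr_right fun hx => and_congr_right fun hy => (h _ (key y x hx hy)).1)
  have e₂ : rd O τ false B = Sw P.M₂ B := by
    funext y x
    exact propext (and_congr_right fun hx => and_congr_right fun hy => (h _ (key y x hx hy)).2)
  rw [MvO, e₁, e₂]
  rfl

omit [Fintype α] in
/-- any function of the certified moves from `B` costs at most `2 n ^ 2` calls -/
theorem comp_mvO {γ : Type} (τ : Finset β → Finset α) (B : Finset β)
    (f : (Finset β → Prop) → γ) :
    Comp (2 * Fintype.card β ^ 2) (fun O : Bool × Finset α → Bool => f (MvO O τ B)) := by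
  classical
  let q : Bool × β × β → Bool × Finset α := fun p => (p.1, τ (insert p.2.1 (B.erase p.2.2)))
  refine (Comp.of_dep (univ.image q) _ fun O O' h => ?_).mono ?_
  · have e : ∀ i, rd O τ i B = rd O' τ i B := by
      intro i
      funext y x
      have := h (q (i, y, x)) (mem_image_of_mem q (mem_univ _))
      simp only [q] at this
      simp only [rd, this]
    have : MvO O τ B = MvO O' τ B := by
      funext B'
      simp only [MvO, e]
    rw [this]
  · refine card_image_le.trans ?_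
    simp [sq]

omit [DecidableEq α] in
theorem ans_oracle (P : Two α) (r : ℕ) : Ans (oracle P.M₁ P.M₂) id P r := by
  intro J _
  simp [oracle]

/-- a local optimum is a global optimum (`exists_perm`, `sum_nonpos_of_orbits`, `exists_mv`) -/
theorem Two.exists_better (P : Two β) {B B' : Finset β} (h : P.CB B) (h' : P.CB B') (ψ : β → ℝ)
    (hlt : ∑ e ∈ B, ψ e < ∑ e ∈ B', ψ e) :
    ∃ B'', P.Mv B B'' ∧ ∑ e ∈ B, ψ e < ∑ e ∈ B'', ψ e := by
  obtain ⟨σ, hσ, hfix⟩ := P.exists_perm h h'
  let φ : β → ℝ := fun v => if v ∈ B then -ψ v else ψ v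
  have hsum : ∀ C : Finset β, ∑ e ∈ B ∆ C, ψ e = ∑ e ∈ B, ψ e + ∑ e ∈ C, φ e := by
    intro C
    have e : ∀ (T : Finset β) (g : β → ℝ), ∑ e ∈ T, g e = ∑ e, if e ∈ T then g e else 0 := by
      intro T g
      rw [← sum_filter]
      simp
    rw [e (B ∆ C), e B, e C, ← sum_add_distrib]
    refine sum_congr rfl fun v _ => ?_
    by_cases a : v ∈ B <;> by_cases b : v ∈ C <;> simp [φ, mem_symmDiff, a, b]
  have hpos : 0 < ∑ v, if v ∈ B ∆ B' then φ v else 0 := by
    have e := hsum (B ∆ B')
    rw [symmDiff_symmDiff_cancel_left] at e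
    rw [← sum_filter]
    simp only [subset_univ, filter_mem_eq_of_subset]
    linarith
  obtain ⟨x, hx⟩ : ∃ x, 0 < ∑ i ∈ range (Function.minimalPeriod σ x),
      if σ^[i] x ∈ B ∆ B' then φ (σ^[i] x) else 0 := by
    by_contra hn
    push Not at hn
    exact absurd (MP_be0860_lc.sum_nonpos_of_orbits σ
      (fun v => if v ∈ B ∆ B' then φ v else 0) hn) (not_le.2 hpos)
  have hxm : x ∈ B ∆ B' := by
    by_contra hn
    have e : ∀ i, σ^[i] x = x := fun i => Function.iterate_fixed (hfix x hn) i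
    simp [e, hn] at hx
  have hin : ∀ i, σ^[i] x ∈ B ∆ B' := by
    intro i
    induction i with
    | zero => exact hxm
    | succ i ih =>
      rw [Function.iterate_succ_apply']
      exact (hσ _ ih).1
  simp only [hin, if_true] at hx
  have w := wk_seg (D := P.D B (B ∩ B')) (fun i => σ^[i] x) 0 (Function.minimalPeriod σ x)
    fun i _ => by
      simp only [zero_add, Function.iterate_succ_apply']
      exact (hσ _ (hin i)).2
  simp only [zero_add, Function.iterate_minimalPeriod, Function.iterate_zero, id] at w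
  obtain ⟨C, _, hC, hM⟩ := P.exists_mv inter_subset_left φ w (by
    rw [sum_seg]
    simpa using hx)
  exact ⟨B ∆ C, hM, by rw [hsum]; linarith⟩

omit [Fintype α] in
/-- maximise the number of elements in `S` by `n + 1` improving moves -/
theorem comp_lin (τ : Finset β → Finset α) (S B₀ : Finset β) :
    ∃ f : (Bool × Finset α → Bool) → Finset β,
      Comp ((Fintype.card β + 1) * (2 * Fintype.card β ^ 2)) f ∧
      ∀ O (P : Two β), Ans O τ P #B₀ → P.CB B₀ →
        P.CB (f O) ∧ ∀ B', P.CB B' → #(B' ∩ S) ≤ #(f O ∩ S) := by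
  classical
  let nx : Finset β → (Finset β → Prop) → Finset β := fun c R =>
    if h : ∃ B'', R B'' ∧ #(c ∩ S) < #(B'' ∩ S) then h.choose else c
  let st : Finset β → (Bool × Finset α → Bool) → Finset β := fun c O => nx c (MvO O τ c)
  refine ⟨fun O => (fun c => st c O)^[Fintype.card β + 1] B₀,
    Comp.iter (fun c => comp_mvO τ c (nx c)) B₀ _, fun O P hA h₀ => ?_⟩
  have hs : ∀ T : Finset β, ∑ e ∈ T, (if e ∈ S then (1 : ℝ) else 0) = #(T ∩ S) := by
    intro T
    rw [← sum_filter, filter_mem_eq_inter]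
    simp
  have key : ∀ k, P.CB ((fun c => st c O)^[k] B₀) ∧
      ((∀ B', P.CB B' → #(B' ∩ S) ≤ #((fun c => st c O)^[k] B₀ ∩ S)) ∨
        k ≤ #((fun c => st c O)^[k] B₀ ∩ S)) := by
    intro k
    induction k with
    | zero => exact ⟨h₀, Or.inr (Nat.zero_le _)⟩
    | succ k ih =>
      rw [Function.iterate_succ_apply']
      generalize (fun c => st c O)^[k] B₀ = c at ih
      obtain ⟨hc, ih⟩ := ih
      have hA' : Ans O τ P #c := by rwa [card_eq hc.1 h₀.1]
      by_cases hex : ∃ B'', MvO O τ c B'' ∧ #(c ∩ S) < #(B'' ∩ S)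
      · have e : st c O = hex.choose := dif_pos hex
        have hb : P.CB hex.choose := ((mvO_iff hA' _).1 hex.choose_spec.1).cb hc
        have hl := hex.choose_spec.2
        rw [e]
        refine ⟨hb, Or.inr ?_⟩
        rcases ih with ih | ih
        · exact absurd (ih _ hb) (not_le.2 hl)
        · omega
      · have e : st c O = c := dif_neg hex
        rw [e]
        refine ⟨hc, Or.inl fun B' hB' => ?_⟩
        by_contra hn
        obtain ⟨B'', hM, hl⟩ := P.exists_better hc hB' (fun e => if e ∈ S then (1 : ℝ) else 0)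
          (by rw [hs, hs]; exact_mod_cast not_le.1 hn)
        rw [hs, hs] at hl
        exact hex ⟨B'', (mvO_iff hA' _).2 hM, by exact_mod_cast hl⟩
  obtain ⟨a, b⟩ := key (Fintype.card β + 1)
  refine ⟨a, b.resolve_right fun b => ?_⟩
  have := card_le_univ ((fun c => st c O)^[Fintype.card β + 1] B₀ ∩ S)
  omega

/-- the matroid with as many free dummy elements as there are elements, cut at that rank -/
theorem exists_dummy (M : Matroid α) (hE : M.E = Set.univ) : ∃ M' : Matroid (α ⊕ α),
    M'.E = Set.univ ∧ ∀ J : Finset (α ⊕ α),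
      (M'.Indep (J : Set (α ⊕ α)) ↔ #J ≤ Fintype.card α ∧ M.Indep (J.toLeft : Set α)) ∧
      (M'.IsBase (J : Set (α ⊕ α)) ↔ #J = Fintype.card α ∧ M.Indep (J.toLeft : Set α)) := by
  obtain ⟨M', h0, h⟩ : ∃ M' : Matroid (α ⊕ α), M'.E = Set.univ ∧ ∀ J : Finset (α ⊕ α),
      M'.Indep (J : Set (α ⊕ α)) ↔ #J ≤ Fintype.card α ∧ M.Indep (J.toLeft : Set α) := by
    refine ⟨(IndepMatroid.ofFinset Set.univ
      (fun J : Finset (α ⊕ α) => #J ≤ Fintype.card α ∧ M.Indep (J.toLeft : Set α))
      (by simp [toLeft])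
      (fun I J hJ hIJ => ⟨(card_le_card hIJ).trans hJ.1,
        hJ.2.subset (coe_subset.2 (toLeft_subset_toLeft hIJ))⟩) (fun I J hI hJ hlt => ?_)
      fun _ _ => Set.subset_univ _).matroid, rfl, fun J => by
        rw [IndepMatroid.matroid_Indep, IndepMatroid.ofFinset_indep]⟩
    have hc : ∀ e, #(insert e I) ≤ Fintype.card α := fun e =>
      (card_insert_le e I).trans (hlt.trans_le hJ.1)
    by_cases hs : J.toRight ⊆ I.toRight
    · have h1 := card_le_card hs
      have h2 := I.card_toLeft_add_card_toRight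
      have h3 := J.card_toLeft_add_card_toRight
      obtain ⟨e, ⟨e1, e2⟩, e3⟩ := hI.2.exists_insert_of_encard_lt hJ.2 (by
        rw [Set.encard_coe_eq_coe_finsetCard, Set.encard_coe_eq_coe_finsetCard, Nat.cast_lt]
        omega)
      exact ⟨.inl e, by simpa using e1, by simpa using e2, hc _, by simpa using e3⟩
    · obtain ⟨e, e1, e2⟩ := not_subset.1 hs
      exact ⟨.inr e, by simpa using e1, by simpa using e2, hc _, by simpa using hI.2⟩
  refine ⟨M', h0, fun J => ⟨h J, fun hJ => ?_, fun hJ => ?_⟩⟩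
  · obtain ⟨h1, h2⟩ := (h J).1 hJ.indep
    refine ⟨h1.eq_of_not_lt fun hlt => ?_, h2⟩
    have h3 := J.card_toLeft_add_card_toRight
    obtain ⟨e, -, he⟩ := exists_mem_notMem_of_card_lt_card
      (show #J.toRight < #(univ : Finset α) by rw [card_univ]; omega)
    have h4 := (h (insert (.inr e) J)).2 ⟨(card_insert_le _ J).trans hlt, by simpa using h2⟩
    have h5 := hJ.eq_of_subset_indep h4 (by simp)
    exact he (mem_toRight.2 (mem_coe.1 (h5 ▸ mem_coe.2 (mem_insert_self _ J))))
  · obtain ⟨B, hB, -⟩ := M'.empty_indep.exists_isBase_superset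
    lift B to Finset (α ⊕ α) using B.toFinite
    exact base_of_card hB ((h J).2 ⟨hJ.1.le, hJ.2⟩) (hJ.1 ▸ ((h B).1 hB.indep).1)

/-- the first common base: `comp_lin` with `τ = toLeft`, start at the dummies -/
theorem comp_first : ∃ f : (Bool × Finset α → Bool) → Finset α,
    Comp ((2 * Fintype.card α + 1) * (2 * (2 * Fintype.card α) ^ 2)) f ∧
    ∀ P : Two α, (∃ B, P.CB B) → P.CB (f (oracle P.M₁ P.M₂)) := by
  obtain ⟨f, hf, h⟩ := comp_lin (β := α ⊕ α) toLeft (disjSum univ ∅) (disjSum ∅ univ)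
  rw [Fintype.card_sum, ← two_mul] at hf
  refine ⟨_, hf.map toLeft, fun P ⟨B, hB⟩ => ?_⟩
  obtain ⟨M₁, e₁, h₁⟩ := exists_dummy P.M₁ P.e₁
  obtain ⟨M₂, e₂, h₂⟩ := exists_dummy P.M₂ P.e₂
  have c : ∀ J : Finset (α ⊕ α), #(J ∩ disjSum univ ∅) = #J.toLeft := fun J => by
    rw [← card_toLeft_add_card_toRight, toLeft_inter, toRight_inter, toLeft_disjSum,
      toRight_disjSum, inter_univ, inter_empty, card_empty, add_zero]
  have c0 : ∀ M : Matroid α, #(disjSum (∅ : Finset α) (univ : Finset α)) = Fintype.card α ∧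
      M.Indep ((disjSum (∅ : Finset α) (univ : Finset α)).toLeft : Set α) := fun M => by
    rw [toLeft_disjSum]; simp
  obtain ⟨⟨k₁, k₂⟩, k⟩ := h (oracle P.M₁ P.M₂) ⟨M₁, M₂, e₁, e₂⟩
    (fun J hJ => by
      have hJ' : #J ≤ Fintype.card α := by simp [hJ]
      simp [oracle, (h₁ J).1, (h₂ J).1, hJ'])
    ⟨(h₁ _).2.2 (c0 _), (h₂ _).2.2 (c0 _)⟩
  obtain ⟨T, -, hT⟩ := exists_subset_card_eq (s := (univ : Finset α))
    (Nat.sub_le (#(univ : Finset α)) #B)
  have hc : #(disjSum B T) = Fintype.card α := by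
    rw [card_disjSum, hT, Nat.add_sub_cancel' (card_le_univ B |>.trans card_univ.ge), card_univ]
  have k' := k (disjSum B T) ⟨(h₁ _).2.2 ⟨hc, by simpa using hB.1.indep⟩,
    (h₂ _).2.2 ⟨hc, by simpa using hB.2.indep⟩⟩
  rw [c, c, toLeft_disjSum] at k'
  exact ⟨base_of_card hB.1 ((h₁ _).2.1 k₁).2 k', base_of_card hB.2 ((h₂ _).2.1 k₂).2 k'⟩

end Pool.Agent.Lib.MP_1bbcfd_lc.PT
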