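import Pool.Agent.Lib.MP_1bbcfd_lc.PT.Lin

/-! The main loop for integer weights. -/

namespace Pool.Agent.Lib.MP_1bbcfd_lc.PT

open Finset

variable {α : Type} [DecidableEq α] [Fintype α]

/-- the integer value of `R` at the price `b` -/
def valZ (w : α → ℕ) (b : ℕ) (R : Finset α) : ℤ := ∑ e ∈ R, ((w e : ℤ) - b)

open Classical in
/-- one step of the loop, as a function of the certified moves -/
noncomputable def lstep (w : α → ℕ) (k N : ℕ) (F : Finset α) (s : ℕ × Finset α × Finset α)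
    (mv : Finset α → Prop) : ℕ × Finset α × Finset α :=
  if k < #s.2.2 then s
  else if h : ∃ p : Finset α × Finset α, mv p.1 ∧ F ⊆ p.1 ∧ p.2 ⊆ p.1 ∧ #(p.2 \ s.2.2) ≤ N ∧
      valZ w s.1 s.2.2 < valZ w s.1 p.2 then (s.1, h.choose)
  else (s.1 - 1, s.2)

omit [DecidableEq α] [Fintype α] in
theorem valZ_cast (w : α → ℕ) (b : ℕ) (R : Finset α) :
    ((valZ w b R : ℤ) : ℝ) = ∑ e ∈ R, ((w e : ℝ) - b) := by
  simp [valZ]

omit [DecidableEq α] [Fintype α] in
theorem valZ_eq (w : α → ℕ) (b : ℕ) (R : Finset α) :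
    valZ w b R = ∑ e ∈ R, (w e : ℤ) - b * #R := by
  simp [valZ, Finset.sum_sub_distrib, mul_comm]

theorem lstep_spec (w : α → ℕ) (k N : ℕ) (F : Finset α) (P : Two α) (b : ℕ) (B R : Finset α) :
    (k < #R ∧ lstep w k N F (b, B, R) (P.Mv B) = (b, B, R)) ∨
    (#R ≤ k ∧ ¬ P.Stuck F (fun e => (w e : ℝ) - b) N B R ∧ ∃ B' R', P.Mv B B' ∧ F ⊆ B' ∧
      R' ⊆ B' ∧ #(R' \ R) ≤ N ∧
      valZ w b R < valZ w b R' ∧ lstep w k N F (b, B, R) (P.Mv B) = (b, B', R')) ∨
    (#R ≤ k ∧ P.Stuck F (fun e => (w e : ℝ) - b) N B R ∧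
      lstep w k N F (b, B, R) (P.Mv B) = (b - 1, B, R)) := by
  by_cases h : k < #R
  · exact Or.inl ⟨h, by simp [lstep, h]⟩
  · by_cases h' : ∃ p : Finset α × Finset α, P.Mv B p.1 ∧ F ⊆ p.1 ∧ p.2 ⊆ p.1 ∧
        #(p.2 \ R) ≤ N ∧ valZ w b R < valZ w b p.2
    · obtain ⟨a₁, a₂, a₃, a₄, a₅⟩ := h'.choose_spec
      refine Or.inr (Or.inl ⟨not_lt.1 h, fun st => ?_, h'.choose.1, h'.choose.2, a₁, a₂, a₃, a₄,
        a₅, ?_⟩)
      · have := st _ _ a₁ a₂ a₃ a₄
        rw [← valZ_cast, ← valZ_cast, Int.cast_le] at this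
        exact absurd a₅ (not_lt.2 this)
      · unfold lstep
        rw [if_neg h, dif_pos h']
    · refine Or.inr (Or.inr ⟨not_lt.1 h, fun B' R' a₁ a₂ a₃ a₄ => ?_, ?_⟩)
      · rw [← valZ_cast, ← valZ_cast, Int.cast_le]
        by_contra c
        exact h' ⟨(B', R'), a₁, a₂, a₃, a₄, not_le.1 c⟩
      · unfold lstep
        rw [if_neg h, dif_neg h']

/-- the invariants that do not mention the target value -/
theorem loop_inv (w : α → ℕ) (W k N : ℕ) (F B₀ : Finset α) (P : Two α) (h₀ : P.CB B₀) (T : ℕ) :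
    ∀ s, s = (fun s => lstep w k N F s (P.Mv s.2.1))^[T] (W, B₀, ∅) →
      P.CB s.2.1 ∧ (F ⊆ B₀ → F ⊆ s.2.1) ∧ s.2.2 ⊆ s.2.1 ∧ s.1 ≤ W ∧ #s.2.2 ≤ k + N ∧
      ((k < #s.2.2 ∨ (s.1 = 0 ∧ P.Stuck F (fun e => (w e : ℝ) - s.1) N s.2.1 s.2.2)) ∨
        (T : ℤ) ≤ valZ w s.1 s.2.2 + (W - s.1)) ∧
      (F ⊆ B₀ → ∀ G : ℝ, G ≤ k * W →
        (∀ (b : ℕ) (B R : Finset α), P.CB B → F ⊆ B → R ⊆ B →
          P.Stuck F (fun e => (w e : ℝ) - b) N B R → G - b * k ≤ ∑ e ∈ R, ((w e : ℝ) - b)) →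
        G - (s.1 + 1) * k ≤ (valZ w s.1 s.2.2 : ℝ)) := by
  induction T with
  | zero =>
    rintro s rfl
    refine ⟨h₀, id, empty_subset _, le_rfl, by simp, Or.inr (by simp [valZ]), ?_⟩
    intro _ G hG _
    have : (0 : ℝ) ≤ k := Nat.cast_nonneg k
    simp only [Function.iterate_zero, id, valZ, sum_empty, Int.cast_zero]
    nlinarith
  | succ T ih =>
    intro s hs
    rw [Function.iterate_succ_apply'] at hs
    generalize (fun s => lstep w k N F s (P.Mv s.2.1))^[T] (W, B₀, ∅) = u at hs ih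
    obtain ⟨b, B, R⟩ := u
    obtain ⟨i₁, i₂, i₃, i₄, i₅, i₆, i₇⟩ := ih _ rfl
    dsimp only at hs i₁ i₂ i₃ i₄ i₅ i₆ i₇
    rcases lstep_spec w k N F P b B R with ⟨c, e⟩ | ⟨c, ns, B', R', a₁, a₂, a₃, a₄, a₅, e⟩ |
      ⟨c, st, e⟩
    · rw [e] at hs
      subst hs
      exact ⟨i₁, i₂, i₃, i₄, i₅, Or.inl (Or.inl c), i₇⟩
    · rw [e] at hs
      subst hs
      refine ⟨a₁.cb i₁, fun _ => a₂, a₃, i₄, ?_, Or.inr ?_, fun hF G hG hh => ?_⟩
      · have := card_le_card_sdiff_add_card (s := R') (t := R)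
        dsimp only
        omega
      · rcases i₆ with (d | d) | d
        · omega
        · exact absurd d.2 ns
        · dsimp only
          push_cast
          omega
      · have h₁ := i₇ hF G hG hh
        have h₂ : ((valZ w b R : ℤ) : ℝ) ≤ ((valZ w b R' : ℤ) : ℝ) := Int.cast_le.2 a₅.le
        exact h₁.trans h₂
    · rw [e] at hs
      subst hs
      rcases Nat.eq_zero_or_pos b with rfl | hb
      · exact ⟨i₁, i₂, i₃, i₄, i₅, Or.inl (Or.inr ⟨rfl, st⟩), i₇⟩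
      · obtain ⟨b, rfl⟩ : ∃ b', b = b' + 1 := ⟨b - 1, by omega⟩
        have hv : valZ w (b + 1) R ≤ valZ w b R := by
          rw [valZ_eq, valZ_eq]
          push_cast
          have : (0 : ℤ) ≤ #R := Int.natCast_nonneg _
          nlinarith
        simp only [Nat.add_sub_cancel]
        refine ⟨i₁, i₂, i₃, by omega, i₅, Or.inr ?_, fun hF G hG hh => ?_⟩
        · rcases i₆ with (d | d) | d
          · omega
          · omega
          · push_cast at d ⊢
            omega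
        · have h₁ := hh (b + 1) B R i₁ (i₂ hF) i₃ st
          rw [← valZ_cast] at h₁
          have h₂ : ((valZ w (b + 1) R : ℤ) : ℝ) ≤ ((valZ w b R : ℤ) : ℝ) := Int.cast_le.2 hv
          push_cast at h₁
          exact h₁.trans h₂

/-- State `(b, B, R)`, start `(W, B₀, ∅)`. Halt if `k < #R`; else make an improving move if there
is one; else lower `b` by one if it is positive. `value + (W - b)` grows in each step that does
not halt and is at most `(n + 1) W`; invariant `G - (b + 1) k ≤ value`. -/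
theorem comp_loop (w : α → ℕ) (W k N : ℕ) (hW : ∀ e, w e ≤ W) (F B₀ : Finset α) :
    ∃ f : (Bool × Finset α → Bool) → Finset α,
      Comp (((Fintype.card α + 1) * W + 1) * (2 * Fintype.card α ^ 2)) f ∧
      ∀ P : Two α, P.CB B₀ → P.CB (f (oracle P.M₁ P.M₂)) ∧ (F ⊆ B₀ →
        F ⊆ f (oracle P.M₁ P.M₂) ∧ ∀ G : ℝ, G ≤ k * W →
          (∀ (b : ℕ) (B R : Finset α), P.CB B → F ⊆ B → R ⊆ B →
            P.Stuck F (fun e => (w e : ℝ) - b) N B R → G - b * k ≤ ∑ e ∈ R, ((w e : ℝ) - b)) →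
          ∃ R ⊆ f (oracle P.M₁ P.M₂), #R ≤ k + N ∧ G - k ≤ ∑ e ∈ R, (w e : ℝ)) := by
  refine ⟨fun O => ((fun s : ℕ × Finset α × Finset α => lstep w k N F s (MvO O id s.2.1))^[
    (Fintype.card α + 1) * W + 1] (W, B₀, ∅)).2.1, ?_, fun P h₀ => ?_⟩
  · exact (Comp.iter (st := fun (s : ℕ × Finset α × Finset α) (O : Bool × Finset α → Bool) =>
      lstep w k N F s (MvO O id s.2.1)) (fun s => comp_mvO id s.2.1 (lstep w k N F s)) _ _).map
      fun s => s.2.1
  · have e : (fun s : ℕ × Finset α × Finset α =>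
        lstep w k N F s (MvO (oracle P.M₁ P.M₂) id s.2.1)) =
        fun s => lstep w k N F s (P.Mv s.2.1) := by
      funext s
      congr 1
      funext B'
      exact propext (mvO_iff (ans_oracle P #s.2.1) B')
    dsimp only
    rw [e]
    have key := loop_inv w W k N F B₀ P h₀ ((Fintype.card α + 1) * W + 1) _ rfl
    generalize (fun s : ℕ × Finset α × Finset α => lstep w k N F s (P.Mv s.2.1))^[
      (Fintype.card α + 1) * W + 1] (W, B₀, ∅) = u at key
    obtain ⟨b, B, R⟩ := u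
    obtain ⟨i₁, i₂, i₃, i₄, i₅, i₆, i₇⟩ := key
    dsimp only at i₁ i₂ i₃ i₄ i₅ i₆ i₇ ⊢
    refine ⟨i₁, fun hF => ⟨i₂ hF, fun G hG hh => ⟨R, i₃, i₅, ?_⟩⟩⟩
    have hk : (0 : ℝ) ≤ k := Nat.cast_nonneg k
    rcases i₆ with (d | d) | d
    · have h₁ := i₇ hF G hG hh
      rw [valZ_eq] at h₁
      push_cast at h₁
      have h₂ : (k : ℝ) ≤ #R := by exact_mod_cast d.le
      have h₃ : (0 : ℝ) ≤ b := Nat.cast_nonneg b
      nlinarith [mul_le_mul_of_nonneg_left h₂ h₃]
    · obtain ⟨rfl, st⟩ := d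
      have h₁ := hh 0 B R i₁ (i₂ hF) i₃ st
      simp only [Nat.cast_zero, zero_mul, sub_zero] at h₁
      linarith
    · exfalso
      rw [valZ_eq] at d
      have h₁ : ∑ e ∈ R, w e ≤ Fintype.card α * W :=
        (sum_le_card_nsmul R w W fun e _ => hW e).trans
          (by rw [smul_eq_mul]; exact Nat.mul_le_mul_right _ (card_le_univ R))
      have h₂ : ∑ e ∈ R, (w e : ℤ) ≤ Fintype.card α * W := by exact_mod_cast h₁
      have h₃ : (0 : ℤ) ≤ (b : ℤ) * #R := by positivity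
      have h₄ : (0 : ℤ) ≤ b := Int.natCast_nonneg b
      push_cast at d
      nlinarith

omit [Fintype α] in
/-- keep the `k` best elements -/
theorem exists_top (w : α → ℝ) (hw : ∀ e, 0 ≤ w e) {k N : ℕ} {B R : Finset α} (hR : R ⊆ B)
    (hk : k ≤ #B) (hN : #R ≤ k + N) :
    ∃ X ⊆ B, #X = k ∧ k * ∑ e ∈ R, w e ≤ (k + N) * ∑ e ∈ X, w e := by
  induction N generalizing R with
  | zero =>
    obtain ⟨X, h₁, h₂, h₃⟩ := exists_subsuperset_card_eq hR (n := k) (by simpa using hN) hk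
    refine ⟨X, h₂, h₃, ?_⟩
    have := sum_le_sum_of_subset_of_nonneg h₁ fun e _ _ => hw e
    simpa using mul_le_mul_of_nonneg_left this (Nat.cast_nonneg (α := ℝ) k)
  | succ N ih =>
    by_cases h : #R ≤ k + N
    · obtain ⟨X, h₁, h₂, h₃⟩ := ih hR h
      refine ⟨X, h₁, h₂, h₃.trans ?_⟩
      have : 0 ≤ ∑ e ∈ X, w e := sum_nonneg fun e _ => hw e
      push_cast
      nlinarith
    · have hc : #R = k + N + 1 := by omega
      obtain ⟨a, ha, hmin⟩ := exists_min_image R w (card_pos.1 (by omega))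
      have hc' : #(R.erase a) = k + N := by rw [card_erase_of_mem ha]; omega
      obtain ⟨X, h₁, h₂, h₃⟩ := ih ((erase_subset a R).trans hR) hc'.le
      refine ⟨X, h₁, h₂, ?_⟩
      have hX : 0 ≤ ∑ e ∈ X, w e := sum_nonneg fun e _ => hw e
      have h₄ : ((k : ℝ) + N) * w a ≤ ∑ e ∈ R.erase a, w e := by
        have := card_nsmul_le_sum (R.erase a) w (w a) fun e he => hmin e (mem_of_mem_erase he)
        rw [hc', nsmul_eq_mul] at this
        exact_mod_cast this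
      rw [← add_sum_erase R w ha]
      push_cast
      rcases Nat.eq_zero_or_pos k with rfl | hk₀
      · have : (0 : ℝ) ≤ N := Nat.cast_nonneg N
        simp only [Nat.cast_zero, zero_mul, zero_add]
        positivity
      · have hk₁ : (0 : ℝ) < k := by exact_mod_cast hk₀
        have hN₀ : (0 : ℝ) ≤ N := Nat.cast_nonneg N
        have h₅ : (k : ℝ) * w a ≤ ∑ e ∈ X, w e := by
          have hpos : (0 : ℝ) < k + N := by linarith
          refine le_of_mul_le_mul_left ?_ hpos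
          nlinarith [mul_le_mul_of_nonneg_left h₄ hk₁.le]
        nlinarith

end Pool.Agent.Lib.MP_1bbcfd_lc.PT
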