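import Pool.Agent.Lib.MP_1bbcfd_lc.Defs
import Pool.Agent.Shared.PolyTime.Enc

/-!
Oracle algorithms whose control is a function on bit strings.
-/

set_option autoImplicit false

namespace Pool.Agent.Lib.MP_1bbcfd_lc

open Pool.Agent.Shared.PolyTime

/-- The explicit part of the input: the size `n` of the ground set `Fin n`, nonnegative rational
weights and the number `k`. -/
structure Input : Type where
  n : ℕ
  w : Fin n → ℚ≥0
  k : ℕ

/-- The input and the list of the oracle answers received so far, as a bit string; numerators and
denominators are written in binary. -/
def inCode (p : Input × List Bool) : List Bool :=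
  encPair (encNat p.1.n) (encPair (encNat p.1.k) (encPair
    (encList (fun c : ℚ≥0 => encPair (Nat.bits c.num) (Nat.bits c.den)) (List.ofFn p.1.w))
    (encList (fun b : Bool => [b]) p.2)))

/-- An action `(halt, i, J)` as a bit string. -/
def actCode (o : Bool × Bool × List ℕ) : List Bool :=
  encPair [o.1] (encPair [o.2.1] (encList encNat o.2.2))

/-- The procedure with control `σ`: on the input `I` and the answers `h` received so far, let
`σ (I, h) = (halt, i, J)`; it halts with the output `J` if `halt` is true and otherwise asks the
question `(i, J)`, the list `J` being read as a subset of `Fin n`. -/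
def control (σ : Input × List Bool → Bool × Bool × List ℕ) (I : Input) : Procedure (Fin I.n) :=
  fun h =>
    if (σ (I, h)).1 = true then
      Sum.inr (Finset.univ.filter fun x : Fin I.n => (x : ℕ) ∈ (σ (I, h)).2.2)
    else
      Sum.inl ((σ (I, h)).2.1, Finset.univ.filter fun x : Fin I.n => (x : ℕ) ∈ (σ (I, h)).2.2)

end Pool.Agent.Lib.MP_1bbcfd_lc
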