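import Pool.Agent.Lib.MP_1bbcfd_lc.PT.Walk
import Pool.Agent.Lib.MP_be0860_lc.Core

/-! Moving the target. -/

namespace Pool.Agent.Lib.MP_1bbcfd_lc.PT

open Finset
open scoped symmDiff

variable {α : Type} [DecidableEq α] [Fintype α]

omit [Fintype α] in
theorem Two.phi_nonneg (P : Two α) {m : α → ℝ} (hm : ∀ e, 0 ≤ m e) (F R : Finset α) :
    0 ≤ P.Phi m F R := by
  refine sum_nonneg fun x _ => sum_nonneg fun y _ => ?_
  split_ifs
  · exact mul_nonneg (hm x) (hm y)
  · exact le_rfl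

omit [Fintype α] in
theorem Two.phi_le (P : Two α) {m : α → ℝ} (hm : ∀ e, 0 ≤ m e) (F R : Finset α) :
    P.Phi m F R ≤ (∑ e ∈ R, m e) * ∑ e ∈ R, m e := by
  rw [sum_mul_sum]
  refine sum_le_sum fun x _ => sum_le_sum fun y _ => ?_
  split_ifs
  · exact le_rfl
  · exact mul_nonneg (hm x) (hm y)

omit [Fintype α] in
theorem Two.phi_drop (P : Two α) {m : α → ℝ} (hm : ∀ e, 0 ≤ m e) {F F' R R' U X E : Finset α}
    (hF : F ⊆ F') (hR : R' ⊆ R) (c : P.Closed F' U) (hX : X ⊆ R) (hE : E ⊆ R) (hXU : X ⊆ U)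
    (hEU : Disjoint E U) (hr : ∀ x ∈ X, ∀ y ∈ E, P.Rc F x y) :
    P.Phi m F' R' + (∑ e ∈ X, m e) * ∑ e ∈ E, m e ≤ P.Phi m F R := by
  classical
  have h₁ : P.Phi m F' R' ≤ P.Phi m F' R := by
    have h0 : ∀ x y, 0 ≤ if P.Rc F' x y then m x * m y else 0 := by
      intro x y
      split_ifs
      · exact mul_nonneg (hm x) (hm y)
      · exact le_rfl
    refine (sum_le_sum fun x _ => sum_le_sum_of_subset_of_nonneg hR fun y _ _ => ?_).trans
      (sum_le_sum_of_subset_of_nonneg hR fun x _ _ => sum_nonneg fun y _ => ?_)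
    · convert h0 x y
    · convert h0 x y
  have e : (∑ e ∈ X, m e) * ∑ e ∈ E, m e =
      ∑ x ∈ R, ∑ y ∈ R, if x ∈ X ∧ y ∈ E then m x * m y else 0 := by
    have e₁ : ∀ T ⊆ R, ∑ e ∈ T, m e = ∑ e ∈ R, if e ∈ T then m e else 0 := by
      intro T hT
      rw [← sum_filter, filter_mem_eq_inter, inter_eq_right.2 hT]
    rw [e₁ X hX, e₁ E hE, sum_mul_sum]
    refine sum_congr rfl fun x _ => sum_congr rfl fun y _ => ?_
    by_cases h1 : x ∈ X <;> by_cases h2 : y ∈ E <;> simp [h1, h2]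
  refine (add_le_add h₁ le_rfl).trans ?_
  rw [e, Two.Phi, Two.Phi, ← sum_add_distrib]
  refine sum_le_sum fun x _ => ?_
  rw [← sum_add_distrib]
  refine sum_le_sum fun y _ => ?_
  have h0 := mul_nonneg (hm x) (hm y)
  by_cases h1 : P.Rc F' x y
  · have h3 : ¬ (x ∈ X ∧ y ∈ E) := fun h => disjoint_left.1 hEU h.2 (h1 U c (hXU h.1))
    rw [if_pos h1, if_neg h3, if_pos (h1.mono hF), add_zero]
  · by_cases h3 : x ∈ X ∧ y ∈ E
    · rw [if_neg h1, if_pos h3, if_pos (hr x h3.1 y h3.2), zero_add]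
    · rw [if_neg h1, if_neg h3, add_zero]
      split_ifs
      · exact h0
      · exact le_rfl

/-- Case (ii): all closed walks through `f` cost more than `τ`. -/
theorem Two.far (P : Two α) {F B B₀ R₀ : Finset α} {m : α → ℝ} {τ : ℝ} {K : ℕ} {f : α}
    (hB : P.CB B) (hB₀ : P.CB B₀) (hF : F ⊆ B) (hF₀ : F ⊆ B₀) (hR₀ : R₀ ⊆ B₀) (hf : f ∈ B)
    (hf₀ : f ∉ B₀) (hm : ∀ e, 0 ≤ m e) (hm2 : ∑ e ∈ R₀, m e ≤ 2) (hτ : 0 < τ)
    (hlight : ∀ e ∈ R₀, e ∉ F → m e ≤ τ / 6) (hK : 2 < ((K : ℝ) + 1) * (τ / 3))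
    (hfar : ∀ l, l ≠ [] → Wk (P.D B₀ F) f l f →
      τ < (l.map fun v => if v ∈ R₀ then m v else 0).sum) :
    ∃ H U X E : Finset α, H ⊆ B₀ ∧ #H ≤ K ∧ P.Closed (F ∪ H) U ∧ X ⊆ R₀ ∧ E ⊆ R₀ ∧ X ⊆ U ∧
      Disjoint E U ∧ τ / 3 ≤ ∑ e ∈ X, m e ∧ τ / 6 ≤ ∑ e ∈ E, m e ∧
      ∀ x ∈ X, ∀ y ∈ E, P.Rc F x y := by
  obtain ⟨σ, hσ, -⟩ := P.exists_perm hB₀ hB
  set c : α → ℝ := fun v => if v ∈ R₀ then m v else 0 with hc
  have hc0 : ∀ v, 0 ≤ c v := fun v => by
    simp only [hc]
    split_ifs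
    · exact hm v
    · exact le_rfl
  have hcs : ∀ T : Finset α, ∑ e ∈ T ∩ R₀, m e = ∑ e ∈ T, c e := by
    intro T
    rw [hc, ← sum_filter, filter_mem_eq_inter]
  set v : ℕ → α := fun i => σ^[i] f with hv
  set n := Function.minimalPeriod σ f with hn
  have hn0 : 0 < n := MP_be0860_lc.period_pos σ f
  have hin : ∀ i, v i ∈ B₀ ∆ B := by
    intro i
    induction i with
    | zero => exact mem_symmDiff.2 (Or.inr ⟨hf, hf₀⟩)
    | succ i ih =>
      simp only [hv, Function.iterate_succ_apply']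
      exact (hσ _ ih).1
  have harc : ∀ i, P.D B₀ F (v i) (v (i + 1)) := by
    intro i
    simp only [hv, Function.iterate_succ_apply']
    exact (hσ _ (hin i)).2.mono (subset_inter hF₀ hF)
  have hper : ∀ i, v (i + n) = v i := fun i => Function.iterate_add_minimalPeriod_eq
  have hv0 : v 0 = f := rfl
  have hvn : v n = f := by rw [← zero_add n, hper, hv0]
  have hinj : ∀ i < n, ∀ j < n, v i = v j → i = j := fun i hi j hj he =>
    Function.iterate_injOn_Iio_minimalPeriod hi hj he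
  have hw : ∀ a k, Wk (P.D B₀ F) (v a) (seg v a k) (v (a + k)) := fun a k =>
    wk_seg v a k fun i _ => harc (a + i)
  have hne : ∀ a k, 0 < k → seg v a k ≠ [] := fun a k hk he => by
    have : v (a + 0) ∈ seg v a k := mem_seg.2 ⟨0, hk, rfl⟩
    rw [he] at this
    exact absurd this List.not_mem_nil
  have hl : ∀ i, c (v i) ≤ τ / 6 := by
    intro i
    simp only [hc]
    split_ifs with h
    · refine hlight _ h fun h' => ?_
      rcases mem_symmDiff.1 (hin i) with h'' | h''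
      · exact h''.2 (hF h')
      · exact h''.2 (hF₀ h')
    · positivity
  have hS : τ < ∑ i ∈ range n, c (v i) := by
    have w := hw 0 n
    rw [zero_add, hv0, hvn] at w
    have := hfar _ (hne 0 n hn0) w
    rw [sum_seg] at this
    simpa using this
  have htot : ∑ e, c e < (K + 1) * (2 * τ / 3 - τ / 3) := by
    rw [← hcs, univ_inter]
    linarith
  obtain ⟨U, H, hHK, hHc, hcl, hU₁, hU₂⟩ :=
    ball (P.D B₀ F) c hc0 {f} (show τ / 3 < 2 * τ / 3 by linarith) K htot
  have hHB : H ⊆ B₀ := fun e he => by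
    have := hHc e he
    simp only [hc] at this
    split_ifs at this with h
    · exact hR₀ h
    · exact absurd this (lt_irrefl _)
  have hex : ∃ j, τ / 3 ≤ ∑ i ∈ range j, c (v i) := ⟨n, by linarith⟩
  have hjn : Nat.find hex ≤ n := Nat.find_min' hex (by linarith)
  obtain ⟨j, hj, hj₁, hj₂⟩ := MP_be0860_lc.exists_prefix (f := fun i => c (v i)) (η := τ / 6)
    (θ := ∑ i ∈ range n, c (v i) - τ / 3) (by linarith) (by linarith) n (fun i _ => hl i)
    (by linarith)
  refine ⟨H, U, (range (Nat.find hex)).image v ∩ R₀, (Ico j n).image v ∩ R₀, hHB, hHK, ?_,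
    inter_subset_right, inter_subset_right, ?_, ?_, ?_, ?_, ?_⟩
  · refine P.closed_of_arcs hB₀ (union_subset hF₀ hHB) fun x y a hx => ?_
    refine hcl x hx (fun hH => ?_) y (a.mono subset_union_left)
    rcases a with a | a
    · exact a.1.2.1 (hHB hH)
    · exact a.2 (mem_union_right _ hH)
  · intro e he
    obtain ⟨i, hi, rfl⟩ := mem_image.1 (mem_inter.1 he).1
    have w := hw 0 i
    rw [zero_add, hv0] at w
    refine hU₁ f (mem_singleton_self f) _ _ w ?_
    have := Nat.find_min hex (mem_range.1 hi)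
    rw [sum_seg]
    simp only [zero_add]
    linarith
  · rw [disjoint_left]
    intro e he hU
    obtain ⟨i, hi, rfl⟩ := mem_image.1 (mem_inter.1 he).1
    obtain ⟨hi₁, hi₂⟩ := mem_Ico.1 hi
    obtain ⟨q, hq, l, w, hlb⟩ := hU₂ _ hU
    rw [mem_singleton.1 hq] at w
    have w' := hw i (n - i)
    rw [show i + (n - i) = n by omega, hvn] at w'
    have h1 := hfar (l ++ seg v i (n - i))
      (fun h => hne i (n - i) (by omega) (List.append_eq_nil_iff.1 h).2)
      (wk_append.2 ⟨_, w, w'⟩)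
    rw [List.map_append, List.sum_append, sum_seg] at h1
    have h2 := sum_range_add (fun i => c (v i)) i (n - i)
    rw [show i + (n - i) = n by omega] at h2
    have h3 : ∑ i ∈ range j, c (v i) ≤ ∑ i ∈ range i, c (v i) :=
      sum_le_sum_of_subset_of_nonneg (range_subset_range.2 hi₁) fun _ _ _ => hc0 _
    linarith
  · rw [hcs, sum_image fun a ha b hb he =>
      hinj a (by have := mem_range.1 ha; omega) b (by have := mem_range.1 hb; omega) he]
    exact Nat.find_spec hex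
  · rw [hcs, sum_image fun a ha b hb he =>
      hinj a (mem_Ico.1 ha).2 b (mem_Ico.1 hb).2 he, sum_Ico_eq_sub _ hj]
    linarith
  · intro x hx y hy
    obtain ⟨a, ha, rfl⟩ := mem_image.1 (mem_inter.1 hx).1
    obtain ⟨b, -, rfl⟩ := mem_image.1 (mem_inter.1 hy).1
    have w := hw a (b + n - a)
    have := mem_range.1 ha
    rw [show a + (b + n - a) = b + n by omega, hper] at w
    exact P.rc_of_wk hB₀ hF₀ w

omit [Fintype α] in
theorem sum_le_list (c : α → ℝ) (hc : ∀ v, 0 ≤ c v) {C : Finset α} {l : List α}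
    (h : ∀ v ∈ C, v ∈ l) : ∑ v ∈ C, c v ≤ (l.map c).sum := by
  refine (sum_le_sum_of_subset_of_nonneg (t := l.toFinset)
    (fun v hv => List.mem_toFinset.2 (h v hv)) fun v _ _ => hc v).trans ?_
  clear h
  induction l with
  | nil => simp
  | cons a l ih =>
    rw [List.toFinset_cons, List.map_cons, List.sum_cons]
    by_cases ha : a ∈ l.toFinset
    · rw [insert_eq_of_mem ha]
      linarith [hc a]
    · rw [sum_insert ha]
      linarith

/-- STEP 2 of the paper. -/
theorem Two.move (P : Two α) {F B Bs Rs H U X E : Finset α} {m : α → ℝ} {s K : ℕ} {ε θ₂ : ℝ}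
    {t : ℕ → ℝ} (hB : P.CB B) (hBs : P.CB Bs) (hF : F ⊆ B) (hFs : F ⊆ Bs) (hRs : Rs ⊆ Bs)
    (hm : ∀ e, 0 ≤ m e) (hm2 : ∑ e ∈ Rs, m e ≤ 2) (hε : 0 < ε) (ht0 : 0 < t 0)
    (ht1 : ∀ g < s, 2 * t g ≤ t (g + 1)) (ht2 : ∀ g < s, t g ≤ ε * (t (g + 1) ^ 2 / 72))
    (ht3 : 2 * t s ≤ θ₂) (ht4 : t s ≤ ε * (θ₂ ^ 2 / 4))
    (hlight : ∀ e ∈ Rs, e ∉ F → m e ≤ t 0 / 6) (hK : 2 < ((K : ℝ) + 1) * (t 0 / 3))
    (hH : H ⊆ B) (hHs : #H ≤ s) (c : P.Closed (F ∪ H) U) (hX : X ⊆ Rs) (hE : E ⊆ Rs)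
    (hXU : X ⊆ U) (hEU : Disjoint E U) (mX : θ₂ ≤ ∑ e ∈ X, m e) (mE : θ₂ ≤ ∑ e ∈ E, m e)
    (hr : ∀ x ∈ X, ∀ y ∈ E, P.Rc F x y) :
    ∃ (F' B₀ R₀ : Finset α) (d : ℝ), P.CB B₀ ∧ F ⊆ F' ∧ F' ⊆ B₀ ∧ R₀ ⊆ Rs ∧ R₀ ⊆ B₀ ∧
      #F' ≤ #F + (s + K) ∧ t 0 ^ 2 / 18 ≤ d ∧ P.Phi m F' R₀ + d ≤ P.Phi m F Rs ∧
      ∑ e ∈ Rs, m e ≤ ∑ e ∈ R₀, m e + ε * d := by
  classical
  have hpos : ∀ g ≤ s, t 0 ≤ t g := by
    intro g hg
    induction g with
    | zero => exact le_rfl
    | succ g ih =>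
      have := ih (by omega)
      have := ht1 g (by omega)
      linarith
  have hmono : ∀ k g, g + k ≤ s → t g ≤ t (g + k) := by
    intro k g hg
    induction k with
    | zero => exact le_rfl
    | succ k ih =>
      have := ih (by omega)
      have := ht1 (g + k) (by omega)
      have := hpos (g + k) (by omega)
      rw [← add_assoc]
      linarith
  let Q : ℕ → Prop := fun g => ∃ B₀, P.CB B₀ ∧ F ⊆ B₀ ∧ g ≤ #(B₀ ∩ H) ∧ ∑ e ∈ Rs \ B₀, m e ≤ t g
  have hQ0 : Q 0 := ⟨Bs, hBs, hFs, Nat.zero_le _, by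
    rw [sdiff_eq_empty_iff_subset.2 hRs, sum_empty]
    exact ht0.le⟩
  obtain ⟨g, hgs, ⟨B₀, hB₀, hF₀, hg, hloss⟩, hmax⟩ :
      ∃ g ≤ s, Q g ∧ ∀ k, g < k → k ≤ s → ¬ Q k :=
    ⟨Nat.findGreatest Q s, Nat.findGreatest_le s, Nat.findGreatest_spec (Nat.zero_le s) hQ0,
      fun k a b => Nat.findGreatest_is_greatest a b⟩
  have hsplit := sum_inter_add_sum_sdiff Rs B₀ m
  by_cases hHB : H ⊆ B₀
  · have hts : t g ≤ t s := by
      have := hmono (s - g) g (by omega)
      rwa [show g + (s - g) = s by omega] at this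
    have h0s := hpos s le_rfl
    have hθ : 0 < θ₂ := by linarith
    have hd : θ₂ * θ₂ ≤ (∑ e ∈ X, m e) * ∑ e ∈ E, m e :=
      mul_le_mul mX mE hθ.le (hθ.le.trans mX)
    refine ⟨F ∪ H, B₀, Rs ∩ B₀, θ₂ ^ 2 / 4, hB₀, subset_union_left, union_subset hF₀ hHB,
      inter_subset_left, inter_subset_right, (card_union_le _ _).trans (by omega), ?_, ?_, ?_⟩
    · nlinarith
    · have := P.phi_drop hm subset_union_left (inter_subset_left (s₂ := B₀)) c hX hE hXU hEU hr
      nlinarith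
    · linarith
  · obtain ⟨f, hfH, hf₀⟩ := not_subset.1 hHB
    have hlt : #(B₀ ∩ H) < #H :=
      card_lt_card ⟨inter_subset_right, fun h => hf₀ (mem_inter.1 (h hfH)).1⟩
    have hgs' : g < s := by omega
    have h1 := ht1 g hgs'
    have h2 := ht2 g hgs'
    have h0 := hpos g hgs
    have hF₁ : F ∪ B₀ ∩ H ⊆ B₀ := union_subset hF₀ inter_subset_left
    obtain ⟨H', U', X', E', a₁, a₂, a₃, a₄, a₅, a₆, a₇, a₈, a₉, a₁₀⟩ :=
      P.far (F := F ∪ B₀ ∩ H) (R₀ := Rs ∩ B₀) (τ := t (g + 1) / 2) (K := K) hB hB₀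
        (union_subset hF (inter_subset_right.trans hH)) hF₁ inter_subset_right (hH hfH) hf₀ hm
        ((sum_le_sum_of_subset_of_nonneg inter_subset_left fun e _ _ => hm e).trans hm2)
        (by linarith)
        (fun e he hn => by
          have := hlight e (mem_inter.1 he).1 fun h => hn (mem_union_left _ h)
          linarith)
        (hK.trans_le (mul_le_mul_of_nonneg_left (by linarith) (by positivity)))
        (fun l hl w => by
          by_contra hn
          obtain ⟨C, hC, hCp, hM⟩ := P.exists_mv hF₁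
            (fun v => if v ∈ H \ B₀ then (1 : ℝ) else 0) w (by
              cases l with
              | nil => exact absurd rfl hl
              | cons a l =>
                rw [List.map_cons, List.sum_cons, w.1, if_pos (mem_sdiff.2 ⟨hfH, hf₀⟩)]
                refine add_pos_of_pos_of_nonneg one_pos (List.sum_nonneg fun x hx => ?_)
                obtain ⟨y, -, rfl⟩ := List.mem_map.1 hx
                split_ifs
                · exact zero_le_one
                · exact le_rfl)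
          obtain ⟨z, hzC, hz⟩ : ∃ z ∈ C, z ∈ H \ B₀ := by
            by_contra hz
            push Not at hz
            rw [sum_eq_zero fun x hx => if_neg (hz x hx)] at hCp
            exact lt_irrefl _ hCp
          have hkeep : F ∪ B₀ ∩ H ⊆ B₀ ∆ C := fun e he =>
            mem_symmDiff.2 (Or.inl ⟨hF₁ he, fun h => (hC e h).2 he⟩)
          refine hmax (g + 1) (by omega) (by omega)
            ⟨B₀ ∆ C, hM.cb hB₀, subset_union_left.trans hkeep, ?_, ?_⟩
          · refine (Nat.succ_le_succ hg).trans (card_lt_card ⟨fun e he => ?_, fun h => ?_⟩)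
            · exact mem_inter.2 ⟨hkeep (mem_union_right _ he), (mem_inter.1 he).2⟩
            · exact (mem_sdiff.1 hz).2 (mem_inter.1 (h (mem_inter.2
                ⟨mem_symmDiff.2 (Or.inr ⟨hzC, (mem_sdiff.1 hz).2⟩), (mem_sdiff.1 hz).1⟩))).1
          · have e₁ : Rs \ (B₀ ∆ C) ⊆ Rs \ B₀ ∪ C ∩ (Rs ∩ B₀) := by
              intro e he
              simp only [mem_sdiff, mem_symmDiff, mem_union, mem_inter] at he ⊢
              tauto
            have e₂ : Disjoint (Rs \ B₀) (C ∩ (Rs ∩ B₀)) := by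
              rw [disjoint_left]
              intro e he he'
              exact (mem_sdiff.1 he).2 (mem_inter.1 (mem_inter.1 he').2).2
            have e₃ := sum_le_sum_of_subset_of_nonneg e₁ fun e _ _ => hm e
            have e₄ := sum_le_list (fun v => if v ∈ Rs ∩ B₀ then m v else 0)
              (fun v => by
                split_ifs
                · exact hm v
                · exact le_rfl) (fun v hv => (hC v hv).1)
            rw [← sum_filter, filter_mem_eq_inter] at e₄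
            rw [sum_union e₂] at e₃
            linarith [not_lt.1 hn])
    have hd : t (g + 1) / 2 / 3 * (t (g + 1) / 2 / 6) ≤ (∑ e ∈ X', m e) * ∑ e ∈ E', m e :=
      mul_le_mul a₈ a₉ (by linarith) (le_trans (by linarith) a₈)
    refine ⟨F ∪ B₀ ∩ H ∪ H', B₀, Rs ∩ B₀, t (g + 1) ^ 2 / 72, hB₀,
      subset_union_left.trans subset_union_left, union_subset hF₁ a₁,
      inter_subset_left, inter_subset_right, ?_, ?_, ?_, ?_⟩
    · have := card_union_le (F ∪ B₀ ∩ H) H'
      have := card_union_le F (B₀ ∩ H)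
      omega
    · nlinarith
    · have := P.phi_drop hm (subset_union_left.trans subset_union_left)
        (inter_subset_left (s₂ := B₀)) a₃ (a₄.trans inter_subset_left)
        (a₅.trans inter_subset_left) a₆ a₇
        fun x hx y hy => (a₁₀ x hx y hy).mono subset_union_left
      nlinarith
    · linarith

end Pool.Agent.Lib.MP_1bbcfd_lc.PT
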