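import Pool.Agent.Lib.MP_1bbcfd_lc.PT.Cut
import Pool.Agent.Lib.MP_1bbcfd_lc.PT.Move

/-! The structure theorem. -/

namespace Pool.Agent.Lib.MP_1bbcfd_lc.PT

open Finset

/-- the loss scale -/
theorem exists_scale {ε θ₂ : ℝ} (hε : 0 < ε) (hθ₂ : 0 < θ₂) (s : ℕ) : ∃ t : ℕ → ℝ, 0 < t 0 ∧
    (∀ g < s, 2 * t g ≤ t (g + 1)) ∧ (∀ g < s, t g ≤ ε * (t (g + 1) ^ 2 / 72)) ∧
    2 * t s ≤ θ₂ ∧ t s ≤ ε * (θ₂ ^ 2 / 4) ∧ t 0 ≤ θ₂ := by
  let u : ℕ → ℝ := fun n => Nat.rec (min (θ₂ / 2) (ε * (θ₂ ^ 2 / 4)))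
    (fun _ x => min (x / 2) (ε * (x ^ 2 / 72))) n
  have hs : ∀ n, u (n + 1) = min (u n / 2) (ε * (u n ^ 2 / 72)) := fun _ => rfl
  have h0 : u 0 = min (θ₂ / 2) (ε * (θ₂ ^ 2 / 4)) := rfl
  have hu : ∀ n, 0 < u n ∧ u n ≤ θ₂ / 2 := by
    intro n
    induction n with
    | zero => exact ⟨lt_min (by positivity) (by positivity), min_le_left _ _⟩
    | succ n ih =>
      have := ih.1
      rw [hs]
      exact ⟨lt_min (by positivity) (by positivity), (min_le_left _ _).trans (by linarith [ih.2])⟩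
  have he : ∀ g < s, s - g = s - (g + 1) + 1 := fun g hg => by omega
  refine ⟨fun g => u (s - g), (hu _).1, fun g hg => ?_, fun g hg => ?_, ?_, ?_, ?_⟩
  · have := min_le_left (u (s - (g + 1)) / 2) (ε * (u (s - (g + 1)) ^ 2 / 72))
    simp only [he g hg, hs]
    linarith
  · simp only [he g hg, hs]
    exact min_le_right _ _
  · linarith [(hu (s - s)).2]
  · simp only [Nat.sub_self, h0]
    exact min_le_right _ _
  · linarith [(hu (s - 0)).2]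

/-- After the contraction of boundedly many elements every stuck solution is nearly optimal.
Take `m e = 1 / k + w e / O`, start with the elements of `Rs` of mass above `t 0 / 6`, and repeat
`cut` (with `ε / 2`) and `move` (with `ε / 8`) while some stuck solution is bad. -/
theorem struct (ε : ℝ) (hε : 0 < ε) : ∃ C : ℕ, ∀ (α : Type) [DecidableEq α] [Fintype α]
    (P : Two α) (w : α → ℝ) (N : ℕ) (Bs Rs : Finset α), (∀ e, 0 ≤ w e) → P.CB Bs → Rs ⊆ Bs →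
    ⌊ε * #Rs⌋₊ ≤ N →
    ∃ F B₀ : Finset α, #F ≤ C ∧ P.CB B₀ ∧ F ⊆ B₀ ∧ ∀ (b : ℝ) (B R : Finset α), 0 ≤ b → P.CB B →
      F ⊆ B → R ⊆ B → P.WStuck F (fun e => w e - b) N B R →
      (1 - ε) * ∑ e ∈ Rs, w e - b * #Rs ≤ ∑ e ∈ R, (w e - b) := by
  obtain ⟨θ, hθ, hθ₁, hθ₂⟩ : ∃ θ : ℝ, 0 < θ ∧ θ ≤ ε / 15 ∧ θ ≤ ε ^ 2 / 60 :=
    ⟨min _ _, lt_min (by positivity) (by positivity), min_le_left _ _, min_le_right _ _⟩
  obtain ⟨s, hs⟩ := exists_nat_gt (1 / θ)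
  obtain ⟨t, t0, t1, t2, t3, t4, t5⟩ := exists_scale (show 0 < ε / 8 by positivity) hθ s
  obtain ⟨K, hK⟩ := exists_nat_gt (12 / t 0)
  obtain ⟨n₀, hn₀⟩ := exists_nat_gt (4 / (t 0 ^ 2 / 18))
  rw [div_lt_iff₀ (by positivity)] at hs hK hn₀
  refine ⟨K + n₀ * (s + K), fun α _ _ P w N Bs Rs hw hBs hRs hN => ?_⟩
  obtain ⟨O, hO⟩ : ∃ O, O = ∑ e ∈ Rs, w e := ⟨_, rfl⟩
  rw [← hO]
  rcases (hO ▸ sum_nonneg fun e _ => hw e : 0 ≤ O).eq_or_lt with h0 | h0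
  · refine ⟨∅, Bs, by simp, hBs, empty_subset _, fun b B R hb _ _ _ st => ?_⟩
    have := sum_nonneg st.1
    have : 0 ≤ b * #Rs := by positivity
    rw [← h0]
    linarith
  have hk : (0 : ℝ) < #Rs := by
    rcases Rs.eq_empty_or_nonempty with rfl | h
    · simp [hO] at h0
    · exact_mod_cast h.card_pos
  obtain ⟨m, hm⟩ : ∃ m : α → ℝ, ∀ e, m e = 1 / #Rs + w e / O := ⟨_, fun _ => rfl⟩
  have hm0 : ∀ e, 0 ≤ m e := fun e => by have := hw e; rw [hm]; positivity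
  have hmA : ∀ A : Finset α, ∑ e ∈ A, m e = #A / #Rs + (∑ e ∈ A, w e) / O := fun A => by
    simp only [hm, sum_add_distrib, sum_const, nsmul_eq_mul, ← sum_div, mul_one_div]
  have hm2 : ∀ A ⊆ Rs, ∑ e ∈ A, m e ≤ 2 := fun A hA =>
    (sum_le_sum_of_subset_of_nonneg hA fun e _ _ => hm0 e).trans (by
      rw [hmA, ← hO, div_self hk.ne', div_self h0.ne']; norm_num)
  have key : ∀ (n : ℕ) (F B₀ R₀ : Finset α), P.CB B₀ → F ⊆ B₀ → R₀ ⊆ B₀ → R₀ ⊆ Rs →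
      (∀ e ∈ R₀, e ∉ F → m e ≤ t 0 / 6) → P.Phi m F R₀ < n * (t 0 ^ 2 / 18) →
      ∃ F' B' R' : Finset α, #F' ≤ #F + n * (s + K) ∧ P.CB B' ∧ F' ⊆ B' ∧ R' ⊆ R₀ ∧
        ∑ e ∈ R₀, m e ≤ ∑ e ∈ R', m e + ε / 8 * P.Phi m F R₀ ∧
        ∀ (b : ℝ) (B R : Finset α), 0 ≤ b → P.CB B → F' ⊆ B → R ⊆ B →
          P.WStuck F' (fun e => w e - b) N B R →
          ∑ e ∈ R', (w e - b) ≤ ∑ e ∈ R, (w e - b) + ε / 2 * O := by
    intro n
    induction n with
    | zero =>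
      intro F B₀ R₀ _ _ _ _ _ h
      exact absurd (by simpa using h) (P.phi_nonneg hm0 F R₀).not_gt
    | succ n ih =>
      intro F B₀ R₀ hB₀ hF hR₀ hR hl hΦ
      by_cases good : ∀ (b : ℝ) (B R : Finset α), 0 ≤ b → P.CB B → F ⊆ B → R ⊆ B →
          P.WStuck F (fun e => w e - b) N B R →
          ∑ e ∈ R₀, (w e - b) ≤ ∑ e ∈ R, (w e - b) + ε / 2 * O
      · exact ⟨F, B₀, R₀, by omega, hB₀, hF, Subset.rfl, le_add_of_nonneg_right
          (mul_nonneg (by positivity) (P.phi_nonneg hm0 F R₀)), good⟩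
      push Not at good
      obtain ⟨b, B, R, hb, hB, hFB, hRB, st, gap⟩ := good
      obtain ⟨H, U, X, E, c1, c2, c3, c4, c5, c6, c7, c8, c9, c10⟩ := P.cut (m := m) (s := s)
        (δ := θ) (θ₁ := ε / 3) (θ₂ := θ) hB hB₀ hFB hF hRB hR₀ st h0 hm0 (fun e => by
          have : 0 ≤ O / #Rs := by positivity
          rw [hm, mul_add, mul_div_cancel₀ _ h0.ne', mul_one_div]
          linarith)
        ((sum_le_sum fun e _ => sub_le_self _ hb).trans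
          (hO ▸ sum_le_sum_of_subset_of_nonneg hR fun e _ _ => hw e)) (hm2 _ hR)
        (fun A _ hA => le_trans (Nat.le_floor (by
          have : 0 ≤ (∑ e ∈ A, w e) / O := div_nonneg (sum_nonneg fun e _ => hw e) h0.le
          rw [hmA] at hA
          rw [← div_le_iff₀ hk]
          linarith)) hN)
        (fun e he h => (hl e he h).trans (by linarith)) hθ hθ (by linarith) (by linarith)
        (by linarith) gap
      obtain ⟨F', B', R', d, d1, d2, d3, d4, d5, d6, d7, d8, d9⟩ := P.move (K := K) hB hB₀ hFB hF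
        hR₀ hm0 (hm2 _ hR) (by positivity) t0 t1 t2 t3 t4 hl (by nlinarith) c1 c2 c3 c4 c5 c6 c7
        c8 c9 c10
      obtain ⟨F'', B'', R'', e1, e2, e3, e4, e5, e6⟩ := ih F' B' R' d1 d3 d5 (d4.trans hR)
        (fun e he h => hl e (d4 he) fun h' => h (d2 h')) (by push_cast at hΦ; linarith)
      refine ⟨F'', B'', R'', by rw [add_mul, one_mul]; omega, e2, e3, e4.trans d4, ?_, e6⟩
      nlinarith
  have hΦ : P.Phi m (Rs.filter fun e => t 0 / 6 < m e) Rs ≤ 4 := (P.phi_le hm0 _ _).trans (by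
    have := hm2 _ Subset.rfl
    have := sum_nonneg fun e (_ : e ∈ Rs) => hm0 e
    nlinarith)
  obtain ⟨F, B₀, R', e1, e2, e3, e4, e5, e6⟩ := key n₀ (Rs.filter fun e => t 0 / 6 < m e) Bs Rs hBs
    ((filter_subset _ _).trans hRs) hRs Subset.rfl
    (fun e he h => not_lt.1 fun h' => h (mem_filter.2 ⟨he, h'⟩)) (by linarith)
  have hc : #(Rs.filter fun e => t 0 / 6 < m e) ≤ K := by
    have h1 := card_nsmul_le_sum (Rs.filter fun e => t 0 / 6 < m e) m (t 0 / 6)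
      fun e he => (mem_filter.1 he).2.le
    have h2 := hm2 _ (filter_subset (fun e => t 0 / 6 < m e) Rs)
    rw [nsmul_eq_mul] at h1
    exact_mod_cast (le_of_mul_le_mul_right (by linarith) t0 :
      (#(Rs.filter fun e => t 0 / 6 < m e) : ℝ) ≤ K)
  refine ⟨F, B₀, by omega, e2, e3, fun b B R hb hB hF hR st => ?_⟩
  have h1 := e6 b B R hb hB hF hR st
  have h2 : (#R' : ℝ) ≤ #Rs := by exact_mod_cast card_le_card e4
  have h3 : (#R' : ℝ) / #Rs ≤ 1 := (div_le_one hk).2 h2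
  rw [hmA, hmA, ← hO, div_self hk.ne', div_self h0.ne'] at e5
  have h4 : 1 - ε / 2 ≤ (∑ e ∈ R', w e) / O := by nlinarith
  rw [le_div_iff₀ h0] at h4
  rw [sum_sub_distrib, sum_const, nsmul_eq_mul] at h1
  nlinarith

end Pool.Agent.Lib.MP_1bbcfd_lc.PT
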