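import Pool.Agent.Lib.MP_1bbcfd_lc.PT.Loop
import Pool.Agent.Lib.MP_1bbcfd_lc.PT.Struct

/-! The approximation scheme. -/

namespace Pool.Agent.Lib.MP_1bbcfd_lc.PT

open Finset

section
variable {α : Type} [DecidableEq α] [Fintype α]

/-- the number of oracle calls for one guess -/
def cost (n W : ℕ) : ℕ :=
  (2 * n + 1) * (2 * (2 * n) ^ 2) + (n + 1) * (2 * n ^ 2) + ((n + 1) * W + 1) * (2 * n ^ 2)

/-- one guess: first base, a base that contains `F`, the loop -/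
theorem comp_guess (w : α → ℕ) (W k N : ℕ) (hW : ∀ e, w e ≤ W) (F : Finset α) :
    ∃ f : (Bool × Finset α → Bool) → Finset α, Comp (cost (Fintype.card α) W) f ∧
      ∀ P : Two α, (∃ B, P.CB B) → P.CB (f (oracle P.M₁ P.M₂)) ∧ ((∃ B, P.CB B ∧ F ⊆ B) →
        F ⊆ f (oracle P.M₁ P.M₂) ∧ ∀ G : ℝ, G ≤ k * W →
          (∀ (b : ℕ) (B R : Finset α), P.CB B → F ⊆ B → R ⊆ B →
            P.Stuck F (fun e => (w e : ℝ) - b) N B R → G - b * k ≤ ∑ e ∈ R, ((w e : ℝ) - b)) →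
          ∃ R ⊆ f (oracle P.M₁ P.M₂), #R ≤ k + N ∧ G - k ≤ ∑ e ∈ R, (w e : ℝ)) := by
  obtain ⟨f₁, c₁, h₁⟩ := comp_first (α := α)
  choose f₂ c₂ h₂ using fun B₀ : Finset α => comp_lin (α := α) id F B₀
  choose f₃ c₃ h₃ using fun B₀ : Finset α => comp_loop w W k N hW F B₀
  refine ⟨fun O => f₃ (f₂ (f₁ O) O) O, (c₁.bind c₂).bind c₃, fun P hP => ?_⟩
  have a := h₂ _ _ P (ans_oracle P _) (h₁ P hP)
  have b := h₃ _ P a.1
  refine ⟨b.1, fun ⟨B, hB, hF⟩ => b.2 ?_⟩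
  have c := a.2 B hB
  rw [inter_eq_right.2 hF] at c
  exact inter_eq_right.1 (eq_of_subset_of_card_le inter_subset_right c)

omit [DecidableEq α] in
/-- the best `k`-subset of a member of a family -/
theorem exists_best {ι : Type} (w : α → ℝ) (k : ℕ) : ∃ best : (ι → Finset α) → Finset α,
    ∀ h : ι → Finset α, (∃ i, k ≤ #(h i)) → #(best h) = k ∧ (∃ i, best h ⊆ h i) ∧
      ∀ i X, X ⊆ h i → #X = k → ∑ e ∈ X, w e ≤ ∑ e ∈ best h, w e := by
  classical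
  have H : ∀ h : ι → Finset α, ∃ Z : Finset α, (∃ i, k ≤ #(h i)) → #Z = k ∧ (∃ i, Z ⊆ h i) ∧
      ∀ i X, X ⊆ h i → #X = k → ∑ e ∈ X, w e ≤ ∑ e ∈ Z, w e := by
    intro h
    by_cases hh : ∃ i, k ≤ #(h i)
    · obtain ⟨i, hi⟩ := hh
      obtain ⟨X, hX, hk⟩ := exists_subset_card_eq hi
      obtain ⟨Z, hZ, hm⟩ := exists_max_image
        (univ.filter fun X : Finset α => #X = k ∧ ∃ i, X ⊆ h i) (fun X => ∑ e ∈ X, w e)
        ⟨X, mem_filter.2 ⟨mem_univ _, hk, i, hX⟩⟩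
      obtain ⟨_, a, b⟩ := mem_filter.1 hZ
      exact ⟨Z, fun _ => ⟨a, b, fun j Y hY hc => hm Y (mem_filter.2 ⟨mem_univ _, hc, j, hY⟩)⟩⟩
    · exact ⟨∅, fun a => absurd a hh⟩
  choose best hb using H
  exact ⟨best, hb⟩

/-- every small set is the set of values of a short sequence -/
theorem exists_seq (F : Finset α) {C : ℕ} (h : #F ≤ C) :
    ∃ φ : Fin C → Option α, (univ.filter fun e => ∃ i, φ i = some e) = F := by
  refine ⟨fun i => F.toList[i.1]?, ?_⟩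
  ext e
  simp only [mem_filter, mem_univ, true_and]
  constructor
  · rintro ⟨i, hi⟩
    exact mem_toList.1 (List.mem_of_getElem? hi)
  · intro he
    obtain ⟨i, hi, e1⟩ := List.getElem_of_mem (mem_toList.2 he)
    refine ⟨⟨i, lt_of_lt_of_le hi (by rw [length_toList]; exact h)⟩, ?_⟩
    rw [← e1]
    exact List.getElem?_eq_getElem hi

end

theorem numerics {δ u k N sY tY tR tX sX : ℝ} (hδ : 0 < δ) (hδ1 : δ ≤ 1) (hu : 0 ≤ u)
    (hk : 0 < k) (hN : N ≤ δ * k) (hY : 0 ≤ sY) (hX : 0 ≤ tX) (huk : u * k ≤ δ * sY)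
    (h1 : sY ≤ u * (tY + k)) (h2 : (1 - δ) * tY - k ≤ tR) (h3 : k * tR ≤ (k + N) * tX)
    (h4 : u * tX ≤ sX) : (1 - 4 * δ) * sY ≤ sX := by
  have a1 : tR ≤ (1 + δ) * tX := by
    refine le_of_mul_le_mul_left ?_ hk
    have := mul_le_mul_of_nonneg_right hN hX
    nlinarith
  have a2 : u * tR ≤ (1 + δ) * sX := by
    have := mul_le_mul_of_nonneg_left a1 hu
    have := mul_le_mul_of_nonneg_left h4 (by linarith : 0 ≤ 1 + δ)
    nlinarith
  have a3 : (1 - 3 * δ) * sY ≤ u * tR := by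
    have b1 := mul_le_mul_of_nonneg_left h2 hu
    have b2 := mul_le_mul_of_nonneg_left h1 (by linarith : 0 ≤ 1 - δ)
    have b3 : 0 ≤ δ * (u * k) := by positivity
    nlinarith
  refine le_of_mul_le_mul_left ?_ (by linarith : 0 < 1 + δ)
  have : 0 ≤ δ * δ * sY := by positivity
  nlinarith

theorem core (ε : ℝ) (hε : 0 < ε) : ∃ m C : ℕ, ∀ (α : Type) [DecidableEq α] [Fintype α]
    (w : α → ℝ) (k : ℕ), ∃ f : (Bool × Finset α → Bool) → Finset α,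
      Comp ((Fintype.card α + 1) * (Fintype.card α + 1) ^ C *
        cost (Fintype.card α) (m * Fintype.card α)) f ∧
      ∀ P : Two α, (∀ e, 0 ≤ w e) → (∃ B, P.CB B ∧ k ≤ #B) →
        #(f (oracle P.M₁ P.M₂)) = k ∧ (∃ B, P.CB B ∧ f (oracle P.M₁ P.M₂) ⊆ B) ∧
        ∀ Y Bs, P.CB Bs → Y ⊆ Bs → #Y = k →
          (1 - ε) * ∑ e ∈ Y, w e ≤ ∑ e ∈ f (oracle P.M₁ P.M₂), w e := by
  obtain ⟨m₀, hm₀⟩ := exists_nat_ge (4 / ε)
  have hm₁ : 0 < (m₀ : ℝ) := lt_of_lt_of_le (by positivity) hm₀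
  obtain ⟨C, hC⟩ := struct (1 / m₀) (by positivity)
  refine ⟨m₀, C + m₀, fun α _ _ w k => ?_⟩
  set W := m₀ * Fintype.card α with hWdef
  set N := max 1 ⌊1 / (m₀ : ℝ) * k⌋₊ with hNdef
  let v : Option α → α → ℕ := fun o e => min ⌊w e / (o.elim 0 w / W)⌋₊ W
  choose g cg hg using fun i : Option α × (Fin (C + m₀) → Option α) =>
    comp_guess (v i.1) W k N (fun e => min_le_right _ _) (univ.filter fun e => ∃ j, i.2 j = some e)
  obtain ⟨best, hb⟩ := exists_best (ι := Option α × (Fin (C + m₀) → Option α)) w k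
  refine ⟨fun O => best fun i => g i O, ?_, fun P hw ⟨B₁, hB₁, hk₁⟩ => ?_⟩
  · have := (Comp.pi cg).map best
    simpa only [Fintype.card_prod, Fintype.card_option, Fintype.card_fun, Fintype.card_fin]
      using this
  have hcb := fun i => (hg i P ⟨B₁, hB₁⟩).1
  have hkc : ∀ i, k ≤ #(g i (oracle P.M₁ P.M₂)) := fun i => by
    rw [← card_eq hB₁.1 (hcb i).1]; exact hk₁
  obtain ⟨b1, ⟨i₀, b2⟩, b3⟩ := hb (fun i => g i (oracle P.M₁ P.M₂)) ⟨(none, fun _ => none), hkc _⟩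
  refine ⟨b1, ⟨_, hcb i₀, b2⟩, fun Y Bs hBs hY hYk => ?_⟩
  have hY0 : 0 ≤ ∑ e ∈ Y, w e := sum_nonneg fun e _ => hw e
  by_cases hkm : k ≤ m₀
  · obtain ⟨φ, hφ⟩ := exists_seq Y (C := C + m₀) (by omega)
    have h := ((hg (none, φ) P ⟨B₁, hB₁⟩).2 ⟨Bs, hBs, by rw [hφ]; exact hY⟩).1
    rw [hφ] at h
    have := b3 _ Y h hYk
    nlinarith
  have hmk : (m₀ : ℝ) < k := by exact_mod_cast not_le.1 hkm
  have hk0 : (0 : ℝ) < k := hm₁.trans hmk
  obtain ⟨e₀, he₀, hmax⟩ := exists_max_image Y w (card_pos.1 (by omega))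
  rcases (hw e₀).eq_or_lt with h0 | h0
  · have : ∑ e ∈ Y, w e = 0 :=
      sum_eq_zero fun e he => le_antisymm (h0 ▸ hmax e he) (hw e)
    rw [this, mul_zero]
    exact sum_nonneg fun e _ => hw e
  have hkn : (k : ℝ) ≤ Fintype.card α := by exact_mod_cast hYk ▸ card_le_univ Y
  have hWr : (W : ℝ) = m₀ * Fintype.card α := by rw [hWdef, Nat.cast_mul]
  have hW0 : (0 : ℝ) < W := by rw [hWr]; exact mul_pos hm₁ (hk0.trans_le hkn)
  set u := w e₀ / W with hu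
  have hu0 : 0 < u := div_pos h0 hW0
  have hv : ∀ e, v (some e₀) e = min ⌊w e / u⌋₊ W := fun e => rfl
  have hv1 : ∀ e, u * v (some e₀) e ≤ w e := fun e => by
    have a : ((v (some e₀) e : ℕ) : ℝ) ≤ ⌊w e / u⌋₊ := by exact_mod_cast min_le_left _ _
    have b := Nat.floor_le (div_nonneg (hw e) hu0.le)
    have c := (le_div_iff₀ hu0).1 (a.trans b)
    linarith
  have hv2 : ∀ e ∈ Y, w e ≤ u * (v (some e₀) e + 1) := fun e he => by
    have a : w e / u ≤ W := by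
      rw [div_le_iff₀ hu0, hu, mul_div_cancel₀ _ hW0.ne']
      exact hmax e he
    have b : v (some e₀) e = ⌊w e / u⌋₊ := by
      rw [hv]; exact min_eq_left (Nat.floor_le_of_le a)
    have c := (div_lt_iff₀ hu0).1 (Nat.lt_floor_add_one (w e / u))
    rw [b]; linarith
  obtain ⟨F, B₀, hFC, hB₀, hF, hs⟩ := hC α P (fun e => (v (some e₀) e : ℝ)) N Bs Y
    (fun e => Nat.cast_nonneg _) hBs hY (by rw [hYk]; exact le_max_right _ _)
  obtain ⟨φ, hφ⟩ := exists_seq F (C := C + m₀) (by omega)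
  have h := (hg (some e₀, φ) P ⟨B₁, hB₁⟩).2
  simp only [hφ] at h
  have hδ1 : 1 / (m₀ : ℝ) ≤ 1 := by
    rw [div_le_one hm₁]; exact_mod_cast (by exact_mod_cast hm₁ : 0 < m₀)
  have hδ0 : 0 < 1 / (m₀ : ℝ) := by positivity
  obtain ⟨R, hR, hRc, hRs⟩ := (h ⟨B₀, hB₀, hF⟩).2
    ((1 - 1 / (m₀ : ℝ)) * ∑ e ∈ Y, (v (some e₀) e : ℝ)) (by
      have a : ∑ e ∈ Y, (v (some e₀) e : ℝ) ≤ #Y • (W : ℝ) :=
        sum_le_card_nsmul _ _ _ fun e _ => by exact_mod_cast min_le_right _ _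
      have b : 0 ≤ ∑ e ∈ Y, (v (some e₀) e : ℝ) := sum_nonneg fun e _ => Nat.cast_nonneg _
      rw [hYk, nsmul_eq_mul] at a
      nlinarith)
    (fun b B R hB hFB hRB st => by
      have := hs b B R (Nat.cast_nonneg _) hB hFB hRB (st.weak hFB hRB (le_max_left _ _))
      rwa [hYk] at this)
  obtain ⟨X, hX, hXk, hXs⟩ := exists_top (fun e => (v (some e₀) e : ℝ))
    (fun e => Nat.cast_nonneg _) hR (hkc _) hRc
  have hNk : (N : ℝ) ≤ 1 / (m₀ : ℝ) * k := by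
    have a : (1 : ℝ) ≤ 1 / (m₀ : ℝ) * k := by
      rw [one_div_mul_eq_div, le_div_iff₀ hm₁]; linarith
    rw [hNdef, Nat.cast_max, Nat.cast_one]
    exact max_le a (Nat.floor_le (by positivity))
  have huk : u * k ≤ 1 / (m₀ : ℝ) * ∑ e ∈ Y, w e := by
    have a : w e₀ ≤ ∑ e ∈ Y, w e := single_le_sum (fun e _ => hw e) he₀
    have b : u * Fintype.card α = 1 / (m₀ : ℝ) * w e₀ := by
      have : (0 : ℝ) < Fintype.card α := hk0.trans_le hkn
      rw [hu, hWr]; field_simp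
    have c := mul_le_mul_of_nonneg_left hkn hu0.le
    have d := mul_le_mul_of_nonneg_left a hδ0.le
    linarith
  have key := numerics (sX := ∑ e ∈ X, w e) hδ0 hδ1 hu0.le hk0 hNk hY0
    (sum_nonneg fun e _ => Nat.cast_nonneg _) huk (by
      have := sum_le_sum hv2
      rwa [← mul_sum, sum_add_distrib, sum_const, hYk, nsmul_eq_mul, mul_one] at this)
    hRs hXs (by rw [mul_sum]; exact sum_le_sum fun e _ => hv1 e)
  have h4 : 4 * (1 / (m₀ : ℝ)) ≤ ε := by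
    rw [mul_one_div, div_le_iff₀ hm₁]
    have := (div_le_iff₀ hε).1 hm₀
    linarith
  have := b3 _ X hX hXk
  nlinarith

theorem main (ε : ℝ) (hε : 0 < ε) :
    ∃ (A : (n : ℕ) → (Fin n → ℚ) → ℕ → Procedure (Fin n)) (p : Polynomial ℕ),
      ∀ (n : ℕ) (M₁ M₂ : Matroid (Fin n)) (w : Fin n → ℚ) (k : ℕ),
        M₁.E = Set.univ → M₂.E = Set.univ → (∀ e, 0 ≤ w e) →
        (∃ B : Finset (Fin n), M₁.IsBase (B : Set (Fin n)) ∧ M₂.IsBase (B : Set (Fin n)) ∧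
          k ≤ B.card) →
        ∃ X : Finset (Fin n), run (A n w k) (oracle M₁ M₂) (p.eval n) [] = some X ∧
          Feasible M₁ M₂ k X ∧ ∀ Y : Finset (Fin n), Feasible M₁ M₂ k Y →
            (1 - ε) * ((∑ e ∈ Y, w e : ℚ) : ℝ) ≤ ((∑ e ∈ X, w e : ℚ) : ℝ) := by
  obtain ⟨m, C, h⟩ := core ε hε
  choose f cf hf using fun (n : ℕ) (w : Fin n → ℚ) (k : ℕ) => h (Fin n) (fun e => (w e : ℝ)) k
  choose A hA using fun n w k => (cf n w k).proc
  refine ⟨A, (Polynomial.X + 1) * (Polynomial.X + 1) ^ C *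
    ((2 * Polynomial.X + 1) * (2 * (2 * Polynomial.X) ^ 2) +
      (Polynomial.X + 1) * (2 * Polynomial.X ^ 2) +
      ((Polynomial.X + 1) * (Polynomial.C m * Polynomial.X) + 1) * (2 * Polynomial.X ^ 2)),
    fun n M₁ M₂ w k e₁ e₂ hw ⟨B, h₁, h₂, hk⟩ => ?_⟩
  obtain ⟨a, ⟨B', hB', b⟩, c⟩ := hf n w k ⟨M₁, M₂, e₁, e₂⟩ (fun e => by exact_mod_cast hw e)
    ⟨B, ⟨h₁, h₂⟩, hk⟩
  refine ⟨f n w k (oracle M₁ M₂), ?_, ⟨a, B', hB'.1, hB'.2, coe_subset.2 b⟩,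
    fun Y ⟨hY, S, s₁, s₂, s₃⟩ => ?_⟩
  · have := hA n w k (oracle M₁ M₂)
    simpa only [Fintype.card_fin, cost, Polynomial.eval_mul, Polynomial.eval_add,
      Polynomial.eval_pow, Polynomial.eval_X, Polynomial.eval_one, Polynomial.eval_C,
      Polynomial.eval_ofNat] using this
  · lift S to Finset (Fin n) using S.toFinite
    have := c Y S ⟨s₁, s₂⟩ (coe_subset.1 s₃) hY
    push_cast
    exact this

end Pool.Agent.Lib.MP_1bbcfd_lc.PT
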