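import Pool.Agent.Lib.MP_1bbcfd_lc.PT.MTop
import Pool.Agent.Lib.MP_1bbcfd_lc.PT.Main

/-!
The approximation scheme: all guesses are run side by side.
-/

set_option autoImplicit false

namespace Pool.Agent.Lib.MP_1bbcfd_lc.PM

open Finset Pool.Agent.Shared.PolyTime Polynomial Enc

/-- One round for all the guesses. -/
def upd (n N k Q : ℕ) (T : Wt) (G : List (List ℕ)) (j : ℕ) (st : List (ℕ × Vec))
    (a : List Bool) : List (ℕ × Vec) :=
  (List.range G.length).map fun i => cond (Nat.blt j (n * (n + 2) + 1))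
    (Q, step0 n (G.getD i []).tail a (i * ((n + n) * (n + n))) (st.getD i (0, [])).2)
    (step1 n N k Q (scale n Q T ((G.getD i []).take 1)) (G.getD i []).tail a
      (i * ((n + n) * (n + n))) (st.getD i (0, [])))

/-- The questions of a round. -/
def qf (n : ℕ) (st : List (ℕ × Vec)) (i : ℕ) : Bool × List ℕ :=
  qy n (st.getD (i / ((n + n) * (n + n))) (0, [])).2 (i % ((n + n) * (n + n)) / (n + n))
    (i % (n + n))

/-- The elements of the final bases. -/
def used (n : ℕ) (st : List (ℕ × Vec)) : List ℕ :=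
  (List.range n).filter fun x => st.any fun s => inB s.2 x

/-- The output. -/
def out (n k Q : ℕ) (T : Wt) (st : List (ℕ × Vec)) : List ℕ :=
  best (scale n Q T (used n st)) (st.map fun s => top n k (scale n Q T (used n st)) s.2)

/-- The control of the algorithm. -/
def alg (q C : ℕ) (p : ℕ × ℕ × Wt × List Bool) : Bool × Bool × List ℕ :=
  ctl ((tups p.1 (C + 1)).length * ((p.1 + p.1) * (p.1 + p.1)) + 1)
    (p.1 * (p.1 + 2) + 1 + (p.1 * (p.2.1 * q) + p.2.1 * q + 1))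
    (upd p.1 (p.2.1 / q + 1) p.2.1 (p.2.1 * q) p.2.2.1 (tups p.1 (C + 1))) (qf p.1)
    (out p.1 p.2.1 (p.2.1 * q) p.2.2.1) ((tups p.1 (C + 1)).map fun _ => (p.2.1 * q, v0 p.1))
    p.2.2.2

theorem pf_alg (q C : ℕ) : PF (alg q C) := by
  unfold alg
  refine pf_ctl (by fun_prop) (by fun_prop) (by fun_prop) (by fun_prop) ?_ ?_ ?_ ?_
  · unfold upd
    fun_prop
  · unfold qf
    fun_prop
  · unfold out used
    fun_prop
  · obtain ⟨r, hr⟩ := PF.size (f := fun p : ℕ × ℕ × Wt × List Bool =>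
      (tups p.1 (C + 1)).length + p.2.1 * q + p.1) (by fun_prop)
    refine ⟨r * (2 * (20 * r + 1) + 1), fun a j s l => ?_⟩
    have h0 := hr a _ le_rfl
    rw [len_nat] at h0
    simp only [eval_add, eval_mul, eval_ofNat, eval_one]
    generalize eval (enc a).length r = P at h0
    refine (len_le_mul _ (20 * P + 1) fun x hx => ?_).trans
      (Nat.mul_le_mul_right _ (by simp [upd]; omega))
    obtain ⟨i, -, rfl⟩ := List.mem_map.1 hx
    cases Nat.blt j (a.1 * (a.1 + 2) + 1)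
    · rw [cond_false, step1, len_prod, len_nat]
      refine le_trans (Nat.add_le_add_right (Nat.add_le_add
        (Nat.mul_le_mul_left 2 (min_le_right _ _)) (len_app _ _)) 1) (by omega)
    · rw [cond_true, step0, len_prod, len_nat]
      refine le_trans (Nat.add_le_add_right (Nat.add_le_add_left (len_app _ _) _) 1) (by omega)

variable {n : ℕ} {M₁ M₂ : Matroid (Fin n)}

theorem final_spec (h₁ : M₁.E = Set.univ) (h₂ : M₂.E = Set.univ) {B₀ : Finset (Fin n)}
    (hB₀ : CB M₁ M₂ B₀) (N k Q : ℕ) (T : Wt) (G : List (List ℕ)) {st : List (ℕ × Vec)}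
    (hst : st = traj (G.length * ((n + n) * (n + n)) + 1) (upd n N k Q T G) (qf n)
      (fun p => oracle M₁ M₂ (p.1, dec n p.2)) (G.map fun _ => (Q, v0 n))
      (n * (n + 2) + 1 + (n * Q + Q + 1))) :
    st.length = G.length ∧ ∀ i < G.length, ∃ B R, CB M₁ M₂ B ∧ Rep (st.getD i (0, [])).2 B R ∧
      R ⊆ B ∧ #R ≤ k + N ∧ ∀ B', CB M₁ M₂ B' → dec n (G.getD i []).tail ⊆ B' →
        dec n (G.getD i []).tail ⊆ B ∧ ∀ X : ℝ, X ≤ Q * k →
        (∀ (b : ℕ) (B R : Finset (Fin n)), CB M₁ M₂ B → dec n (G.getD i []).tail ⊆ B → R ⊆ B →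
          Stuck M₁ M₂ (fun x => (scale n Q T ((G.getD i []).take 1)).getD x 0)
            (dec n (G.getD i []).tail) b N R →
          X - b * k ≤ ∑ x ∈ R, (((scale n Q T ((G.getD i []).take 1)).getD x 0 : ℝ) - b)) →
        X - k ≤ ∑ x ∈ R, ((scale n Q T ((G.getD i []).take 1)).getD x 0 : ℝ) := by
  refine ⟨by rw [hst, ← add_assoc, traj, upd]; simp, fun i hi => ?_⟩
  set tr := traj (G.length * ((n + n) * (n + n)) + 1) (upd n N k Q T G) (qf n)
    (fun p => oracle M₁ M₂ (p.1, dec n p.2)) (G.map fun _ => (Q, v0 n)) with htr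
  set W := scale n Q T ((G.getD i []).take 1) with hW
  set F := (G.getD i []).tail with hF
  have hs : ∀ j, ∃ a o, Ans M₁ M₂ a o ((tr j).getD i (0, [])).2 ∧ (tr (j + 1)).getD i (0, []) =
      cond (Nat.blt j (n * (n + 2) + 1)) (Q, step0 n F a o ((tr j).getD i (0, [])).2)
        (step1 n N k Q W F a o ((tr j).getD i (0, []))) := by
    intro j
    refine ⟨(List.range (G.length * ((n + n) * (n + n)) + 1)).map fun i =>
      oracle M₁ M₂ ((qf n (tr j) i).1, dec n (qf n (tr j) i).2), i * ((n + n) * (n + n)),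
      fun u hu y hy => ?_, ?_⟩
    · have e0 : u * (n + n) + y < (n + n) * (n + n) := by
        have := Nat.mul_le_mul_right (n + n) (Nat.succ_le_of_lt hu)
        rw [Nat.succ_mul] at this
        omega
      have e1 : i * ((n + n) * (n + n)) + u * (n + n) + y <
          G.length * ((n + n) * (n + n)) + 1 := by
        have := Nat.mul_le_mul_right ((n + n) * (n + n)) (Nat.succ_le_of_lt hi)
        rw [Nat.succ_mul] at this
        omega
      have e2 : (i * ((n + n) * (n + n)) + u * (n + n) + y) / ((n + n) * (n + n)) = i := by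
        rw [add_assoc, mul_comm i, Nat.mul_add_div (by omega), Nat.div_eq_of_lt e0, add_zero]
      have e3 : (i * ((n + n) * (n + n)) + u * (n + n) + y) % ((n + n) * (n + n)) / (n + n) = u := by
        rw [add_assoc, mul_comm i, Nat.mul_add_mod, Nat.mod_eq_of_lt e0, mul_comm u,
          Nat.mul_add_div (by omega), Nat.div_eq_of_lt hy, add_zero]
      have e4 : (i * ((n + n) * (n + n)) + u * (n + n) + y) % (n + n) = y := by
        rw [← mul_assoc, ← add_mul, mul_comm, Nat.mul_add_mod, Nat.mod_eq_of_lt hy]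
      rw [List.getD_eq_getElem?_getD, List.getElem?_map, List.getElem?_range e1, Option.map_some,
        Option.getD_some, qf, e2, e3, e4]
    · rw [htr, traj, upd, List.getD_eq_getElem?_getD, List.getElem?_map, List.getElem?_range hi,
        Option.map_some, Option.getD_some]
  have hlt : ∀ j < n * (n + 2) + 1, Nat.blt j (n * (n + 2) + 1) = true := fun j hj => by
    simpa [Nat.blt_eq] using hj
  obtain ⟨B₁, e1, e2, e3⟩ := phase0 h₁ h₂ hB₀ F (fun j => ((tr j).getD i (0, [])).2)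
    (by simp [htr, traj, List.getD_eq_getElem?_getD, hi]) fun j hj => by
      obtain ⟨a, o, f1, f2⟩ := hs j
      exact ⟨a, o, f1, by rw [f2, hlt j hj, cond_true]⟩
  obtain ⟨B, R, g1, g2, g3, g4, g5, g6⟩ := phase1 h₁ h₂ (N := N) (k := k) (W := W)
    (scale_le Q T _) F e1 (fun j => (tr (n * (n + 2) + 1 + j)).getD i (0, []))
    (by
      obtain ⟨a, o, -, f2⟩ := hs (n * (n + 2))
      rw [add_zero, f2, hlt _ (Nat.lt_succ_self _), cond_true]) e2 (fun j => by
      obtain ⟨a, o, f1, f2⟩ := hs (n * (n + 2) + 1 + j)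
      refine ⟨a, o, f1, ?_⟩
      rw [← add_assoc, f2, show Nat.blt (n * (n + 2) + 1 + j) (n * (n + 2) + 1) = false by
        rw [Bool.eq_false_iff, Ne, Nat.blt_eq]; omega, cond_false]) (n * Q + Q + 1)
  rw [← hst] at g2 g4 g6
  refine ⟨B, R, g1, g2, g3, g5, fun B' f1 f2 => ⟨(g6 (e3 B' f1 f2)).1, fun X hX hK => ?_⟩⟩
  obtain ⟨g7, g8⟩ := (g6 (e3 B' f1 f2)).2 X hX hK
  generalize (st.getD i (0, [])).1 = b at g4 g7 g8
  rw [sum_sub_distrib, sum_const, nsmul_eq_mul] at g7 g8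
  have hb : (0 : ℝ) ≤ b := Nat.cast_nonneg b
  rcases g8 with g8 | ⟨rfl, g8⟩ | g8
  · have : (k : ℝ) ≤ #R := by exact_mod_cast g8.le
    nlinarith
  · simp only [Nat.cast_zero, mul_zero, sub_zero] at g8
    linarith [(Nat.cast_nonneg k : (0 : ℝ) ≤ k)]
  · have k1 : ∑ x ∈ R, W.getD x 0 ≤ n * Q :=
      (sum_le_card_nsmul R _ Q fun x _ => scale_le Q T _ x).trans
        (Nat.mul_le_mul_right Q (by simpa using card_le_univ R))
    have k2 : ∑ x ∈ R, (W.getD x 0 : ℝ) ≤ n * Q := by exact_mod_cast k1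
    have k3 : (0 : ℝ) ≤ #R * b := by positivity
    push_cast at g8
    linarith

theorem dec_toList (F : Finset (Fin n)) : dec n (F.toList.map Fin.val) = F := by
  ext x
  simp [dec, Fin.val_inj]

theorem out_spec (q : ℕ) (hq : 2 ≤ q) : ∃ C : ℕ, ∀ (n : ℕ) (M₁ M₂ : Matroid (Fin n))
    (w : Fin n → ℚ≥0) (k : ℕ) (B₀ : Finset (Fin n)) (st : List (ℕ × Vec)),
    M₁.E = Set.univ → M₂.E = Set.univ → CB M₁ M₂ B₀ → k ≤ #B₀ →
    st = traj ((tups n (C + 1)).length * ((n + n) * (n + n)) + 1)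
      (upd n (k / q + 1) k (k * q) (wts w) (tups n (C + 1))) (qf n)
      (fun p => oracle M₁ M₂ (p.1, dec n p.2)) ((tups n (C + 1)).map fun _ => (k * q, v0 n))
      (n * (n + 2) + 1 + (n * (k * q) + k * q + 1)) →
    #(dec n (out n k (k * q) (wts w) st)) = k ∧
      (∃ B, CB M₁ M₂ B ∧ dec n (out n k (k * q) (wts w) st) ⊆ B) ∧
      ∀ Y BY : Finset (Fin n), CB M₁ M₂ BY → Y ⊆ BY → #Y = k →
        (1 - 4 * (2 / (q : ℝ))) * ∑ x ∈ Y, (w x : ℝ) ≤
          ∑ x ∈ dec n (out n k (k * q) (wts w) st), (w x : ℝ) := by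
  classical
  have hq0 : (0 : ℝ) < q := by positivity
  have hq2 : (2 : ℝ) ≤ q := by exact_mod_cast hq
  obtain ⟨C, hC⟩ := key (1 / q) (by positivity)
  refine ⟨C + q, fun n M₁ M₂ w k B₀ st h₁ h₂ hB₀ hk hst => ?_⟩
  obtain ⟨e1, e2⟩ := final_spec h₁ h₂ hB₀ _ _ _ _ _ hst
  set G := tups n (C + q + 1) with hG
  set W := scale n (k * q) (wts w) (used n st) with hW
  have e3 : ∀ s ∈ st, ∃ i < G.length, st.getD i (0, []) = s := fun s hs => by
    obtain ⟨i, hi, rfl⟩ := List.getElem_of_mem hs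
    exact ⟨i, e1 ▸ hi, by simp [List.getD_eq_getElem?_getD, hi]⟩
  have e4 : ∀ g ∈ G, ∃ i < G.length, G.getD i [] = g ∧ st.getD i (0, []) ∈ st := fun g hg => by
    obtain ⟨i, hi, rfl⟩ := List.getElem_of_mem hg
    exact ⟨i, hi, by simp [List.getD_eq_getElem?_getD, hi],
      by simp [List.getD_eq_getElem?_getD, e1, hi]⟩
  obtain ⟨e5, e6⟩ := best_spec W (C := st.map fun s => top n k W s.2) (by
    obtain ⟨i, -, -, h⟩ := e4 [] (mem_tups _ _ _ (by simp) (by simp))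
    simpa using List.ne_nil_of_mem h)
  change out n k (k * q) (wts w) st ∈ _ at e5
  change ∀ c ∈ _, _ ≤ wsum W (out n k (k * q) (wts w) st) at e6
  obtain ⟨s₀, e7, e8⟩ := List.mem_map.1 e5
  rw [← e8] at e6 ⊢
  obtain ⟨i₀, hi₀, rfl⟩ := e3 s₀ e7
  obtain ⟨BX, RX, f1, f2, -⟩ := e2 i₀ hi₀
  have hcard : ∀ B, CB M₁ M₂ B → k ≤ #B := fun B hB => PT.Kit.card_eq_of_base hB₀.1 hB.1 ▸ hk
  obtain ⟨f3, f4, -⟩ := top_spec W f2 (hcard _ f1)
  refine ⟨f4, ⟨BX, f1, f3⟩, fun Y BY hY hYB hYk => ?_⟩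
  have e9 : ∀ s ∈ st, ∑ x ∈ dec n (top n k W s.2), (W.getD x 0 : ℝ) ≤
      ∑ x ∈ dec n (top n k W (st.getD i₀ (0, [])).2), (W.getD x 0 : ℝ) := fun s hs => by
    have := e6 _ (List.mem_map_of_mem hs)
    rw [top, top, wsum_filter, wsum_filter] at this
    exact_mod_cast this
  generalize dec n (top n k W (st.getD i₀ (0, [])).2) = X at f3 f4 e9 ⊢
  have hw : ∀ Z : Finset (Fin n), (0 : ℝ) ≤ ∑ x ∈ Z, (w x : ℝ) := fun Z =>
    sum_nonneg fun x _ => NNRat.cast_nonneg _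
  rcases Nat.eq_zero_or_pos k with hk0 | hk0
  · rw [card_eq_zero.1 (hYk.trans hk0), sum_empty, mul_zero]
    exact hw X
  obtain ⟨e, he, hm⟩ := exists_max_image (univ.filter fun x => ∃ B, CB M₁ M₂ B ∧ x ∈ B) w (by
    obtain ⟨x, hx⟩ := card_pos.1 (hk0.trans_le hk)
    exact ⟨x, mem_filter.2 ⟨mem_univ _, B₀, hB₀, hx⟩⟩)
  obtain ⟨Be, hBe, heB⟩ := (mem_filter.1 he).2
  have hm' : ∀ B, CB M₁ M₂ B → ∀ x ∈ B, w x ≤ w e := fun B hB x hx =>
    hm x (mem_filter.2 ⟨mem_univ _, B, hB, hx⟩)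
  let c : Fin n → ℕ := fun x =>
    (List.range (k * q)).countP fun j : ℕ => decide (((j : ℝ) + 1) * w e ≤ (k * q : ℕ) * w x)
  have g0 : ∀ F : Finset (Fin n), #F ≤ C + q → (e : ℕ) :: F.toList.map Fin.val ∈ G :=
    fun F hF => mem_tups _ _ _ (by simpa using hF) (by simp)
  have g1 : ∀ x : Fin n, W.getD x 0 = c x := by
    refine scale_eq w _ ?_ fun f hf => ?_
    · obtain ⟨i, hi, k1, k2⟩ := e4 _ (g0 {e} (by simp; omega))
      obtain ⟨B, R, k3, k4, -, -, k5⟩ := e2 i hi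
      rw [k1, List.tail_cons, dec_toList] at k5
      refine List.mem_filter.2 ⟨List.mem_range.2 e.2, List.any_eq_true.2 ⟨_, k2, ?_⟩⟩
      rw [(k4 e).1]
      exact decide_eq_true ((k5 Be hBe (by simpa using heB)).1 (mem_singleton_self e))
    · obtain ⟨k1, k2⟩ := List.mem_filter.1 hf
      obtain ⟨s, k3, k4⟩ := List.any_eq_true.1 k2
      obtain ⟨i, hi, rfl⟩ := e3 s k3
      obtain ⟨B, R, k5, k6, -⟩ := e2 i hi
      exact ⟨⟨f, List.mem_range.1 k1⟩, rfl, hm' B k5 _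
        (of_decide_eq_true ((k6 ⟨f, List.mem_range.1 k1⟩).1 ▸ k4))⟩
  have g2 : ∀ x : Fin n, (scale n (k * q) (wts w) [(e : ℕ)]).getD x 0 = c x :=
    scale_eq w _ (by simp) fun f hf => ⟨e, by simpa using hf, le_rfl⟩
  have g3 := fun x : Fin n => round_spec (k * q) (a := w e) (z := w x) (NNRat.cast_nonneg _)
    (NNRat.cast_nonneg _)
  have hkq : (0 : ℝ) < (k * q : ℕ) := by positivity
  have hkr : (0 : ℝ) < k := by exact_mod_cast hk0
  simp only [g1] at e9
  have main : ∀ Y BY : Finset (Fin n), CB M₁ M₂ BY → Y ⊆ BY → #Y = k →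
      (w e : ℝ) ≤ ∑ x ∈ Y, (w x : ℝ) →
      (1 - 4 * (2 / (q : ℝ))) * ∑ x ∈ Y, (w x : ℝ) ≤ ∑ x ∈ X, (w x : ℝ) := by
    intro Y BY hY hYB hYk hYe
    have hc : ∀ Z : Finset (Fin n), (0 : ℝ) ≤ ∑ x ∈ Z, (c x : ℝ) := fun Z =>
      sum_nonneg fun x _ => Nat.cast_nonneg _
    obtain ⟨N, t, k1, k2, k3⟩ : ∃ N t : ℝ, N ≤ 2 / q * k ∧
        (1 - 2 / q) * ∑ x ∈ Y, (c x : ℝ) - k ≤ t ∧ k * t ≤ (k + N) * ∑ x ∈ X, (c x : ℝ) := by
      by_cases hs : k < q
      · obtain ⟨i, hi, k1, k2⟩ := e4 _ (g0 Y (by omega))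
        obtain ⟨B, R, k3, k4, -, -, k5⟩ := e2 i hi
        rw [k1, List.tail_cons, dec_toList] at k5
        have k6 := (top_spec W k4 (hcard _ k3)).2.2 Y (k5 BY hY hYB).1 0 (by omega)
        simp only [g1, Nat.cast_zero] at k6
        refine ⟨0, ∑ x ∈ Y, (c x : ℝ), by positivity, ?_,
          k6.trans (mul_le_mul_of_nonneg_left (e9 _ k2) (by positivity))⟩
        nlinarith [mul_nonneg (show (0 : ℝ) ≤ 2 / q by positivity) (hc Y)]
      · obtain ⟨F, BF, k1, k2, k3, k4⟩ := hC _ M₁ M₂ h₁ h₂ c (k / q + 1) Y BY hY hYB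
          (Nat.le_add_left _ _) (by
            rw [hYk, one_div, inv_mul_eq_div, Nat.floor_div_eq_div]
            exact Nat.le_succ _)
        obtain ⟨i, hi, k5, k6⟩ := e4 _ (g0 F (by omega))
        obtain ⟨B, R, k7, k8, k9, k10, k11⟩ := e2 i hi
        rw [k5, List.tail_cons, dec_toList, List.take_succ_cons, List.take_zero] at k11
        simp only [g2] at k11
        have k12 : ∑ x ∈ Y, (c x : ℝ) ≤ (k * q : ℕ) * k := by
          have := sum_le_card_nsmul Y c (k * q) fun x _ => g1 x ▸ scale_le _ _ _ _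
          rw [hYk, smul_eq_mul, mul_comm] at this
          exact_mod_cast this
        have k13 : (0 : ℝ) ≤ 1 / q * ∑ x ∈ Y, (c x : ℝ) := mul_nonneg (by positivity) (hc Y)
        have k14 := (k11 BF k2 k3).2 ((1 - 1 / q) * ∑ x ∈ Y, (c x : ℝ)) (by linarith)
          (by rw [hYk] at k4; exact k4)
        have k15 := (top_spec W k8 (hcard _ k7)).2.2 R k9 _ k10
        simp only [g1] at k15
        refine ⟨(k / q + 1 : ℕ), ∑ x ∈ R, (c x : ℝ), ?_, ?_,
          k15.trans (mul_le_mul_of_nonneg_left (e9 _ k6) (by positivity))⟩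
        · have k16 : ((k / q : ℕ) : ℝ) ≤ k / q := Nat.cast_div_le
          have k17 : (1 : ℝ) ≤ k / q := (one_le_div hq0).2 (by exact_mod_cast not_lt.1 hs)
          push_cast
          linarith [show 2 / (q : ℝ) * k = 2 * (k / q) by ring]
        · linarith [show (2 : ℝ) / q * ∑ x ∈ Y, (c x : ℝ) =
            2 * (1 / q * ∑ x ∈ Y, (c x : ℝ)) by ring]
    refine PT.numerics (u := w e / (k * q : ℕ)) (by positivity) ((div_le_one hq0).2 hq2)
      (div_nonneg (NNRat.cast_nonneg _) hkq.le) hkr k1 (hw Y) (hc X) ?_ ?_ k2 k3 ?_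
    · have k4 : (w e : ℝ) / (k * q : ℕ) * k = 1 / q * w e := by
        push_cast
        field_simp
      rw [k4]
      exact mul_le_mul (by gcongr; norm_num) hYe (NNRat.cast_nonneg _) (by positivity)
    · rw [div_mul_eq_mul_div, le_div_iff₀ hkq, sum_mul, ← hYk, card_eq_sum_ones Y, Nat.cast_sum,
        ← sum_add_distrib, mul_sum, ← card_eq_sum_ones, hYk]
      refine sum_le_sum fun x hx => ?_
      have := (g3 x).2 (by exact_mod_cast hm' BY hY x (hYB hx))
      push_cast at this ⊢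
      simp only [c]
      push_cast
      linarith
    · rw [div_mul_eq_mul_div, div_le_iff₀ hkq, sum_mul, mul_sum]
      refine sum_le_sum fun x _ => ?_
      have := (g3 x).1
      simp only [c]
      linarith
  by_cases hYe : (w e : ℝ) ≤ ∑ x ∈ Y, (w x : ℝ)
  · exact main Y BY hY hYB hYk hYe
  obtain ⟨Y', k1, k2, k3⟩ := exists_subsuperset_card_eq (singleton_subset_iff.2 heB)
    (by rw [card_singleton]; exact hk0 : #({e} : Finset (Fin n)) ≤ k) (hcard _ hBe)
  have k4 : (w e : ℝ) ≤ ∑ x ∈ Y', (w x : ℝ) :=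
    single_le_sum (f := fun x => (w x : ℝ)) (fun x _ => NNRat.cast_nonneg _)
      (k1 (mem_singleton_self e))
  have k5 := main Y' Be hBe k2 k3 k4
  rcases le_total 0 (1 - 4 * (2 / (q : ℝ))) with k6 | k6
  · exact (mul_le_mul_of_nonneg_left (by linarith) k6).trans k5
  · exact (mul_nonpos_of_nonpos_of_nonneg k6 (hw Y)).trans (hw X)

theorem code_eq (p : Input × List Bool) : inCode p = enc (p.1.n, p.1.k, wts p.1.w, p.2) := by
  rw [inCode, enc_prod, enc_prod, enc_prod, wts]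
  congr 3
  exact MP_be0860_lc.encList_ofFn fun _ => rfl

theorem main (ε : ℝ) (hε : 0 < ε) :
    ∃ (σ : Input × List Bool → Bool × Bool × List ℕ) (p : Polynomial ℕ),
      Nonempty (Turing.TM2ComputableInPolyTime inCode actCode σ) ∧
      ∀ (I : Input) (M₁ M₂ : Matroid (Fin I.n)), M₁.E = Set.univ → M₂.E = Set.univ →
        (∃ B : Finset (Fin I.n), M₁.IsBase (B : Set (Fin I.n)) ∧ M₂.IsBase (B : Set (Fin I.n)) ∧
          I.k ≤ B.card) →
        ∃ X : Finset (Fin I.n), run (control σ I) (oracle M₁ M₂) (p.eval I.n) [] = some X ∧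
          Feasible M₁ M₂ I.k X ∧ ∀ Y : Finset (Fin I.n), Feasible M₁ M₂ I.k Y →
            (1 - ε) * ((∑ e ∈ Y, I.w e : ℚ≥0) : ℝ) ≤ ((∑ e ∈ X, I.w e : ℚ≥0) : ℝ) := by
  obtain ⟨q, hq⟩ := exists_nat_ge (2 + 8 / ε)
  have h0 : 0 < 8 / ε := by positivity
  have h1 : 2 ≤ q := by exact_mod_cast (by linarith : (2 : ℝ) ≤ q)
  obtain ⟨C, hC⟩ := out_spec q h1
  refine ⟨fun p => alg q C (p.1.n, p.1.k, wts p.1.w, p.2),
    (X * (X + 2) + 1 + (X * (X * (q : ℕ[X])) + X * (q : ℕ[X]) + 1)) *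
      ((X + 1) ^ (C + 1) * ((X + X) * (X + X)) + 1),
    PF.tm2 (pf_alg q C) _ _ _ (fun p => (p.1.n, p.1.k, wts p.1.w, p.2)) code_eq fun _ => rfl, ?_⟩
  rintro ⟨n, w, k⟩ M₁ M₂ h₁ h₂ ⟨B₀, b1, b2, b3⟩
  dsimp only at *
  obtain ⟨e1, ⟨B, e2, e3⟩, e4⟩ := hC n M₁ M₂ w k B₀ _ h₁ h₂ ⟨b1, b2⟩ b3 rfl
  refine ⟨_, run_ctl (L := (tups n (C + 1)).length * ((n + n) * (n + n)) + 1)
    (T := n * (n + 2) + 1 + (n * (k * q) + k * q + 1))
    (upd := upd n (k / q + 1) k (k * q) (wts w) (tups n (C + 1))) (qf := qf n)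
    (out := out n k (k * q) (wts w)) (s₀ := (tups n (C + 1)).map fun _ => (k * q, v0 n))
    (O := fun p => oracle M₁ M₂ (p.1, dec n p.2)) (Nat.succ_pos _)
    (control (fun p => alg q C (p.1.n, p.1.k, wts p.1.w, p.2)) ⟨n, w, k⟩) (oracle M₁ M₂)
    (fun _ => rfl) (fun _ => rfl) _ 0 (Nat.zero_le _) ?_, ⟨e1, B, e2.1, e2.2, coe_subset.2 e3⟩, ?_⟩
  · have hk : k ≤ n := b3.trans (by simpa using card_le_univ B₀)
    have := length_tups n (C + 1)
    simp only [eval_add, eval_mul, eval_pow, eval_X, eval_ofNat, eval_one, eval_natCast,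
      Nat.cast_id, zero_add]
    gcongr
  · rintro Y ⟨f1, BY, f2, f3, f4⟩
    lift BY to Finset (Fin n) using BY.toFinite
    have f5 := e4 Y BY ⟨f2, f3⟩ (coe_subset.1 f4) f1
    have f6 : 4 * (2 / (q : ℝ)) ≤ ε := by
      have := (div_le_iff₀ hε).1 (by linarith : 8 / ε ≤ (q : ℝ))
      rw [← mul_div_assoc, div_le_iff₀ (by positivity)]
      linarith
    push_cast
    exact (mul_le_mul_of_nonneg_right (by linarith)
      (sum_nonneg fun x _ => NNRat.cast_nonneg _)).trans f5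

end Pool.Agent.Lib.MP_1bbcfd_lc.PM
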