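import Pool.Agent.Lib.MP_1bbcfd_lc.PT.Kit
import Pool.Agent.Lib.MP_1bbcfd_lc.PT.Struct

/-!
The three statements about pairs of matroids that the algorithm rests on.
-/

set_option autoImplicit false

namespace Pool.Agent.Lib.MP_1bbcfd_lc.PM

open Finset

variable {α : Type} [Fintype α] [DecidableEq α]

/-- Common bases. -/
def CB (M₁ M₂ : Matroid α) (B : Finset α) : Prop :=
  M₁.IsBase (B : Set α) ∧ M₂.IsBase (B : Set α)

/-- Arcs of the exchange digraph of `B`. -/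
def Arc (M₁ M₂ : Matroid α) (B : Finset α) (u v : α) : Prop :=
  (u ∉ B ∧ v ∈ B ∧ M₁.IsBase ((insert u (B.erase v) : Finset α) : Set α)) ∨
  (u ∈ B ∧ v ∉ B ∧ M₂.IsBase ((insert v (B.erase u) : Finset α) : Set α))

variable {M₁ M₂ : Matroid α}

omit [Fintype α] in
theorem arc_iff {B : Finset α} {u v : α} : Arc M₁ M₂ B u v ↔ PT.Kit.Arc M₁ M₂ B ∅ u v := by
  simp only [Arc, PT.Kit.Arc, PT.Kit.Sw, Finset.notMem_empty, not_false_eq_true, true_and]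
  tauto

theorem perm_arc (h₁ : M₁.E = Set.univ) (h₂ : M₂.E = Set.univ) {B B' : Finset α}
    (hB : CB M₁ M₂ B) (hB' : CB M₁ M₂ B') : ∃ τ : Equiv.Perm α, ∀ x,
      (x ∈ symmDiff B B' → Arc M₁ M₂ B x (τ x)) ∧ (x ∉ symmDiff B B' → τ x = x) := by
  obtain ⟨τ, e1, e2⟩ := PT.Kit.exists_perm (F := ∅) h₁ h₂ hB.1 hB.2 hB'.1 hB'.2 (empty_subset _)
    (empty_subset _)
  exact ⟨τ, fun x => ⟨fun hx => arc_iff.2 (e2 x hx).2, e1 x⟩⟩

omit [Fintype α] in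
theorem walk_move (h₁ : M₁.E = Set.univ) (h₂ : M₂.E = Set.univ) {B : Finset α}
    (hB : CB M₁ M₂ B) (ψ : α → ℝ) (v : ℕ → α) (L : ℕ) (hp : ∀ i, v (i + L) = v i)
    (ha : ∀ i, Arc M₁ M₂ B (v i) (v (i + 1))) (hψ : 0 < ∑ i ∈ range L, ψ (v i)) :
    ∃ B', CB M₁ M₂ B' ∧ (∀ x ∈ symmDiff B B', ∃ i, v i = x) ∧ 0 < ∑ x ∈ symmDiff B B', ψ x := by
  have hL : 0 < L := by
    rcases L with _ | L
    · simp at hψ
    · exact Nat.succ_pos L
  obtain ⟨C, -, e1, e2, e3, e4, -⟩ := PT.Kit.L1 (F := ∅) h₁ h₂ hB.1 hB.2 (empty_subset _) ψ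
    ⟨hL, hp, fun i => arc_iff.1 (ha i)⟩ hψ
  exact ⟨symmDiff B C, ⟨e3, e4⟩, by rwa [symmDiff_symmDiff_cancel_left],
    by rwa [symmDiff_symmDiff_cancel_left]⟩

/-- No labelled common base containing `F` with at most `N` new labels has a larger value. -/
def Stuck (M₁ M₂ : Matroid α) (w : α → ℕ) (F : Finset α) (b N : ℕ) (R : Finset α) : Prop :=
  ∀ B' R', CB M₁ M₂ B' → F ⊆ B' → R' ⊆ B' → #(R' \ R) ≤ N →
    ∑ x ∈ R', ((w x : ℝ) - b) ≤ ∑ x ∈ R, ((w x : ℝ) - b)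

theorem key (ε : ℝ) (hε : 0 < ε) : ∃ C : ℕ, ∀ (α : Type) [Fintype α] [DecidableEq α]
    (M₁ M₂ : Matroid α), M₁.E = Set.univ → M₂.E = Set.univ → ∀ (w : α → ℕ) (N : ℕ)
    (Y BY : Finset α), CB M₁ M₂ BY → Y ⊆ BY → 1 ≤ N → ⌊ε * #Y⌋₊ ≤ N →
    ∃ F B₀ : Finset α, #F ≤ C ∧ CB M₁ M₂ B₀ ∧ F ⊆ B₀ ∧
      ∀ (b : ℕ) (B R : Finset α), CB M₁ M₂ B → F ⊆ B → R ⊆ B → Stuck M₁ M₂ w F b N R →
        (1 - ε) * ∑ x ∈ Y, (w x : ℝ) - b * #Y ≤ ∑ x ∈ R, ((w x : ℝ) - b) := by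
  obtain ⟨C, hC⟩ := PT.struct ε hε
  refine ⟨C, fun α _ _ M₁ M₂ h₁ h₂ w N Y BY hY hYB hN hε' => ?_⟩
  obtain ⟨F, B₀, e1, e2, e3, e4⟩ := hC α ⟨M₁, M₂, h₁, h₂⟩ (fun x => w x) N BY Y
    (fun _ => Nat.cast_nonneg _) hY hYB hε'
  refine ⟨F, B₀, e1, e2, e3, fun b B R hB hF hR hs => e4 b B R (Nat.cast_nonneg _) hB hF hR
    ⟨fun e he => ?_, fun e he he' => ?_, fun A hA hAB s l hl => ?_⟩⟩
  · have := hs B (R.erase e) hB hF ((erase_subset _ _).trans hR) (by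
      rw [sdiff_eq_empty_iff_subset.2 (erase_subset _ _)]; simp)
    rw [← Finset.add_sum_erase R _ he] at this
    linarith
  · have := hs B (insert e R) hB hF (insert_subset he hR) (by
      rw [insert_sdiff_of_notMem _ he', sdiff_self]; simpa using hN)
    rw [sum_insert he'] at this
    linarith
  · by_contra hc
    obtain ⟨D, f1, f2, f3⟩ := PT.Two.exists_mv ⟨M₁, M₂, h₁, h₂⟩ hF _ hl (not_le.1 hc)
    have f4 : ∀ x ∈ A, x ∉ R := fun x hx hx' => disjoint_left.1 hAB hx (hR hx')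
    have := hs (symmDiff B D) (R \ D ∪ (D ∩ A).filter fun x => 0 < (w x : ℝ) - b) (f3.cb hB)
      (fun x hx => mem_symmDiff.2 (Or.inl ⟨hF hx, fun h => (f1 x h).2 hx⟩)) (fun x hx => by
        rw [mem_union, mem_sdiff, mem_filter, mem_inter] at hx
        rcases hx with hx | hx
        · exact mem_symmDiff.2 (Or.inl ⟨hR hx.1, hx.2⟩)
        · exact mem_symmDiff.2 (Or.inr ⟨hx.1.1, disjoint_left.1 hAB hx.1.2⟩))
      (le_trans (card_le_card fun x hx => by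
        rw [mem_sdiff, mem_union, mem_sdiff, mem_filter, mem_inter] at hx
        tauto) hA)
    rw [sum_union (disjoint_left.2 fun x hx hx' =>
      (mem_sdiff.1 hx).2 (mem_inter.1 (mem_filter.1 hx').1).1), sum_filter,
      ← Finset.sum_inter_add_sum_sdiff R D] at this
    rw [sum_sub_distrib, sum_ite_mem, sum_ite_mem, inter_comm D R] at f2
    have f5 : ∑ x ∈ D ∩ A, max ((w x : ℝ) - b) 0 =
        ∑ x ∈ D ∩ A, if 0 < (w x : ℝ) - b then (w x : ℝ) - b else 0 :=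
      sum_congr rfl fun x _ => by
        split_ifs with h
        · exact max_eq_left h.le
        · exact max_eq_right (not_lt.1 h)
    linarith

end Pool.Agent.Lib.MP_1bbcfd_lc.PM
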