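import Pool.Agent.Lib.MP_be0860_lc.Best
import Pool.Agent.Lib.MP_1bbcfd_lc.PT.MIface

/-!
The walk that is found is a shortest one; closed walks from pairs of common bases and back.
-/

set_option autoImplicit false

namespace Pool.Agent.Lib.MP_1bbcfd_lc.PM

open Finset Pool.Agent.Lib.MP_be0860_lc Pool.Agent.Shared.PolyTime

theorem find_min {n N H : ℕ} {A : List (List Bool)} {S : List (List (ℕ × ℕ))}
    (hS : ∀ i j b, tb S i j b ≤ 2 * H) : ∀ (m : ℕ) (l : Arcs) (s : ℕ),
    l.length ≤ m → m ≤ n → Ch s l s → Adm n A l → reds l ≤ N → H * l.length < score S l →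
    find n N H A S ≠ [] ∧ (find n N H A S).length ≤ l.length := by
  intro m
  induction m with
  | zero =>
    intro l s hl _ _ _ _ h
    rw [List.length_eq_zero_iff.1 (Nat.le_zero.1 hl)] at h
    simp [score] at h
  | succ m ih =>
    intro l s hl hm h1 h2 h3 h4
    refine ⟨find_complete hS _ l s hl hm h1 h2 h3 h4, ?_⟩
    have hs : s < n := by
      rcases l with _ | ⟨p, l⟩
      · simp [score] at h4
      · exact h1.1 ▸ (h2 p (by simp)).1
    obtain ⟨l', e1, e2, e3⟩ := layer_complete hS l s s hs hs h1 h2 (by omega)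
    obtain ⟨-, -, e4, e5, e6⟩ := layer_sound _ _ e1
    dsimp only at e4 e5 e6
    by_cases hn : (l'.map Prod.fst).Nodup
    · have hp : ((List.range (n + 1)).flatMap fun i => layer n H A S i).Pairwise
          fun x y => x.2.2.length ≤ y.2.2.length := by
        rw [List.pairwise_flatMap]
        refine ⟨fun i _ => List.pairwise_of_forall_mem_list fun x hx y hy => ?_,
          List.pairwise_lt_range.imp fun {i j} hij x hx y hy => ?_⟩
        · rw [(layer_sound _ _ hx).2.2.2.2, (layer_sound _ _ hy).2.2.2.2]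
        · rw [(layer_sound _ _ hx).2.2.2.2, (layer_sound _ _ hy).2.2.2.2]
          exact hij.le
      unfold find
      generalize hF : List.filter _ _ = F
      have hp' : F.Pairwise fun x y => x.2.2.length ≤ y.2.2.length := hF ▸ hp.filter _
      have hm' : (s, s, l') ∈ F := by
        rw [← hF, List.mem_filter]
        refine ⟨List.mem_flatMap.2 ⟨_, List.mem_range.2 (by omega), e1⟩, ?_⟩
        simp only [Bool.and_eq_true, beq_iff_eq, Nat.ble_eq, Nat.blt_eq, simple_iff]
        exact ⟨⟨⟨trivial, by omega⟩, by rw [e6]; omega⟩, hn⟩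
      rcases F with _ | ⟨x, F⟩
      · simp at hm'
      · rw [List.headD_cons, ← e6]
        rcases List.mem_cons.1 hm' with h | h
        · rw [← h]
        · exact (List.pairwise_cons.1 hp').1 _ h
    · obtain ⟨B, C, u, f1, f2, f3, f4, f5⟩ := ch_split e4 hn
      have g1 := f5.length_eq
      have g2 : reds l' = reds B + reds C := by
        rw [reds, f5.countP_eq, List.countP_append]; rfl
      have g3 : score S l' = score S B + score S C := by
        rw [score, (f5.map _).sum_eq, List.map_append, List.sum_append]; rfl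
      have g4 := List.length_pos_iff.2 f3
      have g5 := List.length_pos_iff.2 f4
      rw [List.length_append] at g1
      by_cases g6 : H * B.length < score S B
      · exact (ih B u (by omega) (by omega) f1
          (fun p hp => e5 p (f5.symm.subset (List.mem_append_left _ hp))) (by omega) g6).2.trans
          (by omega)
      · refine (ih C s (by omega) (by omega) f2
          (fun p hp => e5 p (f5.symm.subset (List.mem_append_right _ hp))) (by omega) ?_).2.trans
          (by omega)
        rw [← e6, g1, Nat.mul_add] at h4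
        omega

variable {α : Type} [Fintype α] [DecidableEq α] {M₁ M₂ : Matroid α}

/-- A positive difference of two common bases contains a positive simple closed walk. -/
theorem exists_walk (h₁ : M₁.E = Set.univ) (h₂ : M₂.E = Set.univ) {B B' : Finset α}
    (hB : CB M₁ M₂ B) (hB' : CB M₁ M₂ B') (ψ : α → ℝ) (c : α → Bool)
    (h : 0 < ∑ x ∈ symmDiff B B', ψ x) : ∃ (s : α) (l : List (α × α × Bool)), Ch s l s ∧
      (l.map Prod.fst).Nodup ∧ (∀ p ∈ l, Arc M₁ M₂ B p.1 p.2.1 ∧ p.1 ∈ symmDiff B B' ∧
        p.2.1 ∈ symmDiff B B' ∧ p.2.2 = c p.1) ∧ 0 < (l.map fun p => ψ p.1).sum := by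
  obtain ⟨τ, hτ⟩ := perm_arc h₁ h₂ hB hB'
  have h1 : ∀ y ∈ symmDiff B B', τ y ∈ symmDiff B B' := fun y hy => by
    by_contra h1
    exact h1 ((τ.injective ((hτ _).2 h1)).symm ▸ hy)
  have h2 : ∀ y ∈ symmDiff B B', ∀ i, τ^[i] y ∈ symmDiff B B' := fun y hy i => by
    induction i with
    | zero => exact hy
    | succ i ih => rw [Function.iterate_succ_apply']; exact h1 _ ih
  obtain ⟨x, hx⟩ : ∃ x, 0 < ∑ i ∈ range (Function.minimalPeriod τ x),
      (if τ^[i] x ∈ symmDiff B B' then ψ (τ^[i] x) else 0) := by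
    by_contra h3
    push Not at h3
    have := sum_nonpos_of_orbits τ (fun y => if y ∈ symmDiff B B' then ψ y else 0) h3
    rw [Finset.sum_ite_mem_eq] at this
    linarith
  have hxm : x ∈ symmDiff B B' := by
    by_contra h3
    rw [Finset.sum_eq_zero fun i _ => if_neg (by
      rw [Function.iterate_fixed ((hτ x).2 h3)]; exact h3)] at hx
    exact lt_irrefl _ hx
  refine ⟨x, orb τ c x (Function.minimalPeriod τ x), ?_,
    nodup_orb _ (Function.iterate_injOn_Iio_minimalPeriod), fun p hp => ?_, ?_⟩
  · have := ch_orb τ c x (Function.minimalPeriod τ x)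
    rwa [Function.iterate_minimalPeriod] at this
  · obtain ⟨i, -, rfl⟩ := List.mem_map.1 hp
    refine ⟨?_, h2 x hxm i, h2 x hxm _, rfl⟩
    rw [Function.iterate_succ_apply']
    exact (hτ _).1 (h2 x hxm i)
  · rw [Finset.sum_congr rfl fun i _ => if_pos (h2 x hxm i)] at hx
    rw [orb, List.map_map, ← List.sum_toFinset _ List.nodup_range, List.toFinset_range]
    exact hx

omit [Fintype α] [DecidableEq α] in
theorem ch_get : ∀ (l : List (α × α × Bool)) (s t : α), Ch s l t →
    ((l.map Prod.fst).getD 0 t = s) ∧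
      ∀ i (hi : i < l.length), l[i].2.1 = (l.map Prod.fst).getD (i + 1) t
  | [], _, _, h => ⟨h.symm, fun _ hi => absurd hi (Nat.not_lt_zero _)⟩
  | p :: l, s, t, h => by
    obtain ⟨h1, h2⟩ := ch_get l _ t h.2
    refine ⟨h.1, fun i hi => ?_⟩
    rcases i with _ | i
    · exact h1.symm
    · exact h2 i (by simpa using hi)

/-- A positive closed walk contains a positive move. -/
theorem exists_move' (h₁ : M₁.E = Set.univ) (h₂ : M₂.E = Set.univ) {B : Finset α}
    (hB : CB M₁ M₂ B) (ψ : α → ℝ) {s : α} {l : List (α × α × Bool)} (hc : Ch s l s)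
    (ha : ∀ p ∈ l, Arc M₁ M₂ B p.1 p.2.1) (h : 0 < (l.map fun p => ψ p.1).sum) :
    ∃ B', CB M₁ M₂ B' ∧ (∀ x ∈ symmDiff B B', x ∈ l.map Prod.fst) ∧
      0 < ∑ x ∈ symmDiff B B', ψ x := by
  have hl : 0 < l.length := by
    rcases l with _ | ⟨p, l⟩
    · simp at h
    · simp
  obtain ⟨h1, h2⟩ := ch_get l s s hc
  have h3 : ∀ i (hi : i < l.length), (l.map Prod.fst).getD i s = l[i].1 := fun i hi => by
    simp [List.getD_eq_getElem?_getD, hi]
  obtain ⟨B', e1, e2, e3⟩ := walk_move h₁ h₂ hB ψ
    (fun i => (l.map Prod.fst).getD (i % l.length) s) l.length (fun i => by simp) (fun i => by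
      have hi := Nat.mod_lt i hl
      have e : (l.map Prod.fst).getD ((i + 1) % l.length) s =
          (l.map Prod.fst).getD (i % l.length + 1) s := by
        rw [← Nat.mod_add_mod]
        rcases (Nat.succ_le_of_lt hi).eq_or_lt with h4 | h4
        · rw [Nat.succ_eq_add_one] at h4
          rw [h4, Nat.mod_self, h1, List.getD_eq_default _ _ (by simp)]
        · rw [Nat.mod_eq_of_lt h4]
      rw [e, h3 _ hi, ← h2 _ hi]
      exact ha _ (List.getElem_mem hi)) (by
      rw [Finset.sum_congr rfl fun i hi => by rw [Nat.mod_eq_of_lt (mem_range.1 hi)],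
        Finset.sum_range]
      have e : (l.map fun p => ψ p.1).sum = ∑ i : Fin l.length, ψ l[i].1 := by
        rw [← List.sum_ofFn]
        exact congrArg _ (List.ext_getElem (by simp) fun i _ _ => by simp)
      rw [e] at h
      exact h.trans_eq (Finset.sum_congr rfl fun i _ => by rw [h3 _ i.2]; rfl))
  refine ⟨B', e1, fun x hx => ?_, e3⟩
  obtain ⟨i, rfl⟩ := e2 x hx
  rw [h3 _ (Nat.mod_lt i hl)]
  exact List.mem_map_of_mem (List.getElem_mem _)

end Pool.Agent.Lib.MP_1bbcfd_lc.PM
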