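import Pool.Agent.Lib.MP_1bbcfd_lc.PT.MDefs
import Pool.Agent.Shared.PolyTime.Typed

/-!
Procedures that work in rounds, each round asking a fixed number of questions.
-/

set_option autoImplicit false

namespace Pool.Agent.Lib.MP_1bbcfd_lc.PM

open Pool.Agent.Shared.PolyTime Polynomial Enc

/-- A list read as a subset. -/
def dec (n : ℕ) (J : List ℕ) : Finset (Fin n) := Finset.univ.filter fun x : Fin n => (x : ℕ) ∈ J

section
variable {S : Type}

/-- The state after `r` rounds, replayed from the answers. -/
def sim (L : ℕ) (upd : ℕ → S → List Bool → S) (s₀ : S) (a : List Bool) (r : ℕ) : S :=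
  (List.range r).foldl (fun s j => upd j s ((List.range L).map fun i => a.getD (j * L + i) false)) s₀

/-- The control of the procedure. -/
def ctl (L T : ℕ) (upd : ℕ → S → List Bool → S) (qf : S → ℕ → Bool × List ℕ) (out : S → List ℕ)
    (s₀ : S) (h : List Bool) : Bool × Bool × List ℕ :=
  cond (Nat.ble T (h.length / L)) (true, false, out (sim L upd s₀ h.reverse (h.length / L)))
    (false, qf (sim L upd s₀ h.reverse (h.length / L)) (h.length % L))

/-- The true states. -/
def traj (L : ℕ) (upd : ℕ → S → List Bool → S) (qf : S → ℕ → Bool × List ℕ)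
    (O : Bool × List ℕ → Bool) (s₀ : S) : ℕ → S
  | 0 => s₀
  | j + 1 => upd j (traj L upd qf O s₀ j)
      ((List.range L).map fun i => O (qf (traj L upd qf O s₀ j) i))

variable {L T : ℕ} {upd : ℕ → S → List Bool → S} {qf : S → ℕ → Bool × List ℕ} {out : S → List ℕ}
  {s₀ : S} {O : Bool × List ℕ → Bool}

theorem sim_eq (hL : 0 < L) (N : ℕ) : ∀ r, r * L ≤ N → sim L upd s₀
    ((List.range N).map fun i => O (qf (traj L upd qf O s₀ (i / L)) (i % L))) r =
      traj L upd qf O s₀ r := by
  intro r
  induction r with
  | zero => intro _; rfl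
  | succ r ih =>
    intro h
    rw [Nat.succ_mul] at h
    have e := ih (by omega)
    rw [sim] at e
    rw [sim, List.range_succ, List.foldl_append, e, traj]
    refine congrArg (upd r _) (List.map_congr_left fun i hi => ?_)
    rw [List.mem_range] at hi
    have e1 : (r * L + i) / L = r := by
      rw [Nat.mul_comm, Nat.mul_add_div hL, Nat.div_eq_of_lt hi, Nat.add_zero]
    have e2 : (r * L + i) % L = i := by
      rw [Nat.mul_comm, Nat.mul_add_mod, Nat.mod_eq_of_lt hi]
    rw [List.getD_eq_getElem?_getD, List.getElem?_map,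
      List.getElem?_range (by omega : r * L + i < N), Option.map_some, Option.getD_some, e1, e2]

theorem run_ctl (hL : 0 < L) {n : ℕ} (P : Procedure (Fin n)) (O' : Bool × Finset (Fin n) → Bool)
    (hO : ∀ q, O q = O' (q.1, dec n q.2))
    (hP : ∀ h, P h = if (ctl L T upd qf out s₀ h).1 = true then
      Sum.inr (dec n (ctl L T upd qf out s₀ h).2.2)
      else Sum.inl ((ctl L T upd qf out s₀ h).2.1, dec n (ctl L T upd qf out s₀ h).2.2)) :
    ∀ t N, N ≤ T * L → T * L ≤ N + t → run P O' t
      ((List.range N).map fun i => O (qf (traj L upd qf O s₀ (i / L)) (i % L))).reverse =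
      some (dec n (out (traj L upd qf O s₀ T))) := by
  have key : ∀ N, ctl L T upd qf out s₀
      ((List.range N).map fun i => O (qf (traj L upd qf O s₀ (i / L)) (i % L))).reverse =
      cond (Nat.ble T (N / L)) (true, false, out (traj L upd qf O s₀ (N / L)))
        (false, qf (traj L upd qf O s₀ (N / L)) (N % L)) := by
    intro N
    rw [ctl, List.reverse_reverse, List.length_reverse, List.length_map, List.length_range,
      sim_eq hL N _ (Nat.div_mul_le_self _ _)]
  have fin : ∀ t, run P O' t ((List.range (T * L)).map fun i =>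
      O (qf (traj L upd qf O s₀ (i / L)) (i % L))).reverse =
      some (dec n (out (traj L upd qf O s₀ T))) := by
    intro t
    have e := hP ((List.range (T * L)).map fun i =>
      O (qf (traj L upd qf O s₀ (i / L)) (i % L))).reverse
    rw [key, Nat.mul_div_cancel _ hL, Nat.ble_self_eq_true, cond_true, if_pos rfl] at e
    cases t <;> rw [run, e]
  intro t
  induction t with
  | zero => intro N h1 h2; rw [show N = T * L by omega]; exact fin 0
  | succ t ih =>
    intro N h1 h2
    rcases h1.eq_or_lt with rfl | h3
    · exact fin _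
    have e := hP ((List.range N).map fun i =>
      O (qf (traj L upd qf O s₀ (i / L)) (i % L))).reverse
    have e1 : Nat.ble T (N / L) = false := by
      rw [Bool.eq_false_iff, Ne, Nat.ble_eq, not_le, Nat.div_lt_iff_lt_mul hL]
      exact h3
    rw [key, e1, cond_false, if_neg (by simp)] at e
    rw [run, e]
    have e2 := ih (N + 1) h3 (by omega)
    rw [List.range_succ, List.map_append, List.reverse_append, List.map_singleton, hO] at e2
    exact e2

end

theorem pf_ctl {α S : Type} [Enc α] [Enc S] {L T : α → ℕ} {upd : α → ℕ → S → List Bool → S}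
    {qf : α → S → ℕ → Bool × List ℕ} {out : α → S → List ℕ} {s₀ : α → S} {h : α → List Bool}
    (hL : PF L) (hT : PF T) (hs : PF s₀) (hh : PF h)
    (hu : PF fun p : α × ℕ × S × List Bool => upd p.1 p.2.1 p.2.2.1 p.2.2.2)
    (hq : PF fun p : α × S × ℕ => qf p.1 p.2.1 p.2.2) (ho : PF fun p : α × S => out p.1 p.2)
    (hb : ∃ q : Polynomial ℕ, ∀ a j s l, (enc (upd a j s l)).length ≤ q.eval (enc a).length) :
    PF fun a => ctl (L a) (T a) (upd a) (qf a) (out a) (s₀ a) (h a) := by
  have h1 : PF fun a => sim (L a) (upd a) (s₀ a) (h a).reverse ((h a).length / L a) := by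
    unfold sim
    refine PF.foldl (st := fun a s j => upd a j s
      ((List.range (L a)).map fun i => (h a).reverse.getD (j * L a + i) false)) (by fun_prop) hs
      (hu.comp (g := fun p : α × S × ℕ => (p.1, p.2.2, p.2.1, (List.range (L p.1)).map fun i =>
        (h p.1).reverse.getD (p.2.2 * L p.1 + i) false)) (by fun_prop)) ?_
    obtain ⟨q, hq⟩ := hb
    obtain ⟨r, hr⟩ := hs.size
    refine ⟨q + r, fun a j => ?_⟩
    rw [eval_add]
    rcases List.eq_nil_or_concat ((List.range ((h a).length / L a)).take j) with e | ⟨l, c, e⟩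
    · rw [e]
      exact (hr a _ le_rfl).trans (Nat.le_add_left _ _)
    · rw [e, List.concat_eq_append, List.foldl_append]
      exact (hq _ _ _ _).trans (Nat.le_add_right _ _)
  unfold ctl
  exact PF.cond' (by fun_prop) (PF.pair (PF.const _) (PF.pair (PF.const _)
    (ho.comp (PF.pair PF.id' h1)))) (PF.pair (PF.const _)
      (hq.comp (PF.pair PF.id' (PF.pair h1 (by fun_prop)))))

end Pool.Agent.Lib.MP_1bbcfd_lc.PM
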