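import Pool.Agent.Lib.MP_1bbcfd_lc.PT.MStep
import Pool.Agent.Lib.MP_1bbcfd_lc.PT.MRound
import Pool.Agent.Lib.MP_1bbcfd_lc.PT.Lin

/-!
The two phases: finding a common base that contains the guessed set, and lowering the price.
-/

set_option autoImplicit false

namespace Pool.Agent.Lib.MP_1bbcfd_lc.PM

open Finset Pool.Agent.Shared.PolyTime Enc
open Pool.Agent.Lib.MP_be0860_lc hiding Rep val step_spec Stuck cnt cnt_eq pf_cnt

/-- The question that decides whether `(u, y)` is an arc. -/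
def qy (n : ℕ) (v : Vec) (u y : ℕ) : Bool × List ℕ :=
  (!inB v u, (List.range n).filter fun x => inB v x == !(x == u || x == y))

/-- The exchange digraph read from the answers. -/
def adj (m s : ℕ) (v : Vec) (F : List ℕ) (a : List Bool) (o : ℕ) : List (List Bool) :=
  tab m fun u y => (u == y && inB v u) || (!(inB v u == inB v y) && a.getD (o + u * s + y) false &&
    !(F.contains u && inB v u) && !(F.contains y && inB v y))

/-- The values in the first phase. -/
def V0 (n : ℕ) (F : List ℕ) : List (ℕ × ℕ) :=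
  (List.range n).map fun x => (n + 1 + cond (F.contains x) 1 0, 0)

/-- A step of the first phase. -/
def step0 (n : ℕ) (F : List ℕ) (a : List Bool) (o : ℕ) (v : Vec) : Vec :=
  app (n + n) v (find (n + n) 0 (n + 2) (adj (n + n) (n + n) v [] a o) (sc (n + n) (n + 2) (V0 n F) v))

/-- The number of labelled elements. -/
def cnt (n : ℕ) (v : Vec) : ℕ := (List.range n).countP fun x => lb v x

/-- The values in the second phase. -/
def V1 (n b : ℕ) (W : List ℕ) : List (ℕ × ℕ) := (List.range n).map fun x => (b, W.getD x 0)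

/-- The walk used in the second phase. -/
def walk1 (n N Q : ℕ) (W F : List ℕ) (a : List Bool) (o : ℕ) (s : ℕ × Vec) : Arcs :=
  find n N Q (adj n (n + n) s.2 F a o) (sc n Q (V1 n s.1 W) s.2)

/-- A step of the second phase. -/
def step1 (n N k Q : ℕ) (W F : List ℕ) (a : List Bool) (o : ℕ) (s : ℕ × Vec) : ℕ × Vec :=
  (min (cond (Nat.blt k (cnt n s.2) || !(walk1 n N Q W F a o s).isEmpty) s.1 (s.1 - 1)) Q,
    app n s.2 (cond (Nat.blt k (cnt n s.2)) [] (walk1 n N Q W F a o s)))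

/-- The starting state: the dummy elements. -/
def v0 (n : ℕ) : Vec := (List.range (n + n)).map fun x => (Nat.ble n x, false)

variable {n : ℕ} {M₁ M₂ : Matroid (Fin n)}

/-- The list `a` holds the answers to the questions about `v`. -/
def Ans (M₁ M₂ : Matroid (Fin n)) (a : List Bool) (o : ℕ) (v : Vec) : Prop :=
  ∀ u < n + n, ∀ y < n + n, a.getD (o + u * (n + n) + y) false =
    oracle M₁ M₂ ((qy n v u y).1, dec n (qy n v u y).2)

theorem app_nil {m : ℕ} {v : Vec} {B R : Finset (Fin m)} (h : Rep v B R) (hR : R ⊆ B) :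
    Rep (app m v []) B R :=
  app_spec h [] (by simp) fun x => by simpa using fun hx => hR hx

theorem adj_spec {m : ℕ} (hm : m ≤ n + n) (ι : Fin n → Fin m) (hι : ∀ x, (ι x : ℕ) = x)
    {N₁ N₂ : Matroid (Fin m)} {B R : Finset (Fin m)} {v : Vec} (h : Rep v B R)
    (h₁ : ∀ J : Finset (Fin m), #J = #B → (N₁.IsBase (J : Set (Fin m)) ↔
      M₁.Indep (({x | ι x ∈ J} : Finset (Fin n)) : Set (Fin n))))
    (h₂ : ∀ J : Finset (Fin m), #J = #B → (N₂.IsBase (J : Set (Fin m)) ↔
      M₂.Indep (({x | ι x ∈ J} : Finset (Fin n)) : Set (Fin n))))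
    {a : List Bool} {o : ℕ} (ha : Ans M₁ M₂ a o v) (F : List ℕ) (u y : Fin m) :
    entry (adj m (n + n) v F a o) u y = true ↔ (u = y ∧ u ∈ B) ∨ (Arc N₁ N₂ B u y ∧
      u ∉ B.filter (fun x => x.val ∈ F) ∧ y ∉ B.filter fun x => x.val ∈ F) := by
  have hc : ∀ {p q : Fin m}, p ∉ B → q ∈ B → #(insert p (B.erase q)) = #B := fun hp hq => by
    rw [card_insert_of_notMem fun h => hp (mem_of_mem_erase h), card_erase_add_one hq]
  have hd : ∀ {p q : Fin m}, p ∉ B → q ∈ B → ∀ x : Fin n,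
      ((inB v x == !((x : ℕ) == p || (x : ℕ) == q)) = true ↔ ι x ∈ insert p (B.erase q)) := by
    intro p q hp hq x
    rw [← hι x, (h _).1, mem_insert, mem_erase]
    generalize ι x = z
    have e : ((z : ℕ) == p || (z : ℕ) == q) = decide (z = p ∨ z = q) := by
      rw [Bool.eq_iff_iff]; simp [Fin.val_inj]
    rw [e, beq_iff_eq, Bool.eq_iff_iff]
    simp only [decide_eq_true_iff, Bool.not_eq_true', decide_eq_false_iff_not]
    by_cases e1 : z = p
    · simp [e1, hp]
    · by_cases e2 : z = q <;> simp [e1, e2, hq]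
      exact fun e => hp (e ▸ hq)
  rw [adj, entry_tab, ha u (u.2.trans_le hm) y (y.2.trans_le hm), qy]
  dsimp only
  generalize hJ : dec n _ = J
  rw [(h u).1, (h y).1]
  simp only [Bool.or_eq_true, Bool.and_eq_true, beq_iff_eq, Fin.val_inj, decide_eq_true_iff,
    Bool.not_eq_true', mem_filter, and_assoc]
  refine or_congr Iff.rfl ?_
  by_cases hu : u ∈ B <;> by_cases hy : y ∈ B
  · simp [hu, hy, Arc]
  · have e : J = ({x | ι x ∈ insert y (B.erase u)} : Finset (Fin n)) := by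
      ext x
      simp only [← hJ, dec, mem_filter, mem_univ, true_and, List.mem_filter, List.mem_range, x.2,
        ← hd hy hu x, Bool.or_comm]
    rw [Arc, h₂ _ (hc hy hu), ← e]
    simp [hu, hy, oracle]
  · have e : J = ({x | ι x ∈ insert u (B.erase y)} : Finset (Fin n)) := by
      ext x
      simp only [← hJ, dec, mem_filter, mem_univ, true_and, List.mem_filter, List.mem_range, x.2,
        ← hd hu hy x]
    rw [Arc, h₁ _ (hc hu hy), ← e]
    simp [hu, hy, oracle]
  · simp [hu, hy, Arc]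

theorem exists_ext (M : Matroid (Fin n)) (hE : M.E = Set.univ) : ∃ M' : Matroid (Fin (n + n)),
    M'.E = Set.univ ∧ ∀ J : Finset (Fin (n + n)), M'.IsBase (J : Set (Fin (n + n))) ↔
      #J = n ∧ M.Indep (({x | Fin.castAdd n x ∈ J} : Finset (Fin n)) : Set (Fin n)) := by
  obtain ⟨M', e1, e2⟩ := PT.exists_dummy M hE
  refine ⟨M'.mapEquiv finSumFinEquiv, by simp [e1], fun J => ?_⟩
  have e : (J.map finSumFinEquiv.symm.toEmbedding).toLeft =
      ({x | Fin.castAdd n x ∈ J} : Finset (Fin n)) := by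
    ext x
    simp
  have := (e2 (J.map finSumFinEquiv.symm.toEmbedding)).2
  rw [e, card_map, Fintype.card_fin, coe_map] at this
  rw [Matroid.mapEquiv_isBase_iff, ← this]
  rfl

theorem phase0 (h₁ : M₁.E = Set.univ) (h₂ : M₂.E = Set.univ) {B₀ : Finset (Fin n)}
    (hB₀ : CB M₁ M₂ B₀) (F : List ℕ) (v : ℕ → Vec) (h0 : v 0 = v0 n)
    (hs : ∀ j < n * (n + 2) + 1, ∃ a o, Ans M₁ M₂ a o (v j) ∧ v (j + 1) = step0 n F a o (v j)) :
    ∃ B, CB M₁ M₂ B ∧ Rep (v (n * (n + 2) + 1)) B ∅ ∧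
      ∀ B', CB M₁ M₂ B' → dec n F ⊆ B' → dec n F ⊆ B := by
  obtain ⟨N₁, e1, f1⟩ := exists_ext M₁ h₁
  obtain ⟨N₂, e2, f2⟩ := exists_ext M₂ h₂
  have hV : ∀ x c, vv (V0 n F) x c ≤ n + 2 := fun x c => by
    by_cases hx : x < n <;> cases c <;> cases hF : F.contains x <;>
      simp [vv, V0, List.getD_eq_getElem?_getD, hx, hF, -List.contains_eq_mem]
  have inv : ∀ j ≤ n * (n + 2) + 1, ∃ B, CB N₁ N₂ B ∧ Rep (v j) B ∅ ∧ (j ≤ val (V0 n F) B ∅ ∨
      ∀ B', CB N₁ N₂ B' → val (V0 n F) B' ∅ ≤ val (V0 n F) B ∅) := by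
    intro j
    induction j with
    | zero =>
      intro _
      have e : ({x | Fin.castAdd n x ∈ univ.map (Fin.natAddEmb n)} : Finset (Fin n)) = ∅ := by
        ext x
        simp only [mem_filter, mem_univ, true_and, mem_map, notMem_empty, iff_false, not_exists]
        intro y hy
        have := congrArg Fin.val hy
        simp at this
        omega
      refine ⟨univ.map (Fin.natAddEmb n), ⟨(f1 _).2 ⟨by simp, by simp [e, -mem_map]⟩,
        (f2 _).2 ⟨by simp, by simp [e, -mem_map]⟩⟩, fun x => ?_, Or.inl (Nat.zero_le _)⟩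
      rw [h0]
      refine ⟨?_, by simp [lb, v0, List.getD_eq_getElem?_getD]⟩
      rw [Bool.eq_iff_iff]
      simp only [inB, v0, List.getD_eq_getElem?_getD, List.getElem?_map, List.getElem?_range x.2,
        Option.map_some, Option.getD_some, Nat.ble_eq, decide_eq_true_iff, mem_map, mem_univ,
        true_and]
      exact ⟨fun h => ⟨⟨x - n, by omega⟩, Fin.ext (by simp; omega)⟩, fun ⟨y, hy⟩ => by
        rw [← hy]; simp⟩
    | succ j ih =>
      intro hj
      obtain ⟨B, g1, g2, g3⟩ := ih (by omega)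
      obtain ⟨a, o, g4, g5⟩ := hs j (by omega)
      have hB := ((f1 B).1 g1.1).1
      rw [g5, step0]
      rcases step_spec (N := 0) e1 e2 hV g1 (empty_subset _) (filter_subset _ _) g2
        (adj_spec le_rfl (Fin.castAdd n) (fun _ => rfl) g2
          (fun J hJ => by rw [f1, hJ, hB]; simp) (fun J hJ => by rw [f2, hJ, hB]; simp) g4 [])
        with ⟨-, B', R', k1, k2, -, -, k3, k4⟩ | ⟨k1, k2⟩
      · obtain rfl : R' = ∅ := by simpa using k3
        exact ⟨B', k2, k1, g3.imp (by omega) fun h B'' h' => (h B'' h').trans k4.le⟩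
      · rw [k1]
        exact ⟨B, g1, app_nil g2 (empty_subset _), Or.inr fun B' h =>
          k2 B' ∅ h (by simp) (empty_subset _) (by simp)⟩
  obtain ⟨B, g1, g2, g3⟩ := inv _ le_rfl
  have hval : ∀ J : Finset (Fin (n + n)), val (V0 n F) J ∅ =
      (n + 1) * #({x | Fin.castAdd n x ∈ J} : Finset (Fin n)) +
        #(({x | Fin.castAdd n x ∈ J} : Finset (Fin n)) ∩ dec n F) := by
    intro J
    rw [val, ← Finset.sum_ite_mem_eq, Fin.sum_univ_add, sum_eq_zero (s := univ)
      (f := fun i => if Fin.natAdd n i ∈ J then _ else 0) fun x _ => by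
        simp [vv, V0, List.getD_eq_getElem?_getD], add_zero, dec, ← filter_and, card_filter,
      card_filter, mul_sum, ← sum_add_distrib]
    refine sum_congr rfl fun x _ => ?_
    by_cases k1 : Fin.castAdd n x ∈ J <;> by_cases k2 : (x : ℕ) ∈ F <;>
      simp [vv, V0, List.getD_eq_getElem?_getD, k1, k2]
  have g4 := g3.resolve_left (by
    have := sum_le_card_nsmul B (fun x => vv (V0 n F) x (decide (x ∈ (∅ : Finset _)))) _
      fun x _ => hV _ _
    rw [((f1 B).1 g1.1).1, smul_eq_mul] at this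
    exact not_le.2 (Nat.lt_succ_of_le this))
  set B₁ : Finset (Fin n) := {x | Fin.castAdd n x ∈ B} with hB₁
  have g5 : ∀ B', CB M₁ M₂ B' →
      (n + 1) * #B' + #(B' ∩ dec n F) ≤ (n + 1) * #B₁ + #(B₁ ∩ dec n F) := by
    intro B' h
    have e : ({x | Fin.castAdd n x ∈ B'.map (Fin.castAddEmb n) ∪ B'ᶜ.map (Fin.natAddEmb n)} :
        Finset (Fin n)) = B' := by
      ext x
      simp only [mem_filter, mem_univ, true_and, mem_union, mem_map]
      refine ⟨?_, fun hx => Or.inl ⟨x, hx, rfl⟩⟩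
      rintro (⟨y, hy, e⟩ | ⟨y, -, e⟩) <;> have := congrArg Fin.val e <;> simp at this
      · exact Fin.ext this ▸ hy
      · omega
    have c : #(B'.map (Fin.castAddEmb n) ∪ B'ᶜ.map (Fin.natAddEmb n)) = n := by
      rw [card_union_of_disjoint, card_map, card_map, card_add_card_compl, Fintype.card_fin]
      rw [disjoint_left]
      simp only [mem_map, not_exists]
      rintro _ ⟨y, -, rfl⟩ z ⟨-, e⟩
      have := congrArg Fin.val e
      simp at this
      omega
    have := g4 _ ⟨(f1 _).2 ⟨c, by rw [e]; exact h.1.indep⟩, (f2 _).2 ⟨c, by rw [e]; exact h.2.indep⟩⟩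
    rwa [hval, hval, e] at this
  have g6 : #B₀ ≤ #B₁ := by
    have k1 := g5 _ hB₀
    have k2 : #(B₁ ∩ dec n F) ≤ n := by simpa using card_le_univ (B₁ ∩ dec n F)
    by_contra k3
    have := Nat.mul_le_mul_left (n + 1) (Nat.succ_le_of_lt (not_le.1 k3))
    rw [Nat.mul_succ] at this
    omega
  have g7 : CB M₁ M₂ B₁ := ⟨PT.Kit.base_of_card hB₀.1 ((f1 B).1 g1.1).2 g6,
    PT.Kit.base_of_card hB₀.2 ((f2 B).1 g1.2).2 g6⟩
  refine ⟨B₁, g7, fun x => ?_, fun B' h hF => ?_⟩
  · have := g2 (Fin.castAdd n x)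
    simpa [hB₁] using this
  · have k1 := g5 _ h
    rw [PT.Kit.card_eq_of_base h.1 g7.1, inter_eq_right.2 hF] at k1
    exact inter_eq_right.1 (eq_of_subset_of_card_le inter_subset_right (by omega))

theorem phase1 (h₁ : M₁.E = Set.univ) (h₂ : M₂.E = Set.univ) {N k Q : ℕ} {W : List ℕ}
    (hW : ∀ x, W.getD x 0 ≤ Q) (F : List ℕ) {B₀ : Finset (Fin n)} (hB₀ : CB M₁ M₂ B₀)
    (s : ℕ → ℕ × Vec) (h0 : (s 0).1 = Q) (h0' : Rep (s 0).2 B₀ ∅)
    (hs : ∀ j, ∃ a o, Ans M₁ M₂ a o (s j).2 ∧ s (j + 1) = step1 n N k Q W F a o (s j)) (j : ℕ) :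
    ∃ B R, CB M₁ M₂ B ∧ Rep (s j).2 B R ∧ R ⊆ B ∧ (s j).1 ≤ Q ∧ #R ≤ k + N ∧
      (dec n F ⊆ B₀ → dec n F ⊆ B ∧ ∀ X : ℝ, X ≤ Q * k →
        (∀ (b : ℕ) (B R : Finset (Fin n)), CB M₁ M₂ B → dec n F ⊆ B → R ⊆ B →
          Stuck M₁ M₂ (fun x => W.getD x 0) (dec n F) b N R →
          X - b * k ≤ ∑ x ∈ R, ((W.getD x 0 : ℝ) - b)) →
        X - ((s j).1 + 1) * k ≤ ∑ x ∈ R, ((W.getD x 0 : ℝ) - (s j).1) ∧
        (k < #R ∨ ((s j).1 = 0 ∧ X ≤ ∑ x ∈ R, ((W.getD x 0 : ℝ) - (s j).1)) ∨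
          (j : ℝ) + (s j).1 ≤ ∑ x ∈ R, ((W.getD x 0 : ℝ) - (s j).1) + Q)) := by
  induction j with
  | zero =>
    refine ⟨B₀, ∅, hB₀, h0', empty_subset _, h0.le, by simp, fun h => ⟨h, fun X hX _ => ?_⟩⟩
    rw [h0, sum_empty]
    exact ⟨by nlinarith [(Nat.cast_nonneg k : (0 : ℝ) ≤ k)], Or.inr (Or.inr (by simp))⟩
  | succ j ih =>
    obtain ⟨B, R, g1, g2, g3, g4, g5, g6⟩ := ih
    obtain ⟨a, o, g7, g8⟩ := hs j
    rw [g8]
    generalize s j = t at *
    obtain ⟨b, v⟩ := t
    dsimp only at g2 g4 g6 g7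
    have hc : cnt n v = #R := by
      rw [cnt, List.countP_eq_length_filter,
        ← List.toFinset_card_of_nodup (List.nodup_range.filter _), ← card_map Fin.valEmbedding]
      congr 1
      ext x
      simp only [List.mem_toFinset, List.mem_filter, List.mem_range, mem_map,
        Fin.valEmbedding_apply]
      exact ⟨fun h => ⟨⟨x, h.1⟩, of_decide_eq_true ((g2 ⟨x, h.1⟩).2 ▸ h.2), rfl⟩,
        fun ⟨y, hy, e⟩ => e ▸ ⟨y.2, (g2 y).2.trans (decide_eq_true hy)⟩⟩
    rw [step1, hc]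
    dsimp only
    by_cases hk : k < #R
    · rw [show Nat.blt k #R = true by simpa [Nat.blt_eq] using hk, Bool.true_or, cond_true, cond_true, min_eq_left g4]
      exact ⟨B, R, g1, app_nil g2 g3, g3, g4, g5, fun h => ⟨(g6 h).1, fun X hX hK =>
        ⟨((g6 h).2 X hX hK).1, Or.inl hk⟩⟩⟩
    have hk' : Nat.blt k #R = false := by
      rw [Bool.eq_false_iff]; simpa [Nat.blt_eq] using hk
    rw [hk', Bool.false_or, cond_false, walk1]
    dsimp only
    have hV : ∀ x c, vv (V1 n b W) x c ≤ Q := fun x c => by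
      have := hW x
      by_cases hx : x < n <;> cases c <;>
        simp [vv, V1, List.getD_eq_getElem?_getD, hx, g4] at this ⊢
      exact this
    have hval : ∀ B' R', CB M₁ M₂ B' → R' ⊆ B' → (val (V1 n b W) B' R' : ℝ) =
        ∑ x ∈ R', ((W.getD x 0 : ℝ) - b) + b * #B := by
      intro B' R' k1 k2
      rw [PT.Kit.card_eq_of_base g1.1 k1.1, val, ← inter_eq_right.2 k2, ← sum_ite_mem,
        inter_eq_right.2 k2, card_eq_sum_ones B']
      push_cast
      rw [mul_sum, ← sum_add_distrib]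
      refine sum_congr rfl fun x _ => ?_
      by_cases hx : x ∈ R' <;> simp [vv, V1, List.getD_eq_getElem?_getD, hx]
    have hF : dec n F ⊆ B → B.filter (fun x => x.val ∈ F) = dec n F := fun h => by
      ext x
      simp only [dec, mem_filter, mem_univ, true_and]
      exact ⟨And.right, fun hx => ⟨h (mem_filter.2 ⟨mem_univ _, hx⟩), hx⟩⟩
    rcases step_spec (N := N) h₁ h₂ hV g1 g3 (filter_subset _ _) g2
      (adj_spec (Nat.le_add_right _ _) id (fun _ => rfl) g2
        (fun J hJ => by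
          simpa using ⟨fun h => h.indep, fun h => PT.Kit.base_of_card g1.1 h hJ.ge⟩)
        (fun J hJ => by
          simpa using ⟨fun h => h.indep, fun h => PT.Kit.base_of_card g1.2 h hJ.ge⟩) g7 F)
      with ⟨k0, B', R', k1, k2, k3, k4, k5, k6⟩ | ⟨k1, k2⟩
    · rw [List.isEmpty_eq_false_iff.2 k0, Bool.not_false, cond_true, min_eq_left g4]
      refine ⟨B', R', k2, k1, k4, g4, by omega, fun h => ⟨hF (g6 h).1 ▸ k3, fun X hX hK => ?_⟩⟩
      have k7 : (val (V1 n b W) B R : ℝ) + 1 ≤ val (V1 n b W) B' R' := by exact_mod_cast k6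
      rw [hval _ _ g1 g3, hval _ _ k2 k4] at k7
      obtain ⟨k8, k9⟩ := (g6 h).2 X hX hK
      refine ⟨by linarith, Or.inr ((k9.resolve_left hk).imp (fun h => ⟨h.1, by linarith [h.2]⟩)
        fun h => ?_)⟩
      push_cast
      linarith
    · rw [k1, List.isEmpty_nil, Bool.not_true, cond_false, min_eq_left (by omega)]
      refine ⟨B, R, g1, app_nil g2 g3, g3, by omega, g5, fun h => ⟨(g6 h).1, fun X hX hK => ?_⟩⟩
      have k3 := hK b B R g1 (g6 h).1 g3 fun B' R' e1 e2 e3 e4 => by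
        have k4 : (val (V1 n b W) B' R' : ℝ) ≤ val (V1 n b W) B R := by
          exact_mod_cast k2 B' R' e1 ((hF (g6 h).1).symm ▸ e2) e3 e4
        rw [hval _ _ g1 g3, hval _ _ e1 e3] at k4
        linarith
      obtain ⟨k8, k9⟩ := (g6 h).2 X hX hK
      rcases b with _ | b
      · exact ⟨k8, Or.inr (Or.inl ⟨rfl, by simpa using k3⟩)⟩
      · have k4 : ∑ x ∈ R, ((W.getD x 0 : ℝ) - (b + 1 : ℕ)) ≤ ∑ x ∈ R, ((W.getD x 0 : ℝ) - b) :=
          sum_le_sum fun x _ => by push_cast; linarith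
        have k5 := (k9.resolve_left hk).resolve_left fun h => Nat.succ_ne_zero _ h.1
        rw [Nat.add_sub_cancel]
        push_cast at k3 k4 k5 ⊢
        exact ⟨by linarith, Or.inr (Or.inr (by linarith))⟩

section pf
variable {α : Type} [Enc α]

@[fun_prop] theorem pf_qy {n u y : α → ℕ} {v : α → Vec} (hn : PF n) (hv : PF v) (hu : PF u)
    (hy : PF y) : PF fun a => qy (n a) (v a) (u a) (y a) := by
  unfold qy
  fun_prop

@[fun_prop] theorem pf_adj {m s o : α → ℕ} {v : α → Vec} {F : α → List ℕ} {l : α → List Bool}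
    (hm : PF m) (hs : PF s) (hv : PF v) (hF : PF F) (hl : PF l) (ho : PF o) :
    PF fun a => adj (m a) (s a) (v a) (F a) (l a) (o a) := by
  unfold adj tab
  fun_prop

@[fun_prop] theorem pf_step0 {n o : α → ℕ} {v : α → Vec} {F : α → List ℕ} {l : α → List Bool}
    (hn : PF n) (hF : PF F) (hl : PF l) (ho : PF o) (hv : PF v) :
    PF fun a => step0 (n a) (F a) (l a) (o a) (v a) := by
  unfold step0 V0
  fun_prop

@[fun_prop] theorem pf_step1 {n N k Q o : α → ℕ} {s : α → ℕ × Vec} {W F : α → List ℕ}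
    {l : α → List Bool} (hn : PF n) (hN : PF N) (hk : PF k) (hQ : PF Q) (hW : PF W) (hF : PF F)
    (hl : PF l) (ho : PF o) (hs : PF s) :
    PF fun a => step1 (n a) (N a) (k a) (Q a) (W a) (F a) (l a) (o a) (s a) := by
  unfold step1 walk1 V1 cnt
  fun_prop

@[fun_prop] theorem pf_v0 {n : α → ℕ} (hn : PF n) : PF fun a => v0 (n a) := by
  unfold v0
  fun_prop

end pf

end Pool.Agent.Lib.MP_1bbcfd_lc.PM
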