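import Pool.Agent.Lib.MP_1bbcfd_lc.PT.MFind

/-!
One step of local search on labelled common bases.
-/

set_option autoImplicit false

namespace Pool.Agent.Lib.MP_1bbcfd_lc.PM

open Finset Pool.Agent.Shared.PolyTime Enc
open Pool.Agent.Lib.MP_be0860_lc hiding Rep val step_spec Stuck

/-- States: membership in the base and the label, for each element. -/
abbrev Vec : Type := List (Bool × Bool)

/-- Membership in the base. -/
def inB (v : Vec) (x : ℕ) : Bool := (v.getD x (false, false)).1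

/-- The label. -/
def lb (v : Vec) (x : ℕ) : Bool := (v.getD x (false, false)).2

/-- The value of an element with a label. -/
def vv (V : List (ℕ × ℕ)) (x : ℕ) (c : Bool) : ℕ := cond c (V.getD x (0, 0)).2 (V.getD x (0, 0)).1

/-- Exchanging along a closed walk. -/
def app (m : ℕ) (v : Vec) (l : Arcs) : Vec :=
  (List.range m).map fun x =>
    (inB v x == !(l.any fun p => p.1 == x && !(p.2.1 == x)),
      (inB v x == !(l.any fun p => p.1 == x && !(p.2.1 == x))) &&
        cond (l.any fun p => p.1 == x) (l.any fun p => p.1 == x && p.2.2) (lb v x))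

/-- The scores of the arcs. -/
def sc (m H : ℕ) (V : List (ℕ × ℕ)) (v : Vec) : List (List (ℕ × ℕ)) :=
  tab m fun u y =>
    (cond (!inB v u || u == y) (vv V u false) 0 + (H - cond (inB v u) (vv V u (lb v u)) 0),
      cond (!inB v u || u == y) (vv V u true) 0 + (H - cond (inB v u) (vv V u (lb v u)) 0))

variable {m : ℕ}

/-- A state represents a set and its labelled subset. -/
def Rep (v : Vec) (B R : Finset (Fin m)) : Prop :=
  ∀ x : Fin m, inB v x = decide (x ∈ B) ∧ lb v x = decide (x ∈ R)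

/-- The value of a labelled set. -/
def val (V : List (ℕ × ℕ)) (B R : Finset (Fin m)) : ℕ := ∑ x ∈ B, vv V x (decide (x ∈ R))

theorem len_app (v : Vec) (l : Arcs) : (enc (app m v l)).length ≤ m * 9 := by
  refine (len_le_mul _ 4 fun x hx => ?_).trans (by simp [app])
  obtain ⟨y, -, rfl⟩ := List.mem_map.1 hx
  simp

theorem app_spec {v : Vec} {B R B' R' : Finset (Fin m)} (h : Rep v B R)
    (l : List (Fin m × Fin m × Bool))
    (hB : ∀ x, x ∈ B' ↔ (x ∈ B ↔ ¬ ∃ p ∈ l, p.1 = x ∧ p.2.1 ≠ x))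
    (hR : ∀ x, x ∈ R' ↔ x ∈ B' ∧ ((∃ p ∈ l, p.1 = x ∧ p.2.2 = true) ∨
      (x ∉ l.map Prod.fst ∧ x ∈ R))) : Rep (app m v (l.map up)) B' R' := by
  intro x
  have e1 : inB (app m v (l.map up)) x = decide (x ∈ B') := by
    have e : inB (app m v (l.map up)) x =
        (inB v x == !((l.map up).any fun p => p.1 == x && !(p.2.1 == x))) := by
      simp only [app, inB, List.getD_eq_getElem?_getD, List.getElem?_map,
        List.getElem?_range x.2, Option.map_some, Option.getD_some]
    have e' : ((l.map up).any fun p => p.1 == x && !(p.2.1 == x)) = true ↔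
        ∃ p ∈ l, p.1 = x ∧ p.2.1 ≠ x := by
      rw [List.any_map, List.any_eq_true]
      refine exists_congr fun p => and_congr_right fun _ => ?_
      simp [up, Fin.val_inj]
    rw [e, (h x).1, Bool.eq_iff_iff, decide_eq_true_iff, hB, ← e', beq_iff_eq, Bool.eq_iff_iff]
    simp
  refine ⟨e1, ?_⟩
  have e2 : lb (app m v (l.map up)) x = (inB (app m v (l.map up)) x &&
      cond ((l.map up).any fun p => p.1 == x) ((l.map up).any fun p => p.1 == x && p.2.2)
        (lb v x)) := by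
    simp only [app, inB, lb, List.getD_eq_getElem?_getD, List.getElem?_map,
      List.getElem?_range x.2, Option.map_some, Option.getD_some]
  rw [e2, e1, (h x).2, Bool.eq_iff_iff, Bool.and_eq_true, decide_eq_true_iff, decide_eq_true_iff,
    hR]
  refine and_congr_right fun _ => ?_
  by_cases hx : x ∈ l.map Prod.fst
  · have : ((l.map up).any fun p => p.1 == x) = true := by
      simpa [up, Fin.val_inj] using hx
    rw [this, cond_true]
    simp only [hx, not_true, false_and, or_false]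
    simp [up, Fin.val_inj]
  · have : ((l.map up).any fun p => p.1 == x) = false := by
      rw [Bool.eq_false_iff]
      simpa [up, Fin.val_inj] using hx
    rw [this, cond_false, decide_eq_true_iff]
    exact ⟨fun h => Or.inr ⟨hx, h⟩, fun h => h.elim
      (fun ⟨p, hp, e, _⟩ => absurd (e ▸ List.mem_map_of_mem hp) hx) And.right⟩

theorem val_sub (V : List (ℕ × ℕ)) (B R B' R' : Finset (Fin m)) :
    (val V B' R' : ℝ) - val V B R =
      ∑ x ∈ B ∩ B', ((vv V x (decide (x ∈ R')) : ℝ) - vv V x (decide (x ∈ R))) +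
      ∑ x ∈ symmDiff B B', if x ∈ B then -(vv V x (decide (x ∈ R)) : ℝ)
        else vv V x (decide (x ∈ R')) := by
  unfold val
  push_cast
  rw [← Finset.sum_ite_mem_eq B', ← Finset.sum_ite_mem_eq B, ← Finset.sum_ite_mem_eq (B ∩ B'),
    ← Finset.sum_ite_mem_eq (symmDiff B B'), ← sum_sub_distrib, ← sum_add_distrib]
  refine sum_congr rfl fun x _ => ?_
  by_cases h1 : x ∈ B <;> by_cases h2 : x ∈ B' <;> simp [h1, h2, mem_symmDiff]

theorem reds_up {l : List (Fin m × Fin m × Bool)} (hn : (l.map Prod.fst).Nodup) :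
    reds (l.map up) = #{x | ∃ p ∈ l, p.1 = x ∧ p.2.2 = true} := by
  have h : ((l.filter fun p => p.2.2).map Prod.fst).Nodup :=
    hn.sublist (List.filter_sublist.map _)
  have e : reds (l.map up) = ((l.filter fun p => p.2.2).map Prod.fst).length := by
    rw [List.length_map, reds, List.countP_map, List.countP_eq_length_filter]
    rfl
  rw [e, ← List.toFinset_card_of_nodup h]
  congr 1
  ext x
  simp only [List.mem_toFinset, List.mem_map, List.mem_filter, mem_filter, mem_univ, true_and]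
  exact ⟨fun ⟨p, hp, e⟩ => ⟨p, hp.1, e, hp.2⟩, fun ⟨p, hp, e, e'⟩ => ⟨p, ⟨hp, e'⟩, e⟩⟩

theorem eq_of_loop {α : Type} {s : α} {l : List (α × α × Bool)} (h : Ch s l s)
    (hn : (l.map Prod.fst).Nodup) {p : α × α × Bool} (hp : p ∈ l) (e : p.1 = p.2.1) :
    l = [p] := by
  obtain ⟨l₁, l₂, rfl⟩ := List.append_of_mem hp
  obtain ⟨u, h1, h2, h3⟩ := ch_append.1 h
  rw [List.map_append, List.map_cons, List.nodup_append] at hn
  rcases l₂ with _ | ⟨q, l₂⟩
  · rcases l₁ with _ | ⟨q, l₁⟩
    · rfl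
    · exact absurd (h1.1.trans ((Eq.symm h3).trans e.symm)) (hn.2.2 _ (by simp) _ (by simp))
  · refine absurd ?_ (List.nodup_cons.1 hn.2.1).1
    rw [e, ← h3.1]
    simp

theorem step_spec {M₁ M₂ : Matroid (Fin m)} (h₁ : M₁.E = Set.univ) (h₂ : M₂.E = Set.univ)
    {N H : ℕ} {A : List (List Bool)} {V : List (ℕ × ℕ)} {v : Vec} {B R F : Finset (Fin m)}
    (hV : ∀ x c, vv V x c ≤ H) (hB : CB M₁ M₂ B) (hR : R ⊆ B) (hF : F ⊆ B) (h : Rep v B R)
    (hA : ∀ u y : Fin m, entry A u y = true ↔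
      (u = y ∧ u ∈ B) ∨ (Arc M₁ M₂ B u y ∧ u ∉ F ∧ y ∉ F)) :
    (find m N H A (sc m H V v) ≠ [] ∧ ∃ B' R', Rep (app m v (find m N H A (sc m H V v))) B' R' ∧
      CB M₁ M₂ B' ∧ F ⊆ B' ∧ R' ⊆ B' ∧ #R' ≤ #R + N ∧ val V B R < val V B' R') ∨
    (find m N H A (sc m H V v) = [] ∧ ∀ B' R', CB M₁ M₂ B' → F ⊆ B' → R' ⊆ B' →
      #(R' \ R) ≤ N → val V B' R' ≤ val V B R) := by
  set S := sc m H V v with hS
  let g : Fin m × Fin m × Bool → ℝ := fun p =>
    (if p.1 ∉ B ∨ p.1 = p.2.1 then (vv V p.1 p.2.2 : ℝ) else 0) -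
      if p.1 ∈ B then (vv V p.1 (decide (p.1 ∈ R)) : ℝ) else 0
  have hS' : ∀ l : List (Fin m × Fin m × Bool),
      (score S (l.map up) : ℝ) = (l.map g).sum + H * l.length := by
    intro l
    induction l with
    | nil => simp [score]
    | cons p l ih =>
      have e : (tb S p.1 p.2.1 p.2.2 : ℝ) = g p + H := by
        rw [hS, sc, tb_tab, if_pos ⟨p.1.2, p.2.1.2⟩, (h _).1, (h _).2]
        obtain ⟨u, y, c⟩ := p
        have e1 : (!decide (u ∈ B) || (u : ℕ) == y) = decide (u ∉ B ∨ u = y) := by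
          rw [Bool.eq_iff_iff]; simp [Fin.val_inj]
        have e2 : ((H - cond (decide (u ∈ B)) (vv V u (decide (u ∈ R))) 0 : ℕ) : ℝ) =
            H - if u ∈ B then (vv V u (decide (u ∈ R)) : ℝ) else 0 := by
          by_cases h1 : u ∈ B <;> simp [h1, Nat.cast_sub, hV]
        simp only [e1, g]
        by_cases h2 : u ∉ B ∨ u = y <;> cases c <;>
          simp only [h2, decide_true, decide_false, cond_true, cond_false, Nat.cast_add, e2,
            if_true, if_false, Nat.cast_zero] <;> ring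
      simp only [score, List.map_cons, List.sum_cons, List.length_cons, up] at ih ⊢
      push_cast at ih ⊢
      linarith
  have hmin : ∀ (s : Fin m) (l : List (Fin m × Fin m × Bool)), Ch s l s →
      (l.map Prod.fst).Nodup → (∀ p ∈ l, entry A p.1 p.2.1 = true) →
      #{x | ∃ p ∈ l, p.1 = x ∧ p.2.2 = true} ≤ N → 0 < (l.map g).sum →
      find m N H A S ≠ [] ∧ (find m N H A S).length ≤ l.length := by
    intro s l e1 e2 e3 e4 e5
    have e6 : l.length ≤ m := by simpa using e2.length_le_card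
    have := find_min (N := N) (H := H) (A := A) (S := S) (fun i j b => by
      rw [hS, sc, tb_tab]
      have := hV i b
      split_ifs
      · cases b <;> cases (!inB v i || i == j) <;> simp only [cond_true, cond_false] <;> omega
      · exact Nat.zero_le _) m (l.map up) s (by simpa using e6) le_rfl ((ch_up _ _ _).2 e1)
      (fun p hp => by
        obtain ⟨p', hp', rfl⟩ := List.mem_map.1 hp
        exact ⟨Fin.is_lt _, Fin.is_lt _, e3 _ hp'⟩) (by rw [reds_up e2]; exact e4) (by
        have e := hS' l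
        rw [List.length_map]
        have : (H : ℝ) * l.length < score S (l.map up) := by linarith
        exact_mod_cast this)
    rwa [List.length_map] at this
  have hne : ∀ {u y}, Arc M₁ M₂ B u y → u ≠ y := by
    rintro u y (h | h) rfl
    · exact h.1 h.2.1
    · exact h.2.1 h.1
  have hwalk : ∀ (B' : Finset (Fin m)) (c : Fin m → Bool), CB M₁ M₂ B' → F ⊆ B' →
      #{x ∈ symmDiff B B' | c x = true} ≤ N →
      0 < ∑ x ∈ symmDiff B B', (if x ∈ B then -(vv V x (decide (x ∈ R)) : ℝ) else vv V x (c x)) →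
      find m N H A S ≠ [] ∧ (find m N H A S).length ≤ #(symmDiff B B') := by
    intro B' c e1 e2 e3 e4
    obtain ⟨s, l, f1, f2, f3, f4⟩ := exists_walk h₁ h₂ hB e1 _ c e4
    have f5 : ∀ x ∈ symmDiff B B', x ∉ F := fun x hx hx' => by
      rw [mem_symmDiff] at hx
      exact hx.elim (fun h => h.2 (e2 hx')) fun h => h.2 (hF hx')
    obtain ⟨f6, f7⟩ := hmin s l f1 f2 (fun p hp => (hA _ _).2 (Or.inr
      ⟨(f3 p hp).1, f5 _ (f3 p hp).2.1, f5 _ (f3 p hp).2.2.1⟩))
      (le_trans (card_le_card fun x hx => by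
        obtain ⟨p, hp, rfl, e⟩ := (mem_filter.1 hx).2
        exact mem_filter.2 ⟨(f3 p hp).2.1, (f3 p hp).2.2.2 ▸ e⟩) e3)
      (f4.trans_eq (congrArg _ (List.map_congr_left fun p hp => by
        have := hne (f3 p hp).1
        by_cases hp' : p.1 ∈ B <;> simp [g, hp', this, (f3 p hp).2.2.2])))
    refine ⟨f6, f7.trans ?_⟩
    rw [← List.length_map Prod.fst, ← List.toFinset_card_of_nodup f2]
    refine card_le_card fun x hx => ?_
    obtain ⟨p, hp, rfl⟩ := List.mem_map.1 (List.mem_toFinset.1 hx)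
    exact (f3 p hp).2.1
  by_cases h0 : find m N H A S = []
  · refine Or.inr ⟨h0, fun B' R' e1 e2 e3 e4 => ?_⟩
    by_contra hc
    have e5 : (0 : ℝ) < (val V B' R' : ℝ) - val V B R :=
      sub_pos.2 (by exact_mod_cast not_le.1 hc)
    rw [val_sub] at e5
    by_cases e6 : ∀ x ∈ B ∩ B', (vv V x (decide (x ∈ R')) : ℝ) - vv V x (decide (x ∈ R)) ≤ 0
    · refine (hwalk B' (fun x => decide (x ∈ R' \ R)) e1 e2
        (le_trans (card_le_card fun x hx => by simpa using (mem_filter.1 hx).2) e4) ?_).1 h0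
      have := Finset.sum_nonpos e6
      refine lt_of_lt_of_eq (by linarith : 0 < ∑ x ∈ symmDiff B B', if x ∈ B then
        -(vv V x (decide (x ∈ R)) : ℝ) else vv V x (decide (x ∈ R'))) (sum_congr rfl fun x _ => ?_)
      split_ifs with hx
      · rfl
      · have : x ∉ R := fun h => hx (hR h)
        simp [this]
    · push Not at e6
      obtain ⟨x, hx, e6⟩ := e6
      have hxB := (mem_inter.1 hx).1
      refine (hmin x [(x, x, decide (x ∈ R'))] ⟨rfl, rfl⟩ (by simp)
        (by simpa using (hA x x).2 (Or.inl ⟨rfl, hxB⟩))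
        (le_trans (card_le_card fun y hy => ?_) e4) (by simpa [g, hxB] using e6)).1 h0
      have hy' : x = y ∧ x ∈ R' := by simpa using hy
      rw [← hy'.1]
      refine mem_sdiff.2 ⟨hy'.2, fun h => ?_⟩
      simp [h, hy'.2] at e6
  refine Or.inl ⟨h0, ?_⟩
  obtain ⟨s, h1, h2, h3, h4, h5⟩ := find_sound.resolve_left h0
  obtain ⟨l, hl⟩ := exists_lift (n := m) _ fun p hp => ⟨(h2 p hp).1, (h2 p hp).2.1⟩
  rw [← hl] at h1 h2 h3 h4 h5 h0 hwalk ⊢
  rw [fst_up] at h3
  have h6 := List.Nodup.of_map _ h3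
  obtain ⟨s', h7⟩ : ∃ s', Ch s' l s' := by
    rcases l with _ | ⟨p, l⟩
    · exact absurd rfl h0
    · refine ⟨p.1, (ch_up _ _ _).1 ?_⟩
      have : s = p.1 := h1.1.symm
      rwa [this] at h1
  have h8 : 0 < (l.map g).sum := by
    have e6 := hS' l
    rw [List.length_map] at h5
    have e7 : (H : ℝ) * l.length < score S (l.map up) := by exact_mod_cast h5
    linarith
  rw [reds_up h6] at h4
  have h9 : ∀ p ∈ l, (p.1 = p.2.1 ∧ p.1 ∈ B) ∨ (Arc M₁ M₂ B p.1 p.2.1 ∧ p.1 ∉ F ∧ p.2.1 ∉ F) :=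
    fun p hp => (hA _ _).1 (h2 _ (List.mem_map_of_mem hp)).2.2
  let c : Fin m → Bool := fun x => decide (∃ p ∈ l, p.1 = x ∧ p.2.2 = true)
  have hc : ∀ p ∈ l, c p.1 = p.2.2 := fun p hp => by
    rw [Bool.eq_iff_iff, decide_eq_true_iff]
    exact ⟨fun ⟨p', hp', e, e'⟩ => List.inj_on_of_nodup_map h6 hp' hp e ▸ e', fun e => ⟨p, hp, rfl, e⟩⟩
  have fin : ∀ B', (∀ x, x ∈ B' ↔ (x ∈ B ↔ ¬ ∃ p ∈ l, p.1 = x ∧ p.2.1 ≠ x)) → CB M₁ M₂ B' →
      F ⊆ B' → (∀ R', (∀ x, x ∈ R' ↔ x ∈ B' ∧ (c x = true ∨ (x ∉ l.map Prod.fst ∧ x ∈ R))) →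
        (0 : ℝ) < (val V B' R' : ℝ) - val V B R) →
      ∃ B' R', Rep (app m v (l.map up)) B' R' ∧ CB M₁ M₂ B' ∧ F ⊆ B' ∧ R' ⊆ B' ∧ #R' ≤ #R + N ∧
        val V B R < val V B' R' := by
    intro B' e1 e2 e3 e4
    refine ⟨B', {x ∈ B' | c x = true ∨ (x ∉ l.map Prod.fst ∧ x ∈ R)},
      app_spec h l e1 fun x => by simp only [mem_filter, c, decide_eq_true_iff], e2, e3,
      filter_subset _ _, le_trans (card_le_card fun x hx => ?_)
        ((card_union_le R _).trans (Nat.add_le_add_left h4 _)), ?_⟩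
    · rcases (mem_filter.1 hx).2 with hx | hx
      · exact mem_union_right _ (mem_filter.2 ⟨mem_univ _, of_decide_eq_true hx⟩)
      · exact mem_union_left _ hx.2
    · exact_mod_cast sub_pos.1 (e4 _ fun x => mem_filter)
  by_cases hloop : ∃ p ∈ l, p.1 = p.2.1
  · obtain ⟨p, hp, e⟩ := hloop
    have hpB : p.1 ∈ B := (h9 p hp).elim And.right fun h => absurd e (hne h.1)
    have hl1 := eq_of_loop h7 h6 hp e
    refine fin B (fun x => ?_) hB hF fun R' hR' => ?_
    · rw [hl1]
      simp only [List.mem_singleton, exists_eq_left, ← e]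
      tauto
    · rw [val_sub, symmDiff_self, inter_self, bot_eq_empty, sum_empty, add_zero,
        sum_eq_single_of_mem p.1 hpB fun x hx hxp => ?_]
      · have : decide (p.1 ∈ R') = p.2.2 := by
          rw [Bool.eq_iff_iff, decide_eq_true_iff, hR', hc p hp]
          simp [hpB, List.mem_map_of_mem (f := Prod.fst) hp]
        rw [this]
        rw [hl1] at h8
        simpa [g, hpB, ← e] using h8
      · have : x ∈ R' ↔ x ∈ R := by
          rw [hR']
          simp [c, hl1, hx, hxp, Ne.symm hxp]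
        simp [this]
  · have h10 : ∀ p ∈ l, Arc M₁ M₂ B p.1 p.2.1 ∧ p.1 ∉ F ∧ p.2.1 ∉ F := fun p hp =>
      (h9 p hp).resolve_left fun h => hloop ⟨p, hp, h.1⟩
    obtain ⟨B', e1, e2, e3⟩ := exists_move' h₁ h₂ hB
      (fun x => if x ∈ B then -(vv V x (decide (x ∈ R)) : ℝ) else vv V x (c x)) h7
      (fun p hp => (h10 p hp).1) (h8.trans_eq (congrArg _ (List.map_congr_left fun p hp => by
        have := hne (h10 p hp).1
        by_cases hp' : p.1 ∈ B <;> simp [g, hp', this, hc p hp])))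
    have e4 : F ⊆ B' := fun x hx => by
      by_contra hx'
      obtain ⟨p, hp, rfl⟩ := List.mem_map.1 (e2 x (mem_symmDiff.2 (Or.inl ⟨hF hx, hx'⟩)))
      exact (h10 p hp).2.1 hx
    have e5 := (hwalk B' c e1 e4 (le_trans (card_le_card fun x hx =>
      mem_filter.2 ⟨mem_univ _, of_decide_eq_true (mem_filter.1 hx).2⟩) h4) e3).2
    have e6 : symmDiff B B' = (l.map Prod.fst).toFinset :=
      eq_of_subset_of_card_le (fun x hx => List.mem_toFinset.2 (e2 x hx)) (by
        rw [List.toFinset_card_of_nodup h6]; simpa using e5)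
    have e7 : ∀ x, x ∈ l.map Prod.fst ↔ (x ∈ B ∧ x ∉ B') ∨ (x ∈ B' ∧ x ∉ B) := fun x => by
      rw [← List.mem_toFinset, ← e6, mem_symmDiff]
    refine fin B' (fun x => ?_) e1 e4 fun R' hR' => ?_
    · have : (∃ p ∈ l, p.1 = x ∧ p.2.1 ≠ x) ↔ x ∈ l.map Prod.fst :=
        ⟨fun ⟨p, hp, e, _⟩ => e ▸ List.mem_map_of_mem hp, fun hx => by
          obtain ⟨p, hp, rfl⟩ := List.mem_map.1 hx
          exact ⟨p, hp, rfl, (hne (h10 p hp).1).symm⟩⟩
      rw [this, e7]
      tauto
    · rw [val_sub, sum_eq_zero fun x hx => ?_, zero_add]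
      · refine e3.trans_eq (sum_congr rfl fun x hx => ?_)
        split_ifs with hxB
        · rfl
        · have hx' : x ∈ B' := (mem_symmDiff.1 hx).elim (fun h => absurd h.1 hxB) And.left
          have : decide (x ∈ R') = c x := by
            rw [Bool.eq_iff_iff, decide_eq_true_iff, hR']
            exact ⟨fun h => h.2.elim id fun h => absurd (hR h.2) hxB, fun h => ⟨hx', Or.inl h⟩⟩
          rw [this]
      · rw [mem_inter] at hx
        have hx' : x ∉ l.map Prod.fst := by rw [e7]; tauto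
        have : x ∈ R' ↔ x ∈ R := by
          rw [hR']
          refine ⟨fun h => h.2.elim (fun h => ?_) And.right, fun h => ⟨hx.2, Or.inr ⟨hx', h⟩⟩⟩
          obtain ⟨p, hp, e, -⟩ := of_decide_eq_true h
          exact absurd (e ▸ List.mem_map_of_mem hp) hx'
        simp [this]

section pf
variable {α : Type} [Enc α]

@[fun_prop] theorem pf_inB {v : α → Vec} {x : α → ℕ} (hv : PF v) (hx : PF x) :
    PF fun a => inB (v a) (x a) := by
  unfold inB
  fun_prop

@[fun_prop] theorem pf_lb {v : α → Vec} {x : α → ℕ} (hv : PF v) (hx : PF x) :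
    PF fun a => lb (v a) (x a) := by
  unfold lb
  fun_prop

@[fun_prop] theorem pf_vv {V : α → List (ℕ × ℕ)} {x : α → ℕ} {c : α → Bool} (hV : PF V)
    (hx : PF x) (hc : PF c) : PF fun a => vv (V a) (x a) (c a) := by
  unfold vv
  fun_prop

@[fun_prop] theorem pf_app {m : α → ℕ} {v : α → Vec} {l : α → Arcs} (hm : PF m) (hv : PF v)
    (hl : PF l) : PF fun a => app (m a) (v a) (l a) := by
  unfold app
  fun_prop

@[fun_prop] theorem pf_sc {m H : α → ℕ} {V : α → List (ℕ × ℕ)} {v : α → Vec} (hm : PF m)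
    (hH : PF H) (hV : PF V) (hv : PF v) : PF fun a => sc (m a) (H a) (V a) (v a) := by
  unfold sc tab
  fun_prop

end pf

end Pool.Agent.Lib.MP_1bbcfd_lc.PM
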