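import Pool.Agent.Lib.MP_1bbcfd_lc.PT.MRun
import Pool.Agent.Lib.MP_be0860_lc.Final

/-!
Rounding the weights, the heaviest elements of a base, the best candidate, the guesses.
-/

set_option autoImplicit false

namespace Pool.Agent.Lib.MP_1bbcfd_lc.PM

open Finset Pool.Agent.Shared.PolyTime Enc

/-- The table of the weights. -/
abbrev Wt : Type := List (Big × Big)

/-- The numerator of a weight. -/
def num (T : Wt) (i : ℕ) : ℕ := (T.getD i (⟨0⟩, ⟨0⟩)).1.val

/-- The denominator of a weight. -/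
def den (T : Wt) (i : ℕ) : ℕ := (T.getD i (⟨0⟩, ⟨0⟩)).2.val

/-- The weights, rounded with respect to the heaviest member of `U`. -/
def scale (n Q : ℕ) (T : Wt) (U : List ℕ) : List ℕ :=
  (List.range n).map fun x => (List.range Q).countP fun j => U.all fun f =>
    bble ((j + 1) * num T f * den T x) (Q * num T x * den T f)

/-- All lists of at most `c` elements. -/
def tups (n : ℕ) : ℕ → List (List ℕ)
  | 0 => [[]]
  | c + 1 => [] :: (List.range n).flatMap fun x => (tups n c).map fun t => x :: t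

/-- The `k` heaviest elements of the base. -/
def top (n k : ℕ) (W : List ℕ) (v : Vec) : List ℕ :=
  (List.range n).filter fun x => inB v x && Nat.blt ((List.range n).countP fun y =>
    inB v y && Nat.blt (W.getD x 0 * n + x) (W.getD y 0 * n + y)) k

/-- The weight of a list. -/
def wsum (W l : List ℕ) : ℕ := (l.map fun x => W.getD x 0).sum

/-- The heaviest list. -/
def best (W : List ℕ) (C : List (List ℕ)) : List ℕ :=
  (C.filter fun c => C.all fun c' => Nat.ble (wsum W c') (wsum W c)).headD []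

/-- The table of an input. -/
def wts {n : ℕ} (w : Fin n → ℚ≥0) : Wt := List.ofFn fun i => (⟨(w i).num⟩, ⟨(w i).den⟩)

theorem mem_tups (n c : ℕ) : ∀ D : List ℕ, D.length ≤ c → (∀ x ∈ D, x < n) → D ∈ tups n c := by
  induction c with
  | zero => intro D h _; simp [tups, List.length_eq_zero_iff.1 (Nat.le_zero.1 h)]
  | succ c ih =>
    rintro (_ | ⟨x, D⟩) h h'
    · simp [tups]
    · refine List.mem_cons_of_mem _ (List.mem_flatMap.2 ⟨x, List.mem_range.2 (h' x (by simp)),
        List.mem_map.2 ⟨D, ih D (by simpa using h) fun y hy => h' y (by simp [hy]), rfl⟩⟩)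

theorem length_tups (n c : ℕ) : (tups n c).length ≤ (n + 1) ^ c := by
  induction c with
  | zero => simp [tups]
  | succ c ih =>
    have h1 : 1 ≤ (n + 1) ^ c := Nat.one_le_pow _ _ (Nat.succ_pos n)
    have h2 := Nat.mul_le_mul_left n ih
    simp only [tups, List.length_cons, List.length_flatMap, List.length_map, List.map_const',
      List.length_range, List.sum_replicate, smul_eq_mul, pow_succ]
    nlinarith

theorem best_spec (W : List ℕ) {C : List (List ℕ)} (h : C ≠ []) :
    best W C ∈ C ∧ ∀ c ∈ C, wsum W c ≤ wsum W (best W C) := by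
  obtain ⟨c, hc, hm⟩ := exists_max_image C.toFinset (wsum W) (by simpa using h)
  unfold best
  generalize hF : List.filter _ _ = F
  rcases F with _ | ⟨x, F⟩
  · refine absurd ?_ (List.filter_eq_nil_iff.1 hF c (List.mem_toFinset.1 hc))
    simpa using hm
  · have h : x ∈ x :: F := by simp
    rw [← hF, List.mem_filter] at h
    exact ⟨h.1, by simpa using h.2⟩

variable {n : ℕ}

theorem scale_le (Q : ℕ) (T : Wt) (U : List ℕ) (x : ℕ) : (scale n Q T U).getD x 0 ≤ Q := by
  by_cases hx : x < n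
  · simp only [scale, List.getD_eq_getElem?_getD, List.getElem?_map, List.getElem?_range hx,
      Option.map_some, Option.getD_some]
    exact List.countP_le_length.trans (by simp)
  · simp [scale, List.getD_eq_getElem?_getD, hx]

theorem scale_eq (w : Fin n → ℚ≥0) (Q : ℕ) {U : List ℕ} {e : Fin n} (he : (e : ℕ) ∈ U)
    (hU : ∀ f ∈ U, ∃ y : Fin n, f = y ∧ w y ≤ w e) (x : Fin n) :
    (scale n Q (wts w) U).getD x 0 =
      (List.range Q).countP fun j : ℕ => decide (((j : ℝ) + 1) * w e ≤ Q * w x) := by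
  simp only [scale, List.getD_eq_getElem?_getD, List.getElem?_map, List.getElem?_range x.2,
    Option.map_some, Option.getD_some]
  refine List.countP_congr fun j _ => ?_
  have e1 : ∀ y : Fin n, num (wts w) y = (w y).num ∧ den (wts w) y = (w y).den := fun y => by
    simp [num, den, wts, List.getD_eq_getElem?_getD]
  have e2 : ∀ y : Fin n, (j + 1) * num (wts w) y * den (wts w) x ≤
      Q * num (wts w) x * den (wts w) y ↔ ((j : ℝ) + 1) * w y ≤ Q * w x := by
    intro y
    rw [(e1 _).1, (e1 _).1, (e1 _).2, (e1 _).2, NNRat.cast_def, NNRat.cast_def, ← mul_div_assoc,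
      ← mul_div_assoc, div_le_div_iff₀ (by exact_mod_cast (w y).den_pos)
        (by exact_mod_cast (w x).den_pos)]
    exact_mod_cast Iff.rfl
  simp only [List.all_eq_true, bble_eq, decide_eq_true_iff]
  refine ⟨fun h => (e2 e).1 (h _ he), fun h f hf => ?_⟩
  obtain ⟨y, rfl, hy⟩ := hU f hf
  exact (e2 y).2 (le_trans (mul_le_mul_of_nonneg_left (by exact_mod_cast hy) (by positivity)) h)

theorem round_spec (Q : ℕ) {a z : ℝ} (ha : 0 ≤ a) (hz : 0 ≤ z) :
    ((List.range Q).countP fun j : ℕ => decide (((j : ℝ) + 1) * a ≤ Q * z) : ℕ) * a ≤ Q * z ∧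
    (z ≤ a → Q * z ≤
      (((List.range Q).countP fun j : ℕ => decide (((j : ℝ) + 1) * a ≤ Q * z) : ℕ) + 1) * a) := by
  obtain ⟨h4, h5⟩ := MP_be0860_lc.countP_range_bounds
    (fun j : ℕ => decide (((j : ℝ) + 1) * a ≤ Q * z)) (fun i j hij h => decide_eq_true (le_trans
      (mul_le_mul_of_nonneg_right (by exact_mod_cast Nat.succ_le_succ hij) ha)
      (of_decide_eq_true h))) Q
  generalize List.countP _ _ = c at h4 h5
  refine ⟨?_, fun h6 => ?_⟩
  · rcases c with _ | c
    · simpa using mul_nonneg (Nat.cast_nonneg Q) hz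
    · simpa using h4 c (Nat.lt_succ_self c)
  · rcases h5 with rfl | h5
    · nlinarith [mul_le_mul_of_nonneg_left h6 (Nat.cast_nonneg c : (0 : ℝ) ≤ c)]
    · exact (not_le.1 (of_decide_eq_false h5)).le

theorem wsum_filter (W : List ℕ) (p : ℕ → Bool) : wsum W ((List.range n).filter p) =
    ∑ x ∈ dec n ((List.range n).filter p), W.getD x 0 := by
  rw [wsum, ← List.sum_toFinset _ (List.nodup_range.filter _)]
  refine Eq.trans ?_ (sum_map (dec n _) Fin.valEmbedding fun x => W.getD x 0)
  congr 1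
  ext x
  simp only [dec, List.mem_toFinset, mem_map, mem_filter, mem_univ, true_and,
    Fin.valEmbedding_apply]
  exact ⟨fun h => ⟨⟨x, List.mem_range.1 (List.mem_filter.1 h).1⟩, h, rfl⟩,
    fun ⟨y, hy, e⟩ => e ▸ hy⟩

theorem top_spec (W : List ℕ) {k : ℕ} {v : Vec} {B R₀ : Finset (Fin n)} (h : Rep v B R₀)
    (hk : k ≤ #B) : dec n (top n k W v) ⊆ B ∧ #(dec n (top n k W v)) = k ∧
      ∀ R ⊆ B, ∀ N : ℕ, #R ≤ k + N → (k : ℝ) * ∑ x ∈ R, (W.getD x 0 : ℝ) ≤
        (k + N) * ∑ x ∈ dec n (top n k W v), (W.getD x 0 : ℝ) := by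
  let κ : Fin n → ℕ := fun x => W.getD x 0 * n + x
  let rk : Fin n → ℕ := fun x => #{y ∈ B | κ x < κ y}
  have h1 : ∀ x y, κ y ≤ κ x → W.getD y 0 ≤ W.getD x 0 := fun x y hxy => by
    by_contra hc
    have := Nat.mul_le_mul_right n (Nat.succ_le_of_lt (not_le.1 hc))
    have := x.2
    simp only [κ, Nat.succ_mul] at *
    omega
  have h2 : ∀ x y, κ x = κ y → x = y := fun x y e => by
    have := le_antisymm (h1 x y e.ge) (h1 y x e.le)
    simp only [κ, this] at e
    exact Fin.ext (by omega)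
  have h3 : ∀ x, ∀ y ∈ B, κ x < κ y → rk y < rk x := fun x y hy e =>
    card_lt_card ⟨fun z hz => mem_filter.2 ⟨(mem_filter.1 hz).1, e.trans (mem_filter.1 hz).2⟩,
      fun hs => lt_irrefl _ (mem_filter.1 (hs (mem_filter.2 ⟨hy, e⟩))).2⟩
  have h4 : Set.InjOn rk B := fun x hx y hy e => by
    rcases lt_trichotomy (κ x) (κ y) with c | c | c
    · exact absurd e (h3 x y hy c).ne'
    · exact h2 x y c
    · exact absurd e (h3 y x hx c).ne
  have h5 : B.image rk = range #B := eq_of_subset_of_card_le (fun i hi => by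
    obtain ⟨x, hx, rfl⟩ := mem_image.1 hi
    exact mem_range.2 (card_lt_card ⟨filter_subset _ _, fun hs =>
      lt_irrefl _ (mem_filter.1 (hs hx)).2⟩)) (by rw [card_image_of_injOn h4, card_range])
  have h6 : dec n (top n k W v) = {x ∈ B | rk x < k} := by
    ext x
    have e : ((List.range n).countP fun y =>
        inB v y && Nat.blt (W.getD x 0 * n + x) (W.getD y 0 * n + y)) = rk x := by
      rw [List.countP_eq_length_filter,
        ← List.toFinset_card_of_nodup (List.nodup_range.filter _)]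
      refine Eq.trans ?_ (card_map Fin.valEmbedding)
      congr 1
      ext y
      simp only [List.mem_toFinset, List.mem_filter, List.mem_range, mem_map, mem_filter,
        Fin.valEmbedding_apply, Bool.and_eq_true, Nat.blt_eq]
      exact ⟨fun c => ⟨⟨y, c.1⟩, ⟨of_decide_eq_true ((h ⟨y, c.1⟩).1 ▸ c.2.1), c.2.2⟩, rfl⟩,
        fun ⟨z, hz, e⟩ => e ▸ ⟨z.2, (h z).1.trans (decide_eq_true hz.1), hz.2⟩⟩
    simp only [dec, top, mem_filter, mem_univ, true_and, List.mem_filter, List.mem_range, x.2,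
      Bool.and_eq_true, Nat.blt_eq, e, (h x).1, decide_eq_true_iff]
  have h7 : #{x ∈ B | rk x < k} = k := by
    rw [← card_image_of_injOn (h4.mono (coe_subset.2 (filter_subset _ _))),
      ← filter_image (p := fun i => i < k), h5]
    rw [show (range #B).filter (fun i => i < k) = range k by
      ext i; simp only [mem_filter, mem_range]; omega, card_range]
  rw [h6]
  refine ⟨filter_subset _ _, h7, fun R hR N hN => ?_⟩
  rcases Nat.eq_zero_or_pos k with rfl | hk0
  · simp
  obtain ⟨z, hz, hm⟩ := exists_min_image {x ∈ B | rk x < k} (fun x => W.getD x 0)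
    (card_pos.1 (by omega))
  have h8 : ∑ x ∈ R, ((W.getD x 0 : ℝ) - W.getD z 0) ≤
      ∑ x ∈ B with rk x < k, ((W.getD x 0 : ℝ) - W.getD z 0) := by
    rw [← Finset.sum_ite_mem_eq R, ← Finset.sum_ite_mem_eq (filter _ B)]
    refine sum_le_sum fun x _ => ?_
    by_cases c : x ∈ filter (fun x => rk x < k) B
    · rw [if_pos c]
      split_ifs
      · exact le_rfl
      · exact sub_nonneg.2 (by exact_mod_cast hm x c)
    · rw [if_neg c]
      split_ifs with c'
      · refine sub_nonpos.2 (by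
          exact_mod_cast h1 z x (not_lt.1 fun e => c (mem_filter.2
            ⟨hR c', (h3 z x (hR c') e).trans (mem_filter.1 hz).2⟩)))
      · exact le_rfl
  have h9 : (0 : ℝ) ≤ ∑ x ∈ B with rk x < k, ((W.getD x 0 : ℝ) - W.getD z 0) :=
    sum_nonneg fun x hx => sub_nonneg.2 (by exact_mod_cast hm x hx)
  rw [sum_sub_distrib, sum_const, h7, nsmul_eq_mul] at h9
  rw [sum_sub_distrib, sum_sub_distrib, sum_const, sum_const, h7, nsmul_eq_mul,
    nsmul_eq_mul] at h8
  have h10 : (#R : ℝ) * W.getD z 0 ≤ (k + N) * W.getD z 0 :=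
    mul_le_mul_of_nonneg_right (by exact_mod_cast hN) (Nat.cast_nonneg _)
  nlinarith [mul_le_mul_of_nonneg_left h8 (Nat.cast_nonneg k : (0 : ℝ) ≤ k),
    mul_le_mul_of_nonneg_left h10 (Nat.cast_nonneg k : (0 : ℝ) ≤ k),
    mul_nonneg (Nat.cast_nonneg N : (0 : ℝ) ≤ N) h9]

section pf
variable {α : Type} [Enc α]

@[fun_prop] theorem pb_num {T : α → Wt} {i : α → ℕ} (hT : PF T) (hi : PF i) :
    PB fun a => num (T a) (i a) :=
  PB.val (f := fun a => ((T a).getD (i a) (⟨0⟩, ⟨0⟩)).1) (by fun_prop)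

@[fun_prop] theorem pb_den {T : α → Wt} {i : α → ℕ} (hT : PF T) (hi : PF i) :
    PB fun a => den (T a) (i a) :=
  PB.val (f := fun a => ((T a).getD (i a) (⟨0⟩, ⟨0⟩)).2) (by fun_prop)

@[fun_prop] theorem pf_scale {n Q : α → ℕ} {T : α → Wt} {U : α → List ℕ} (hn : PF n) (hQ : PF Q)
    (hT : PF T) (hU : PF U) : PF fun a => scale (n a) (Q a) (T a) (U a) := by
  unfold scale
  fun_prop

theorem pf_tups' (c : ℕ) : PF fun N => tups N c := by
  induction c with
  | zero => exact PF.const _
  | succ c ih =>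
    exact PF.cons (PF.const _) (PF.flatMap (f := fun N x => (tups N c).map fun t => x :: t)
      (PF.range PF.id') (PF.map (f := fun (q : ℕ × ℕ) t => q.2 :: t) (ih.comp PF.id'.fst)
        (by fun_prop)))

@[fun_prop] theorem pf_tups {n : α → ℕ} (c : ℕ) (hn : PF n) : PF fun a => tups (n a) c :=
  (pf_tups' c).comp hn

@[fun_prop] theorem pf_top {n k : α → ℕ} {W : α → List ℕ} {v : α → Vec} (hn : PF n) (hk : PF k)
    (hW : PF W) (hv : PF v) : PF fun a => top (n a) (k a) (W a) (v a) := by
  unfold top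
  fun_prop

@[fun_prop] theorem pf_best {W : α → List ℕ} {C : α → List (List ℕ)} (hW : PF W) (hC : PF C) :
    PF fun a => best (W a) (C a) := by
  unfold best wsum
  fun_prop

end pf

end Pool.Agent.Lib.MP_1bbcfd_lc.PM
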