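import Pool.Agent.Lib.MP_1bbcfd_lc.PT.Defs
import Pool.Agent.Lib.MP_1bbcfd_lc.PT.Kit

/-! Exchange properties of bases. -/

namespace Pool.Agent.Lib.MP_1bbcfd_lc.PT

open Finset
open scoped symmDiff

variable {α : Type} [DecidableEq α] {M : Matroid α} {B B' : Finset α}

omit [DecidableEq α] in
theorem card_eq (h : M.IsBase (B : Set α)) (h' : M.IsBase (B' : Set α)) : #B = #B' := by
  exact Kit.card_eq_of_base h h'

omit [DecidableEq α] in
theorem base_of_card (h : M.IsBase (B : Set α)) (h' : M.Indep (B' : Set α)) (c : #B ≤ #B') :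
    M.IsBase (B' : Set α) := by
  exact Kit.base_of_card h h' c

theorem Sw.base {y x : α} (s : Sw M B y x) (h : M.IsBase (B : Set α)) :
    M.IsBase ((insert y (B.erase x) : Finset α) : Set α) := by
  exact h.exchange_isBase_of_indep s.2.1 (e := x) (by simpa using s.2.2) |> fun a => by simpa using a

theorem sw_kit (h : M.IsBase (B : Set α)) {y x : α} : Sw M B y x ↔ Kit.Sw M B x y :=
  ⟨fun s => ⟨s.1, s.2.1, s.base h⟩, fun s => ⟨s.1, s.2.1, s.2.2.indep⟩⟩

theorem sw_iff (hE : M.E = Set.univ) (h : M.IsBase (B : Set α)) {y x : α} (hx : x ∈ B)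
    (hy : y ∉ B) : Sw M B y x ↔ y ∉ M.closure ((B.erase x : Finset α) : Set α) := by
  rw [sw_kit h, Kit.sw_iff hE h hx hy, coe_erase]

/-- Hall: for `Y ⊆ B' \ B` with neighbours `N`, the independent set `(B ∩ B') ∪ Y` lies in the
closure of `(B ∩ B') ∪ N` (closures of subsets of `B` commute with intersections). -/
theorem exists_inj (hE : M.E = Set.univ) (h : M.IsBase (B : Set α)) (h' : M.IsBase (B' : Set α)) :
    ∃ τ : α → α, Set.InjOn τ ((B' \ B : Finset α) : Set α) ∧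
      ∀ y ∈ B' \ B, τ y ∈ B \ B' ∧ Sw M B y (τ y) := by
  obtain ⟨f, hf, hs⟩ := Kit.brualdi hE h h'
  exact ⟨f, hf.injOn, fun y hy => ⟨hf.mapsTo (mem_coe.2 hy), (sw_kit h).2 (hs y hy)⟩⟩

/-- Unique matching lemma. If the new set held a circuit, take in it the `y a` with least `ρ a`;
the rest of the circuit lies in the closure of `B - x a`. -/
theorem tri {ι β : Type} [LinearOrder β] (hE : M.E = Set.univ) (h : M.IsBase (B : Set α))
    (T : Finset ι) (y x : ι → α) (ρ : ι → β) (hy : Set.InjOn y (T : Set ι))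
    (hx : Set.InjOn x (T : Set ι)) (hs : ∀ a ∈ T, Sw M B (y a) (x a))
    (ht : ∀ a ∈ T, ∀ a' ∈ T, a ≠ a' → Sw M B (y a) (x a') → ρ a < ρ a') :
    M.IsBase (((B \ T.image x) ∪ T.image y : Finset α) : Set α) := by
  have _ := hx
  exact Kit.uniq hE h T x y ρ (fun i hi j hj he => hy hi hj he)
    (fun i hi => (sw_kit h).1 (hs i hi))
    fun i hi j hj hij s => ht j hj i hi hij.symm ((sw_kit h).2 s)

theorem Two.d_kit (P : Two α) (h : P.CB B) {F : Finset α} (hF : F ⊆ B) {u v : α} :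
    P.D B F u v ↔ Kit.Arc P.M₁ P.M₂ B F u v := by
  constructor
  · rintro (⟨a, b⟩ | ⟨a, b⟩)
    · exact ⟨fun c => a.2.1 (hF c), b, Or.inl ((sw_kit h.1).1 a)⟩
    · exact ⟨b, fun c => a.2.1 (hF c), Or.inr ((sw_kit h.2).1 a)⟩
  · rintro ⟨a, b, c | c⟩
    · exact Or.inl ⟨(sw_kit h.1).2 c, b⟩
    · exact Or.inr ⟨(sw_kit h.2).2 c, a⟩

/-- The symmetric difference of two common bases is permuted by arcs (`exists_inj` for the first
matroid, the inverse of `exists_inj` for the second). -/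
theorem Two.exists_perm [Fintype α] (P : Two α) (h : P.CB B) (h' : P.CB B') :
    ∃ σ : Equiv.Perm α, (∀ v ∈ B ∆ B', σ v ∈ B ∆ B' ∧ P.D B (B ∩ B') v (σ v)) ∧
      ∀ v, v ∉ B ∆ B' → σ v = v := by
  obtain ⟨π, h₁, h₂⟩ := Kit.exists_perm P.e₁ P.e₂ h.1 h.2 h'.1 h'.2
    (inter_subset_left (s₁ := B) (s₂ := B')) inter_subset_right
  exact ⟨π, fun v hv => ⟨(h₂ v hv).1, (P.d_kit h inter_subset_left).2 (h₂ v hv).2⟩, h₁⟩

/-- `exists_inj` for `B, B₁` in the first matroid and for `B, B₂` in the second. -/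
theorem Two.closed_of_arcs (P : Two α) (h : P.CB B) {F Z : Finset α} (hF : F ⊆ B)
    (c : ∀ u v, P.D B F u v → u ∈ Z → v ∈ Z) : P.Closed F Z := by
  exact (Kit.closed_iff P.e₁ P.e₂ h.1 h.2 hF).2 fun u v a => c u v ((P.d_kit h hF).2 a)

theorem Two.arcs_of_closed (P : Two α) (h : P.CB B) {F Z : Finset α} (hF : F ⊆ B)
    (c : P.Closed F Z) {u v : α} (a : P.D B F u v) (hu : u ∈ Z) : v ∈ Z := by
  exact (Kit.closed_iff P.e₁ P.e₂ h.1 h.2 hF).1 c u v ((P.d_kit h hF).1 a) hu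

theorem Two.rc_of_wk (P : Two α) (h : P.CB B) {F : Finset α} (hF : F ⊆ B) {x y : α} {l : List α}
    (w : Wk (P.D B F) x l y) : P.Rc F x y := by
  intro Z c hx
  induction l generalizing x with
  | nil => exact w ▸ hx
  | cons p l ih =>
    obtain ⟨_, u, b, d⟩ := w
    exact ih d (P.arcs_of_closed h hF c b hx)

end Pool.Agent.Lib.MP_1bbcfd_lc.PT
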