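import Pool.Agent.Lib.MP_1bbcfd_lc.PT.Mat

/-! Shortest positive closed walks and ball growing. -/

namespace Pool.Agent.Lib.MP_1bbcfd_lc.PT

open Finset
open scoped symmDiff

variable {α : Type} [DecidableEq α]

omit [DecidableEq α] in
theorem cw_mod {D : α → α → Prop} {n : ℕ} {v : ℕ → α} (hn : 0 < n) (hc : v n = v 0)
    (ha : ∀ i < n, D (v i) (v (i + 1))) :
    Kit.CW D (fun t => v (t % n)) n ∧ ∀ i ≤ n, v (i % n) = v i := by
  have h0 : ∀ i ≤ n, v (i % n) = v i := by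
    intro i hi
    rcases Nat.lt_or_ge i n with h | h
    · rw [Nat.mod_eq_of_lt h]
    · rw [show i = n by omega, Nat.mod_self, hc]
  refine ⟨⟨hn, fun i => by simp, fun i => ?_⟩, h0⟩
  have hlt := Nat.mod_lt i hn
  have h := ha _ hlt
  rw [← h0 (i % n + 1) hlt, Nat.mod_add_mod] at h
  exact h

omit [DecidableEq α] in
theorem wk_fun {D : α → α → Prop} {s t : α} {l : List α} (w : Wk D s l t) :
    ∃ v : ℕ → α, v 0 = s ∧ v l.length = t ∧ (∀ i < l.length, D (v i) (v (i + 1))) ∧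
      l = seg v 0 l.length := by
  induction l generalizing s with
  | nil => exact ⟨fun _ => s, rfl, w, fun i hi => absurd hi (Nat.not_lt_zero i), rfl⟩
  | cons a l ih =>
    obtain ⟨rfl, u, hu, w'⟩ := w
    obtain ⟨v, h0, h1, h2, h3⟩ := ih w'
    refine ⟨fun i => Nat.casesOn i a v, rfl, h1, fun i hi => ?_, ?_⟩
    · cases i with
      | zero => exact (show D a (v 0) from h0 ▸ hu)
      | succ i => exact h2 i (by simpa using hi)
    · rw [seg, List.length_cons, List.range_succ_eq_map, List.map_cons, List.map_map]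
      refine congrArg _ (h3.trans ?_)
      rw [seg]
      refine List.map_congr_left fun i _ => ?_
      simp

omit [DecidableEq α] in
/-- In a positive closed walk without shorter positive closed walk on its vertices the chords are
ordered: `ρ a = toLex (∑ i ∈ range (a + 1), ψ (v i), -a)`. -/
theorem order_of_min (D : α → α → Prop) (ψ : α → ℝ) (n : ℕ) (v : ℕ → α) (hc : v n = v 0)
    (ha : ∀ i < n, D (v i) (v (i + 1))) (hp : 0 < ∑ i ∈ range n, ψ (v i))
    (hmin : ∀ s l, Wk D s l s → (∀ x ∈ l, ∃ i < n, v i = x) → l.length < n →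
      (l.map ψ).sum ≤ 0) :
    ∃ ρ : ℕ → Lex (ℝ × ℤ), ∀ a < n, ∀ a' < n, a ≠ a' → D (v a) (v (a' + 1)) → ρ a < ρ a' := by
  have hn : 0 < n := by
    rcases Nat.eq_zero_or_pos n with h | h
    · subst h; simp at hp
    · exact h
  obtain ⟨hw, h0⟩ := cw_mod hn hc ha
  set u : ℕ → α := fun t => v (t % n) with hu
  have hu' : ∀ i ≤ n, u i = v i := h0
  set P : ℕ → ℝ := fun k => ∑ t ∈ range k, ψ (u t) with hP
  have hch : ∀ a s, s + 1 < n → D (u (a + s)) (u a) → P (a + s + 1) ≤ P a := by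
    intro a s hs hA
    have hwk : Wk D (u a) (seg u a (s + 1)) (u a) := by
      rw [seg, List.range_succ, List.map_append]
      exact wk_append.2 ⟨_, wk_seg u a s fun i _ => hw.2.2 (a + i), rfl, _, hA, rfl⟩
    have h1 := hmin _ _ hwk (fun x hx => by
      obtain ⟨i, _, rfl⟩ := mem_seg.1 hx
      exact ⟨(a + i) % n, Nat.mod_lt _ hn, rfl⟩) (by simpa [seg] using hs)
    rw [sum_seg] at h1
    have h2 : P (a + (s + 1)) = P a + ∑ t ∈ range (s + 1), ψ (u (a + t)) :=
      sum_range_add _ a (s + 1)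
    rw [show a + s + 1 = a + (s + 1) by omega]
    linarith
  have hsh : ∀ a, P (a + n) = P a + P n := fun a =>
    Kit.sum_shift (g := fun t => ψ (u t)) (fun i => by rw [hw.2.1]) a
  have hL : 0 < P n := by
    have : P n = ∑ i ∈ range n, ψ (v i) :=
      sum_congr rfl fun i hi => by rw [hu' i (mem_range.1 hi).le]
    rwa [this]
  refine ⟨fun a => toLex (P (a + 1), -(a : ℤ)), fun i hi j hj hij hA => ?_⟩
  rw [← hu' i hi.le, ← hu' (j + 1) hj] at hA
  rw [Prod.Lex.toLex_lt_toLex]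
  rcases lt_or_gt_of_ne hij with hlt | hlt
  · obtain ⟨s, hs⟩ : ∃ s, j + 1 + s = i + n := ⟨i + n - j - 1, by omega⟩
    have h1 := hch (j + 1) s (by omega) (by rw [hs, hw.2.1]; exact hA)
    rw [show j + 1 + s + 1 = (i + 1) + n by omega, hsh] at h1
    exact Or.inl (by linarith)
  · obtain ⟨s, hs⟩ : ∃ s, j + 1 + s = i := ⟨i - j - 1, by omega⟩
    have h1 := hch (j + 1) s (by omega) (by rw [hs]; exact hA)
    rw [hs] at h1
    rcases h1.lt_or_eq with h2 | h2
    · exact Or.inl h2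
    · exact Or.inr ⟨h2, by simpa using hlt⟩

/-- A closed walk with ordered chords is a certified move (`tri` for each matroid). -/
theorem cert_of_order {β : Type} [LinearOrder β] {A₁ A₂ : α → α → Prop} {B F : Finset α}
    (hF : F ⊆ B) (h₁ : ∀ y x, A₁ y x → x ∈ B ∧ y ∉ B) (h₂ : ∀ y x, A₂ y x → x ∈ B ∧ y ∉ B)
    (n : ℕ) (v : ℕ → α) (ρ : ℕ → β) (hc : v n = v 0)
    (ha : ∀ i < n, Arc A₁ A₂ F (v i) (v (i + 1)))
    (ho : ∀ a < n, ∀ a' < n, a ≠ a' → Arc A₁ A₂ F (v a) (v (a' + 1)) → ρ a < ρ a') :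
    Set.InjOn v (range n : Set ℕ) ∧ (∀ i < n, v i ∉ F) ∧
      Cert A₁ B (B ∆ (range n).image v) ∧ Cert A₂ B (B ∆ (range n).image v) := by
  have hinj : ∀ i < n, ∀ j < n, v i = v j → i = j := by
    intro i hi j hj he
    by_contra hij
    have a := ho i hi j hj hij (he ▸ ha j hj)
    have b := ho j hj i hi (Ne.symm hij) (he ▸ ha i hi)
    exact lt_asymm a b
  have hvF : ∀ i < n, v i ∉ F := by
    intro i hi
    rcases ha i hi with a | a
    · exact fun h => (h₁ _ _ a.1).2 (hF h)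
    · exact a.2
  refine ⟨fun i hi j hj he => hinj i (by simpa using hi) j (by simpa using hj) he, hvF, ?_⟩
  rcases Nat.eq_zero_or_pos n with hn | hn
  · subst hn
    have e : B ∆ (range 0).image v = B := by simp
    rw [e]
    exact ⟨fun _ _ h _ => h, fun _ _ h _ => h⟩
  obtain ⟨hw, h0⟩ := cw_mod hn hc ha
  have hvF' : ∀ i < n, v (i + 1) ∉ F := fun i hi => by
    rw [← h0 (i + 1) hi]
    exact hvF _ (Nat.mod_lt _ hn)
  have hout : ∀ i < n, v i ∉ B → A₁ (v i) (v (i + 1)) := fun i hi h =>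
    ((ha i hi).resolve_right fun a => h (h₂ _ _ a.1).1).1
  have hin : ∀ i < n, v i ∈ B → A₂ (v (i + 1)) (v i) := fun i hi h =>
    ((ha i hi).resolve_left fun a => (h₁ _ _ a.1).2 h).1
  have hmem : ∀ t ≤ n, v t ∈ (range n).image v := fun t ht =>
    mem_image.2 ⟨t % n, mem_range.2 (Nat.mod_lt t hn), h0 t ht⟩
  have hpred : ∀ t < n, ∃ i < n, v (i + 1) = v t := by
    intro t ht
    obtain ⟨i, hi, h⟩ := hw.pred t
    exact ⟨i, hi, by rw [← h0 (i + 1) hi, ← h0 t ht.le]; exact h⟩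
  have hsinj : ∀ i < n, ∀ j < n, v (i + 1) = v (j + 1) → i = j := by
    intro i hi j hj he
    refine hw.succ_inj (fun a ha b hb h => hinj a ha b hb ?_) hi hj ?_
    · rw [← h0 a ha.le, ← h0 b hb.le]; exact h
    · rw [h0 (i + 1) hi, h0 (j + 1) hj, he]
  constructor
  · intro M hE hB hA
    have h := Kit.uniq hE hB ((range n).filter fun i => v i ∉ B) (fun i => v (i + 1)) v ρ
      (fun i hi j hj he => hinj i (mem_range.1 (mem_filter.1 hi).1) j
        (mem_range.1 (mem_filter.1 hj).1) he)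
      (fun i hi => (sw_kit hB).1 ((hA _ _).2
        (hout i (mem_range.1 (mem_filter.1 hi).1) (mem_filter.1 hi).2)))
      (fun i hi j hj hij hs => ho j (mem_range.1 (mem_filter.1 hj).1) i
        (mem_range.1 (mem_filter.1 hi).1) hij.symm
        (Or.inl ⟨(hA _ _).1 ((sw_kit hB).2 hs), hvF' i (mem_range.1 (mem_filter.1 hi).1)⟩))
    have he : B ∆ (range n).image v =
        (B \ ((range n).filter fun i => v i ∉ B).image fun i => v (i + 1)) ∪
          ((range n).filter fun i => v i ∉ B).image v := by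
      ext e
      rw [mem_symmDiff, mem_union, mem_sdiff]
      constructor
      · rintro (⟨hB, hn⟩ | ⟨hc, hB⟩)
        · refine Or.inl ⟨hB, fun h' => hn ?_⟩
          obtain ⟨i, hi, rfl⟩ := mem_image.1 h'
          exact hmem _ (mem_range.1 (mem_filter.1 hi).1)
        · obtain ⟨i, hi, rfl⟩ := mem_image.1 hc
          exact Or.inr (mem_image.2 ⟨i, mem_filter.2 ⟨hi, hB⟩, rfl⟩)
      · rintro (⟨hB, hn⟩ | hc)
        · refine Or.inl ⟨hB, fun h' => hn ?_⟩
          obtain ⟨t, ht, rfl⟩ := mem_image.1 h'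
          obtain ⟨i, hi, hit⟩ := hpred t (mem_range.1 ht)
          refine mem_image.2 ⟨i, mem_filter.2 ⟨mem_range.2 hi, fun hiB => ?_⟩, hit⟩
          exact (h₂ _ _ (hin i hi hiB)).2 (hit ▸ hB)
        · obtain ⟨i, hi, rfl⟩ := mem_image.1 hc
          exact Or.inr ⟨mem_image_of_mem _ (mem_filter.1 hi).1, (mem_filter.1 hi).2⟩
    rw [he]
    exact h
  · intro M hE hB hA
    have h := Kit.uniq hE hB ((range n).filter fun i => v i ∈ B) v (fun i => v (i + 1))
      (fun i => OrderDual.toDual (ρ i))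
      (fun i hi j hj he => hsinj i (mem_range.1 (mem_filter.1 hi).1) j
        (mem_range.1 (mem_filter.1 hj).1) he)
      (fun i hi => (sw_kit hB).1 ((hA _ _).2
        (hin i (mem_range.1 (mem_filter.1 hi).1) (mem_filter.1 hi).2)))
      (fun i hi j hj hij hs => OrderDual.toDual_lt_toDual.2
        (ho i (mem_range.1 (mem_filter.1 hi).1) j (mem_range.1 (mem_filter.1 hj).1) hij
        (Or.inr ⟨(hA _ _).1 ((sw_kit hB).2 hs), hvF i (mem_range.1 (mem_filter.1 hi).1)⟩)))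
    have he : B ∆ (range n).image v =
        (B \ ((range n).filter fun i => v i ∈ B).image v) ∪
          ((range n).filter fun i => v i ∈ B).image fun i => v (i + 1) := by
      ext e
      rw [mem_symmDiff, mem_union, mem_sdiff]
      constructor
      · rintro (⟨hB, hn⟩ | ⟨hc, hB⟩)
        · refine Or.inl ⟨hB, fun h' => hn ?_⟩
          obtain ⟨i, hi, rfl⟩ := mem_image.1 h'
          exact mem_image_of_mem _ (mem_filter.1 hi).1
        · obtain ⟨t, ht, rfl⟩ := mem_image.1 hc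
          obtain ⟨i, hi, hit⟩ := hpred t (mem_range.1 ht)
          refine Or.inr (mem_image.2 ⟨i, mem_filter.2 ⟨mem_range.2 hi, ?_⟩, hit⟩)
          by_contra hiB
          exact hB (hit ▸ (h₁ _ _ (hout i hi hiB)).1)
      · rintro (⟨hB, hn⟩ | hc)
        · refine Or.inl ⟨hB, fun h' => hn ?_⟩
          obtain ⟨t, ht, rfl⟩ := mem_image.1 h'
          exact mem_image.2 ⟨t, mem_filter.2 ⟨ht, hB⟩, rfl⟩
        · obtain ⟨i, hi, rfl⟩ := mem_image.1 hc
          have hi' := mem_range.1 (mem_filter.1 hi).1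
          exact Or.inr ⟨hmem _ hi', (h₂ _ _ (hin i hi' (mem_filter.1 hi).2)).2⟩
    rw [he]
    exact h

omit [DecidableEq α] in
/-- A shortest positive closed walk inside a given one; chords are ordered by the initial sums. -/
theorem exists_short (D : α → α → Prop) (ψ : α → ℝ) {s : α} {l : List α} (w : Wk D s l s)
    (hp : 0 < (l.map ψ).sum) : ∃ (n : ℕ) (v : ℕ → α) (ρ : ℕ → Lex (ℝ × ℤ)), v n = v 0 ∧
      (∀ i < n, v i ∈ l ∧ D (v i) (v (i + 1))) ∧ 0 < ∑ i ∈ range n, ψ (v i) ∧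
      ∀ a < n, ∀ a' < n, a ≠ a' → D (v a) (v (a' + 1)) → ρ a < ρ a' := by
  induction hn : l.length using Nat.strong_induction_on generalizing s l with
  | _ n ih =>
  by_cases hex : ∃ s' l', Wk D s' l' s' ∧ (∀ x ∈ l', x ∈ l) ∧ l'.length < n ∧
      0 < (l'.map ψ).sum
  · obtain ⟨s', l', w', hsub, hlt, hp'⟩ := hex
    obtain ⟨m, v, ρ, a, b, c, d⟩ := ih _ hlt w' hp' rfl
    exact ⟨m, v, ρ, a, fun i hi => ⟨hsub _ (b i hi).1, (b i hi).2⟩, c, d⟩
  · push Not at hex
    obtain ⟨v, h0, h1, h2, h3⟩ := wk_fun w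
    rw [hn] at h1 h2 h3
    have hmem : ∀ i < n, v i ∈ l := fun i hi => by
      rw [h3]
      exact mem_seg.2 ⟨i, hi, by rw [Nat.zero_add]⟩
    have hs : 0 < ∑ i ∈ range n, ψ (v i) := by
      rw [h3, sum_seg] at hp
      simpa using hp
    obtain ⟨ρ, hρ⟩ := order_of_min D ψ n v (h1.trans h0.symm) h2 hs fun s' l' w' hin hlt =>
      hex s' l' w' (fun x hx => by
        obtain ⟨i, hi, rfl⟩ := hin x hx
        exact hmem i hi) hlt
    exact ⟨n, v, ρ, h1.trans h0.symm, fun i hi => ⟨hmem i hi, h2 i hi⟩, hs, hρ⟩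

/-- A positive closed walk in the exchange digraph gives a certified positive move. -/
theorem exists_mv {A₁ A₂ : α → α → Prop} {B F : Finset α} (hF : F ⊆ B)
    (h₁ : ∀ y x, A₁ y x → x ∈ B ∧ y ∉ B) (h₂ : ∀ y x, A₂ y x → x ∈ B ∧ y ∉ B) (ψ : α → ℝ)
    {s : α} {l : List α} (w : Wk (Arc A₁ A₂ F) s l s) (hp : 0 < (l.map ψ).sum) :
    ∃ C : Finset α, (∀ v ∈ C, v ∈ l ∧ v ∉ F) ∧ 0 < ∑ v ∈ C, ψ v ∧
      Cert A₁ B (B ∆ C) ∧ Cert A₂ B (B ∆ C) := by
  obtain ⟨n, v, ρ, hc, ha, hs, ho⟩ := exists_short _ ψ w hp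
  obtain ⟨hinj, hvF, c₁, c₂⟩ := cert_of_order hF h₁ h₂ n v ρ hc (fun i hi => (ha i hi).2) ho
  refine ⟨(range n).image v, fun e he => ?_, ?_, c₁, c₂⟩
  · obtain ⟨i, hi, rfl⟩ := mem_image.1 he
    exact ⟨(ha i (mem_range.1 hi)).1, hvF i (mem_range.1 hi)⟩
  · rw [sum_image hinj]
    exact hs

theorem Two.exists_mv (P : Two α) {B F : Finset α} (hF : F ⊆ B) (ψ : α → ℝ)
    {s : α} {l : List α} (w : Wk (P.D B F) s l s) (hp : 0 < (l.map ψ).sum) :
    ∃ C : Finset α, (∀ v ∈ C, v ∈ l ∧ v ∉ F) ∧ 0 < ∑ v ∈ C, ψ v ∧ P.Mv B (B ∆ C) :=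
  PT.exists_mv hF (fun _ _ a => ⟨a.1, a.2.1⟩) (fun _ _ a => ⟨a.1, a.2.1⟩) ψ w hp

omit [DecidableEq α] in
/-- Some radius lies in few of the intervals (Lebesgue measure). -/
theorem exists_radius [Fintype α] (d c : α → ℝ) (hc : ∀ v, 0 ≤ c v) {a b : ℝ} (hab : a < b)
    (K : ℕ) (h : ∑ v, c v < (K + 1) * (b - a)) :
    ∃ r, a ≤ r ∧ r < b ∧ #{v | d v ≤ r ∧ r ≤ d v + c v} ≤ K := by
  by_contra hn
  have hn' : ∀ r, a ≤ r → r < b → K + 1 ≤ #{v | d v ≤ r ∧ r ≤ d v + c v} := by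
    intro r h1 h2
    by_contra h3
    exact hn ⟨r, h1, h2, by omega⟩
  have h1 : ∫⁻ r, (Set.Ico a b).indicator (fun _ => ((K + 1 : ℕ) : ENNReal)) r ≤
      ∫⁻ r, ∑ v, (Set.Icc (d v) (d v + c v)).indicator (fun _ => (1 : ENNReal)) r := by
    refine MeasureTheory.lintegral_mono fun r => ?_
    have e : ∑ v, (Set.Icc (d v) (d v + c v)).indicator (fun _ => (1 : ENNReal)) r =
        ((#{v | d v ≤ r ∧ r ≤ d v + c v} : ℕ) : ENNReal) := by
      rw [Finset.card_filter, Nat.cast_sum]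
      refine Finset.sum_congr rfl fun v _ => ?_
      by_cases hv : d v ≤ r ∧ r ≤ d v + c v
      · rw [Set.indicator_of_mem (show r ∈ Set.Icc _ _ from hv), if_pos hv, Nat.cast_one]
      · rw [Set.indicator_of_notMem (show r ∉ Set.Icc _ _ from hv), if_neg hv, Nat.cast_zero]
    rw [e]
    by_cases hr : r ∈ Set.Ico a b
    · rw [Set.indicator_of_mem hr]
      exact Nat.cast_le.2 (hn' r hr.1 hr.2)
    · rw [Set.indicator_of_notMem hr]
      exact bot_le
  rw [MeasureTheory.lintegral_indicator_const measurableSet_Ico,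
    MeasureTheory.lintegral_finsetSum _
      (fun v _ => measurable_const.indicator measurableSet_Icc)] at h1
  simp only [MeasureTheory.lintegral_indicator_const measurableSet_Icc, Real.volume_Ico,
    Real.volume_Icc, add_sub_cancel_left, one_mul] at h1
  rw [← ENNReal.ofReal_sum_of_nonneg (fun v _ => hc v), ← ENNReal.ofReal_natCast,
    ← ENNReal.ofReal_mul (Nat.cast_nonneg _),
    ENNReal.ofReal_le_ofReal_iff (Finset.sum_nonneg fun v _ => hc v)] at h1
  push_cast at h1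
  linarith

/-- Ball growing from `X` with the cost `c`. -/
theorem ball [Fintype α] (D : α → α → Prop) (c : α → ℝ) (hc : ∀ v, 0 ≤ c v) (X : Finset α)
    {a b : ℝ} (hab : a < b) (K : ℕ) (h : ∑ v, c v < (K + 1) * (b - a)) :
    ∃ U H : Finset α, #H ≤ K ∧ (∀ v ∈ H, 0 < c v) ∧ (∀ u ∈ U, u ∉ H → ∀ v, D u v → v ∈ U) ∧
      (∀ q ∈ X, ∀ l v, Wk D q l v → (l.map c).sum ≤ a → v ∈ U) ∧
      ∀ v ∈ U, ∃ q ∈ X, ∃ l, Wk D q l v ∧ (l.map c).sum ≤ b := by
  classical
  let S : α → Set ℝ := fun v =>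
    insert (b + 1) {s | ∃ q ∈ X, ∃ l, Wk D q l v ∧ (l.map c).sum = s}
  have hne : ∀ v, (S v).Nonempty := fun v => Set.insert_nonempty _ _
  have hbd : ∀ v, BddBelow (S v) := by
    intro v
    refine ⟨min 0 (b + 1), ?_⟩
    rintro s (rfl | ⟨q, _, l, _, rfl⟩)
    · exact min_le_right _ _
    · refine (min_le_left _ _).trans (List.sum_nonneg ?_)
      intro x hx
      obtain ⟨y, _, rfl⟩ := List.mem_map.1 hx
      exact hc y
  obtain ⟨r, h1, h2, h3⟩ := exists_radius (fun v => sInf (S v)) c hc hab K h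
  refine ⟨Finset.univ.filter fun v => sInf (S v) ≤ r,
    Finset.univ.filter fun v => sInf (S v) ≤ r ∧ r < sInf (S v) + c v, ?_, ?_, ?_, ?_, ?_⟩
  · refine le_trans (Finset.card_le_card fun v hv => ?_) h3
    simp only [Finset.mem_filter, Finset.mem_univ, true_and] at hv ⊢
    exact ⟨hv.1, hv.2.le⟩
  · intro v hv
    simp only [Finset.mem_filter, Finset.mem_univ, true_and] at hv
    linarith [hv.1, hv.2]
  · intro u hu hH v huv
    simp only [Finset.mem_filter, Finset.mem_univ, true_and, not_and, not_lt] at hu hH ⊢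
    have h4 : sInf (S v) - c u ≤ sInf (S u) := by
      refine le_csInf (hne u) ?_
      rintro s (rfl | ⟨q, hq, l, w, rfl⟩)
      · have := csInf_le (hbd v) (Set.mem_insert (b + 1) _)
        linarith [hc u]
      · have := csInf_le (hbd v) (Set.mem_insert_of_mem (b + 1)
          ⟨q, hq, l ++ [u], wk_append.2 ⟨u, w, rfl, v, huv, rfl⟩, rfl⟩)
        simp only [List.map_append, List.sum_append, List.map_cons, List.map_nil, List.sum_cons,
          List.sum_nil, add_zero] at this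
        linarith
    linarith [hH hu]
  · intro q hq l v w hl
    simp only [Finset.mem_filter, Finset.mem_univ, true_and]
    have := csInf_le (hbd v) (Set.mem_insert_of_mem (b + 1) ⟨q, hq, l, w, rfl⟩)
    linarith
  · intro v hv
    simp only [Finset.mem_filter, Finset.mem_univ, true_and] at hv
    obtain ⟨s, hs, h4⟩ := exists_lt_of_csInf_lt (hne v) (hv.trans_lt h2)
    rcases hs with rfl | ⟨q, hq, l, w, rfl⟩
    · linarith
    · exact ⟨q, hq, l, w, h4.le⟩

end Pool.Agent.Lib.MP_1bbcfd_lc.PT
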